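import Pool.Agent.Lib.MP_7ac902_al.Z.Gen

set_option autoImplicit false

namespace Pool.Agent.Lib.MP_7ac902_al.Z

open Finset TensorProduct

variable {R : Type} [Ring R] [Algebra ℚ R]

private theorem altGen_prod_tmul {M N : ℕ} (f : Fin M → R) (g : Fin M → Lam N) :
    (List.ofFn fun t => f t ⊗ₜ[ℚ] g t).prod = (List.ofFn f).prod ⊗ₜ[ℚ] (List.ofFn g).prod := by
  induction M with
  | zero => simp [Algebra.TensorProduct.one_def]
  | succ M ih =>
    rw [List.ofFn_succ, List.ofFn_succ, List.ofFn_succ, List.prod_cons, List.prod_cons,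
      List.prod_cons, ih, Algebra.TensorProduct.tmul_mul_tmul]

private theorem altGen_alt_tmul {M N : ℕ} (a : Fin (M + 1) → R) (w : Fin M → R)
    (x : Fin M → Lam N) :
    alt (fun t => a t ⊗ₜ[ℚ] (1 : Lam N)) (fun t => w t ⊗ₜ[ℚ] x t) =
      alt a w ⊗ₜ[ℚ] (List.ofFn x).prod := by
  unfold alt
  have h : (fun t : Fin M => (w t ⊗ₜ[ℚ] x t) * (a t.succ ⊗ₜ[ℚ] (1 : Lam N))) =
      fun t => (w t * a t.succ) ⊗ₜ[ℚ] x t := by
    funext t
    rw [Algebra.TensorProduct.tmul_mul_tmul, mul_one]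
  rw [h, altGen_prod_tmul, Algebra.TensorProduct.tmul_mul_tmul, one_mul]

/-- Expansion of the multilinear word `a₀ η_{χ 0} a₁ ⋯ η_{χ (M-1)} a_M`. -/
theorem alt_gen {M i c : ℕ} (l : Fin i → R) (v : Fin M → R) (χ : Fin M → Fin c)
    (a : Fin (M + 1) → R) :
    alt (fun t => a t ⊗ₜ[ℚ] (1 : Lam M)) (fun t => gen l v χ (Sum.inr (χ t))) =
      (∑ τ ∈ colorStab χ, ((Equiv.Perm.sign τ : ℤ)) • alt a (v ∘ τ)) ⊗ₜ[ℚ]
        (ExteriorAlgebra.ιMulti ℚ M (fun p => Pi.single p (1 : ℚ))) := by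
  classical
  obtain ⟨F, hF⟩ := exists_alt_multilinear (A := R ⊗[ℚ] Lam M)
    (fun t : Fin (M + 1) => a t ⊗ₜ[ℚ] (1 : Lam M))
  rw [← hF]
  have h1 : (fun t => gen l v χ (Sum.inr (χ t))) = fun t : Fin M =>
      ∑ p ∈ univ.filter (fun p => χ p = χ t),
        v p ⊗ₜ[ℚ] (ExteriorAlgebra.ι ℚ (Pi.single p (1 : ℚ)) : Lam M) := rfl
  rw [h1, MultilinearMap.map_sum_finset F (fun (_ : Fin M) p => v p ⊗ₜ[ℚ]
      (ExteriorAlgebra.ι ℚ (Pi.single p (1 : ℚ)) : Lam M))
      (fun t => univ.filter (fun p => χ p = χ t))]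
  have h2 : ∀ r : Fin M → Fin M, F (fun t => v (r t) ⊗ₜ[ℚ]
      (ExteriorAlgebra.ι ℚ (Pi.single (r t) (1 : ℚ)) : Lam M)) =
      alt a (v ∘ r) ⊗ₜ[ℚ] ExteriorAlgebra.ιMulti ℚ M
        ((fun p : Fin M => (Pi.single p (1 : ℚ) : Fin M → ℚ)) ∘ r) := by
    intro r
    rw [hF, altGen_alt_tmul, ExteriorAlgebra.ιMulti_apply]
    rfl
  have h3 : ∑ r ∈ Fintype.piFinset (fun t : Fin M => univ.filter (fun p => χ p = χ t)),
      F (fun t => v (r t) ⊗ₜ[ℚ] (ExteriorAlgebra.ι ℚ (Pi.single (r t) (1 : ℚ)) : Lam M)) =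
      ∑ r ∈ (Fintype.piFinset (fun t : Fin M => univ.filter (fun p => χ p = χ t))).filter
        (fun r => Function.Injective r),
      F (fun t => v (r t) ⊗ₜ[ℚ] (ExteriorAlgebra.ι ℚ (Pi.single (r t) (1 : ℚ)) : Lam M)) := by
    symm
    apply Finset.sum_subset (Finset.filter_subset _ _)
    intro r hr hr'
    have hni : ¬ Function.Injective r := by
      intro hi
      exact hr' (Finset.mem_filter.2 ⟨hr, hi⟩)
    rw [h2]
    have : ExteriorAlgebra.ιMulti ℚ M
        ((fun p : Fin M => (Pi.single p (1 : ℚ) : Fin M → ℚ)) ∘ r) = 0 := by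
      apply AlternatingMap.map_eq_zero_of_not_injective
      intro hi
      exact hni (Function.Injective.of_comp hi)
    rw [this, TensorProduct.tmul_zero]
  rw [h3, TensorProduct.sum_tmul]
  symm
  apply Finset.sum_bij (fun (τ : Equiv.Perm (Fin M)) _ => (τ : Fin M → Fin M))
  · intro τ hτ
    have hτ' : ∀ p, χ (τ p) = χ p := by
      simpa [colorStab] using hτ
    simp only [Finset.mem_filter, Fintype.mem_piFinset, Finset.mem_univ, true_and]
    exact ⟨hτ', τ.injective⟩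
  · intro τ₁ _ τ₂ _ h
    exact DFunLike.coe_injective h
  · intro r hr
    simp only [Finset.mem_filter, Fintype.mem_piFinset, Finset.mem_univ, true_and] at hr
    have hb : Function.Bijective r := Finite.injective_iff_bijective.1 hr.2
    refine ⟨Equiv.ofBijective r hb, ?_, ?_⟩
    · simp only [colorStab, Finset.mem_filter, Finset.mem_univ, true_and]
      intro p
      exact hr.1 p
    · rfl
  · intro τ _
    rw [h2, AlternatingMap.map_perm]
    rw [Units.smul_def, TensorProduct.tmul_smul, ← TensorProduct.smul_tmul']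

/-- `r ⊗ ξ₀ ⋯ ξ_{M-1} = 0` implies `r = 0`. -/
theorem eq_zero_of_tmul_top {M : ℕ} (r : R)
    (h : r ⊗ₜ[ℚ] (ExteriorAlgebra.ιMulti ℚ M (fun p => Pi.single p (1 : ℚ)) : Lam M) = 0) :
    r = 0 := by
  classical
  let φ : Lam M →ₗ[ℚ] ℚ := ExteriorAlgebra.liftAlternating
    (Pi.single M (Matrix.detRowAlternating : (Fin M → ℚ) [⋀^Fin M]→ₗ[ℚ] ℚ))
  have hφ : φ (ExteriorAlgebra.ιMulti ℚ M (fun p => Pi.single p (1 : ℚ))) = 1 := by
    show ExteriorAlgebra.liftAlternating _ _ = _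
    rw [ExteriorAlgebra.liftAlternating_apply_ιMulti, Pi.single_eq_same]
    have : (fun p : Fin M => (Pi.single p (1 : ℚ) : Fin M → ℚ)) = (1 : Matrix (Fin M) (Fin M) ℚ) := by
      funext p q
      simp [Matrix.one_apply, Pi.single_apply, eq_comm]
    show Matrix.det (fun p : Fin M => (Pi.single p (1 : ℚ) : Fin M → ℚ)) = 1
    rw [this, Matrix.det_one]
  have h2 := congrArg (fun z => (TensorProduct.rid ℚ R) (LinearMap.lTensor R φ z)) h
  simp only [LinearMap.lTensor_tmul, hφ, TensorProduct.rid_tmul, one_smul, map_zero] at h2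
  exact h2

end Pool.Agent.Lib.MP_7ac902_al.Z
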