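import Pool.Agent.Lib.MP_7ac902_al.Z.Polar

set_option autoImplicit false

namespace Pool.Agent.Lib.MP_7ac902_al.Z

variable {A : Type*} [Ring A] [Algebra ℚ A]

/-- One step of Higgins' argument. -/
theorem higgins_step {j q : ℕ} (K K' : Submodule ℚ A) (hle : K' ≤ K)
    (hbr : ∀ x ∈ K, ∀ y ∈ K, x * y - y * x ∈ K') (hidx : Index K j) (hq : K' ^ q = ⊥) :
    K ^ (j * q) = ⊥ := by
  classical
  obtain ⟨W, hW⟩ : ∃ W : Submodule ℚ A,
      W = Subalgebra.toSubmodule (Algebra.adjoin ℚ (K : Set A)) := ⟨_, rfl⟩
  have hKW : K ≤ W := by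
    rw [hW]
    intro x hx
    exact Algebra.subset_adjoin hx
  have h1W : (1 : Submodule ℚ A) ≤ W := by
    rw [hW, Submodule.one_le]
    exact Subalgebra.one_mem _
  have hWW : W * W ≤ W := by
    rw [hW, Submodule.mul_le]
    intro a ha b hb
    exact Subalgebra.mul_mem _ ha hb
  have hK'Q : K' ≤ K' * W := by
    calc K' = K' * 1 := (mul_one _).symm
      _ ≤ K' * W := mul_le_mul' le_rfl h1W
  -- `W K' ≤ K' W`
  have hQW : K' * W * W ≤ K' * W := by
    rw [mul_assoc]
    exact mul_le_mul' le_rfl hWW
  have hWK' : W * K' ≤ K' * W := by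
    rw [Submodule.mul_le]
    intro a ha y hy
    rw [hW] at ha
    have : ∀ z ∈ K' * W, a * z ∈ K' * W := by
      refine Algebra.adjoin_induction (p := fun a _ => ∀ z ∈ K' * W, a * z ∈ K' * W)
        ?_ ?_ ?_ ?_ ha
      · intro x hx z hz
        refine Submodule.mul_induction_on hz ?_ ?_
        · intro y hy w hw
          have h1 : x * (y * w) = y * (x * w) + (x * y - y * x) * w := by
            noncomm_ring
          rw [h1]
          refine Submodule.add_mem _ ?_ ?_
          · exact Submodule.mul_mem_mul hy (hWW (Submodule.mul_mem_mul (hKW hx) hw))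
          · exact Submodule.mul_mem_mul (hbr x hx y (hle hy)) hw
        · intro a b ha hb
          rw [mul_add]
          exact Submodule.add_mem _ ha hb
      · intro r z hz
        rw [← Algebra.smul_def]
        exact Submodule.smul_mem _ _ hz
      · intro a b _ _ ha hb z hz
        rw [add_mul]
        exact Submodule.add_mem _ (ha z hz) (hb z hz)
      · intro a b _ _ ha hb z hz
        rw [mul_assoc]
        exact ha _ (hb z hz)
    exact this y (hK'Q hy)
  have hWQ : W * (K' * W) ≤ K' * W := by
    rw [← mul_assoc]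
    exact (mul_le_mul' hWK' le_rfl).trans hQW
  -- permuting the factors
  have hperm : ∀ l l' : List A, l.Perm l' → (∀ x ∈ l, x ∈ K) →
      l.prod - l'.prod ∈ K' * W := by
    intro l l' h
    induction h with
    | nil => intro _; simp
    | cons a _ ih =>
      intro hl
      rw [List.prod_cons, List.prod_cons, ← mul_sub]
      exact hWQ (Submodule.mul_mem_mul (hKW (hl a (by simp)))
        (ih fun x hx => hl x (List.mem_cons_of_mem _ hx)))
    | swap a b l =>
      intro hl
      have h1 : (b :: a :: l).prod - (a :: b :: l).prod = (b * a - a * b) * l.prod := by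
        simp only [List.prod_cons]
        noncomm_ring
      rw [h1]
      refine Submodule.mul_mem_mul (hbr b (hl b (by simp)) a (hl a (by simp))) ?_
      rw [hW]
      refine Subalgebra.list_prod_mem _ fun x hx => ?_
      have := hKW (hl x (by simp [hx]))
      rwa [hW] at this
    | trans h1 _ ih1 ih2 =>
      intro hl
      have := Submodule.add_mem _ (ih1 hl) (ih2 fun x hx => hl x (h1.mem_iff.2 hx))
      rwa [sub_add_sub_cancel] at this
  -- `K ^ j ≤ K' W`
  have hKj : K ^ j ≤ K' * W := by
    rw [Submodule.pow_eq_span_pow_set, Submodule.span_le]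
    intro a ha
    obtain ⟨z, rfl⟩ := Set.mem_pow.1 ha
    have h1 := sum_perm_prod K hidx (fun i => (z i : A)) fun i => (z i).2
    have h2 : ∑ σ : Equiv.Perm (Fin j), ((List.ofFn fun i => (z i : A)).prod -
        (List.ofFn ((fun i => (z i : A)) ∘ σ)).prod) ∈ K' * W := by
      refine Submodule.sum_mem _ fun σ _ => hperm _ _ ?_ ?_
      · exact (Equiv.Perm.ofFn_comp_perm σ _).symm
      · intro x hx
        obtain ⟨i, rfl⟩ := (List.mem_ofFn' _ _).1 hx
        exact (z i).2
    rw [Finset.sum_sub_distrib, h1, sub_zero, Finset.sum_const, Finset.card_univ,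
      Fintype.card_perm, Fintype.card_fin, ← Nat.cast_smul_eq_nsmul ℚ] at h2
    have h3 : ((j.factorial : ℚ))⁻¹ • ((j.factorial : ℚ)) • (List.ofFn fun i => (z i : A)).prod ∈
        K' * W := Submodule.smul_mem _ _ h2
    rwa [smul_smul, inv_mul_cancel₀ (by exact_mod_cast j.factorial_ne_zero), one_smul] at h3
  -- powers
  have hpow : ∀ n : ℕ, (K' * W) ^ n ≤ K' ^ n * W := by
    intro n
    induction n with
    | zero =>
      rw [pow_zero, pow_zero, one_mul]
      exact h1W
    | succ n ih =>
      calc (K' * W) ^ (n + 1) = (K' * W) ^ n * (K' * W) := pow_succ _ _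
        _ ≤ K' ^ n * W * (K' * W) := mul_le_mul' ih le_rfl
        _ = K' ^ n * (W * (K' * W)) := mul_assoc _ _ _
        _ ≤ K' ^ n * (K' * W) := mul_le_mul' le_rfl hWQ
        _ = K' ^ (n + 1) * W := by rw [pow_succ, mul_assoc]
  rw [pow_mul, eq_bot_iff]
  calc (K ^ j) ^ q ≤ (K' * W) ^ q := pow_le_pow_left' hKj q
    _ ≤ K' ^ q * W := hpow q
    _ = ⊥ := by rw [hq, Submodule.bot_mul]

end Pool.Agent.Lib.MP_7ac902_al.Z
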