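import Pool.Agent.Lib.MP_7ac902_al.Z.RightNil
import Pool.Agent.Lib.MP_7ac902_al.Z.Higgins

set_option autoImplicit false

namespace Pool.Agent.Lib.MP_7ac902_al.Z

section AnnNil

variable {A : Type*} [Ring A] [Algebra ℚ A]

/-- The chain `K₀ = K`, `K_{i+1} = {u ∈ K : [u, L] ⊆ K_i}`. -/
def annSeq (L K : Submodule ℚ A) : ℕ → Submodule ℚ A
  | 0 => K
  | i + 1 =>
    { carrier := {u | u ∈ K ∧ ∀ x ∈ L, u * x - x * u ∈ annSeq L K i}
      zero_mem' := ⟨K.zero_mem, fun x _ => by simp⟩
      add_mem' := fun {a b} ha hb => ⟨K.add_mem ha.1 hb.1, fun x hx => by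
        have h := (annSeq L K i).add_mem (ha.2 x hx) (hb.2 x hx)
        have e : (a + b) * x - x * (a + b) = (a * x - x * a) + (b * x - x * b) := by noncomm_ring
        rw [e]; exact h⟩
      smul_mem' := fun c a ha => ⟨K.smul_mem c ha.1, fun x hx => by
        have h := (annSeq L K i).smul_mem c (ha.2 x hx)
        rw [smul_sub] at h
        rw [smul_mul_assoc, mul_smul_comm]; exact h⟩ }

theorem mem_annSeq_succ {L K : Submodule ℚ A} {i : ℕ} {u : A} :
    u ∈ annSeq L K (i + 1) ↔ u ∈ K ∧ ∀ x ∈ L, u * x - x * u ∈ annSeq L K i := Iff.rfl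

theorem annSeq_le (L K : Submodule ℚ A) (i : ℕ) : annSeq L K i ≤ K := by
  cases i with
  | zero => exact le_rfl
  | succ i => exact fun u hu => hu.1

theorem annSeq_succ_le (L K : Submodule ℚ A) (i : ℕ) : annSeq L K (i + 1) ≤ annSeq L K i := by
  induction i with
  | zero => exact fun u hu => hu.1
  | succ i ih => exact fun u hu => ⟨hu.1, fun x hx => ih (hu.2 x hx)⟩

theorem annSeq_anti (L K : Submodule ℚ A) {i m : ℕ} (h : i ≤ m) :
    annSeq L K m ≤ annSeq L K i := by
  induction m, h using Nat.le_induction with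
  | base => exact le_rfl
  | succ m _ ih => exact (annSeq_succ_le L K m).trans ih

theorem annSeq_bracket {L K : Submodule ℚ A} (hL : LieClosed L) (hKL : K ≤ L) (hK : LieClosed K)
    (n : ℕ) : ∀ i m : ℕ, i + m = n → ∀ u ∈ annSeq L K i, ∀ v ∈ annSeq L K m,
      u * v - v * u ∈ annSeq L K n := by
  induction n with
  | zero =>
    intro i m him u hu v hv
    exact hK u (annSeq_le _ _ _ hu) v (annSeq_le _ _ _ hv)
  | succ n ih =>
    intro i m him u hu v hv
    refine ⟨hK u (annSeq_le _ _ _ hu) v (annSeq_le _ _ _ hv), fun x hx => ?_⟩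
    have e : (u * v - v * u) * x - x * (u * v - v * u) =
        ((u * x - x * u) * v - v * (u * x - x * u)) + (u * (v * x - x * v) - (v * x - x * v) * u) := by
      noncomm_ring
    rw [e]
    have key1 : (u * x - x * u) * v - v * (u * x - x * u) ∈ annSeq L K n := by
      cases i with
      | zero =>
        have hm : m = n + 1 := by omega
        subst hm
        have h1 : u * x - x * u ∈ L := hL u (hKL (annSeq_le _ _ _ hu)) x hx
        have h2 := (annSeq L K n).neg_mem (hv.2 _ h1)
        have e2 : (u * x - x * u) * v - v * (u * x - x * u) =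
          -(v * (u * x - x * u) - (u * x - x * u) * v) := by noncomm_ring
        rw [e2]; exact h2
      | succ i => exact ih i m (by omega) _ (hu.2 x hx) _ hv
    have key2 : u * (v * x - x * v) - (v * x - x * v) * u ∈ annSeq L K n := by
      cases m with
      | zero =>
        have hm : i = n + 1 := by omega
        subst hm
        have h1 : v * x - x * v ∈ L := hL v (hKL (annSeq_le _ _ _ hv)) x hx
        exact hu.2 _ h1
      | succ m => exact ih i m (by omega) _ hu _ (hv.2 x hx)
    exact (annSeq L K n).add_mem key1 key2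

theorem annSeq_kill {L K : Submodule ℚ A} {s : A} (hK : ∀ u ∈ K, s * u = 0) (k : ℕ) :
    ∀ i : ℕ, k ≤ i → ∀ u ∈ annSeq L K i, ∀ z ∈ L ^ k, s * z * u = 0 := by
  induction k with
  | zero =>
    intro i _ u hu z hz
    rw [pow_zero, Submodule.mem_one] at hz
    obtain ⟨c, rfl⟩ := hz
    have h := hK u (annSeq_le _ _ _ hu)
    rw [← Algebra.commutes, mul_assoc, h, mul_zero]
  | succ k ih =>
    intro i hki u hu z hz
    obtain ⟨i, rfl⟩ : ∃ i', i = i' + 1 := ⟨i - 1, by omega⟩
    rw [pow_succ] at hz
    refine Submodule.mul_induction_on hz ?_ ?_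
    · intro a ha l hl
      have h1 := ih (i + 1) (by omega) u hu a ha
      have h2 := ih i (by omega) _ (hu.2 l hl) a ha
      have e : s * (a * l) * u = s * a * u * l - s * a * (u * l - l * u) := by noncomm_ring
      rw [e, h1, h2]; simp
    · intro a b ha hb
      rw [mul_add, add_mul, ha, hb, add_zero]

theorem prod_sub_prod_mem {L : Submodule ℚ A} (hL : LieClosed L) {l₁ l₂ : List A}
    (h : l₁.Perm l₂) : (∀ x ∈ l₁, x ∈ L) → l₁.prod - l₂.prod ∈ L ^ (l₁.length - 1) := by
  induction h with
  | nil => intro _; simp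
  | @cons x l₁ l₂ hp ih =>
    intro hx
    have hx' : x ∈ L := hx x (by simp)
    have h1 := ih (fun y hy => hx y (by simp [hy]))
    rcases l₁ with _ | ⟨y, t⟩
    · have : l₂ = [] := by simpa using hp.symm
      subst this; simp
    · have e : (x :: y :: t).prod - (x :: l₂).prod = x * ((y :: t).prod - l₂.prod) := by
        simp only [List.prod_cons]; noncomm_ring
      rw [e]
      have e2 : (x :: y :: t).length - 1 = ((y :: t).length - 1) + 1 := by simp
      rw [e2, pow_succ']
      exact Submodule.mul_mem_mul hx' h1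
  | swap x y l =>
    intro hx
    have h1 : y ∈ L := hx y (by simp)
    have h2 : x ∈ L := hx x (by simp)
    have h3 : ∀ z ∈ l, z ∈ L := fun z hz => hx z (by simp [hz])
    have e : (y :: x :: l).prod - (x :: y :: l).prod = (y * x - x * y) * l.prod := by
      simp only [List.prod_cons]; noncomm_ring
    rw [e]
    have e2 : (y :: x :: l).length - 1 = l.length + 1 := by simp
    rw [e2, pow_succ']
    refine Submodule.mul_mem_mul (hL y h1 x h2) ?_
    clear e e2 hx
    induction l with
    | nil => exact Submodule.one_le.mp (by simp)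
    | cons z l ih =>
      rw [List.prod_cons, List.length_cons, pow_succ']
      exact Submodule.mul_mem_mul (h3 z (by simp)) (ih (fun w hw => h3 w (by simp [hw])))
  | trans hp₁ hp₂ ih₁ ih₂ =>
    intro hx
    have h1 := ih₁ hx
    have h2 := ih₂ (fun y hy => hx y (hp₁.mem_iff.mpr hy))
    rw [← hp₁.length_eq] at h2
    have := Submodule.add_mem _ h1 h2
    simpa using this

theorem annSeq_kill_all {L K : Submodule ℚ A} (hL : LieClosed L) {j : ℕ} (hj : 2 ≤ j)
    (hidx : Index L j) {s : A} (hK : ∀ u ∈ K, s * u = 0) {u : A}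
    (hu : u ∈ annSeq L K (j - 1)) (k : ℕ) : ∀ z ∈ L ^ k, s * z * u = 0 := by
  induction k using Nat.strong_induction_on with
  | _ k ih =>
    by_cases hk : k ≤ j - 1
    · exact annSeq_kill hK k (j - 1) hk u hu
    · obtain ⟨k', rfl⟩ : ∃ k', k = j + k' := ⟨k - j, by omega⟩
      intro z hz
      rw [pow_add] at hz
      refine Submodule.mul_induction_on hz ?_ ?_
      · intro p hp w hw
        rw [Submodule.pow_eq_span_pow_set] at hp
        refine Submodule.span_induction ?_ ?_ ?_ ?_ hp
        · intro x hx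
          rw [Set.mem_pow] at hx
          obtain ⟨f, rfl⟩ := hx
          have hsum := sum_perm_prod L hidx (fun i => (f i : A)) (fun i => (f i).2)
          have heq : ∀ σ : Equiv.Perm (Fin j),
              s * ((List.ofFn ((fun i => (f i : A)) ∘ σ)).prod * w) * u =
                s * ((List.ofFn (fun i => (f i : A))).prod * w) * u := by
            intro σ
            have hp := prod_sub_prod_mem hL (σ.ofFn_comp_perm (fun i => (f i : A)))
              (by intro x hx; rw [List.mem_ofFn] at hx; obtain ⟨i, rfl⟩ := hx; exact (f (σ i)).2)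
            rw [List.length_ofFn] at hp
            have hmem := Submodule.mul_mem_mul hp hw
            rw [← pow_add] at hmem
            have := ih _ (by omega) _ hmem
            rw [sub_mul, mul_sub, sub_mul, sub_eq_zero] at this
            exact this
          have h0 : ∑ σ : Equiv.Perm (Fin j),
              s * ((List.ofFn ((fun i => (f i : A)) ∘ σ)).prod * w) * u = 0 := by
            rw [← Finset.sum_mul, ← Finset.mul_sum, ← Finset.sum_mul, hsum]
            simp
          rw [Finset.sum_congr rfl (fun σ _ => heq σ), Finset.sum_const, Finset.card_univ] at h0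
          rw [← Nat.cast_smul_eq_nsmul ℚ] at h0
          refine (smul_eq_zero.mp h0).resolve_left ?_
          exact_mod_cast Fintype.card_ne_zero
        · simp
        · intro a b _ _ ha hb
          rw [add_mul, mul_add, add_mul, ha, hb, add_zero]
        · intro c a _ ha
          rw [smul_mul_assoc, mul_smul_comm, smul_mul_assoc, ha, smul_zero]
      · intro a b ha hb
        rw [mul_add, add_mul, ha, hb, add_zero]

theorem annSeq_eq_bot {L K : Submodule ℚ A} (hL : LieClosed L) {j : ℕ} (hj : 2 ≤ j)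
    (hidx : Index L j) (hgen : Algebra.adjoin ℚ (L : Set A) = ⊤)
    (hprime : ∀ s u : A, (∀ a, s * a * u = 0) → s = 0 ∨ u = 0) {s : A} (hs : s ≠ 0)
    (hK : ∀ u ∈ K, s * u = 0) : annSeq L K (j - 1) = ⊥ := by
  rw [eq_bot_iff]
  intro u hu
  rw [Submodule.mem_bot]
  refine (hprime s u fun a => ?_).resolve_left hs
  have ha : a ∈ Submodule.span ℚ (Submonoid.closure (L : Set A) : Set A) := by
    rw [← Algebra.adjoin_eq_span, hgen]; trivial
  refine Submodule.span_induction ?_ ?_ ?_ ?_ ha
  · intro x hx
    obtain ⟨l, hl, rfl⟩ := Submonoid.exists_list_of_mem_closure hx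
    have : l.prod ∈ L ^ l.length := by
      clear hx
      induction l with
      | nil => exact Submodule.one_le.mp (by simp)
      | cons z l ih =>
        rw [List.prod_cons, List.length_cons, pow_succ']
        exact Submodule.mul_mem_mul (hl z (by simp)) (ih (fun w hw => hl w (by simp [hw])))
    exact annSeq_kill_all hL hj hidx hK hu _ _ this
  · simp
  · intro a b _ _ ha hb
    rw [mul_add, add_mul, ha, hb, add_zero]
  · intro c a _ ha
    rw [mul_smul_comm, smul_mul_assoc, ha, smul_zero]

/-- The chain `γ₀ = K`, `γ_{i+1} = [γ_i, K]`. -/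
def gamSeq (K : Submodule ℚ A) : ℕ → Submodule ℚ A
  | 0 => K
  | i + 1 => Submodule.span ℚ {z | ∃ x ∈ gamSeq K i, ∃ y ∈ K, z = x * y - y * x}

theorem gamSeq_succ_le {K : Submodule ℚ A} (hK : LieClosed K) (i : ℕ) :
    gamSeq K (i + 1) ≤ gamSeq K i := by
  induction i with
  | zero =>
    refine Submodule.span_le.mpr ?_
    rintro z ⟨x, hx, y, hy, rfl⟩
    exact hK x hx y hy
  | succ i ih =>
    refine Submodule.span_le.mpr ?_
    rintro z ⟨x, hx, y, hy, rfl⟩
    exact Submodule.subset_span ⟨x, ih hx, y, hy, rfl⟩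

theorem gamSeq_le {K : Submodule ℚ A} (hK : LieClosed K) (i : ℕ) : gamSeq K i ≤ K := by
  induction i with
  | zero => exact le_rfl
  | succ i ih => exact (gamSeq_succ_le hK i).trans ih

theorem gamSeq_le_pow (K : Submodule ℚ A) (i : ℕ) : gamSeq K i ≤ K ^ (i + 1) := by
  induction i with
  | zero => simp [gamSeq]
  | succ i ih =>
    refine Submodule.span_le.mpr ?_
    rintro z ⟨x, hx, y, hy, rfl⟩
    refine Submodule.sub_mem _ ?_ ?_
    · rw [pow_succ]; exact Submodule.mul_mem_mul (ih hx) hy
    · rw [pow_succ']; exact Submodule.mul_mem_mul hy (ih hx)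

theorem annSeq_pow_eq_bot {L K : Submodule ℚ A} (hL : LieClosed L) (hKL : K ≤ L)
    (hK : LieClosed K) {j : ℕ} (hidx : Index L j) {D : ℕ} (h : annSeq L K (D + 1) = ⊥) (i : ℕ) :
    i ≤ D → annSeq L K (D - i + 1) ^ (j ^ i) = ⊥ := by
  induction i with
  | zero => intro _; simpa using h
  | succ i ih =>
    intro hi
    have h1 := ih (by omega)
    rw [pow_succ']
    refine higgins_step _ (annSeq L K (D - i + 1)) ?_ ?_ ?_ h1
    · exact annSeq_anti _ _ (by omega)
    · intro x hx y hy
      exact annSeq_anti _ _ (by omega)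
        (annSeq_bracket hL hKL hK _ (D - (i + 1) + 1) (D - (i + 1) + 1) rfl x hx y hy)
    · intro z hz
      exact hidx z (hKL (annSeq_le _ _ _ hz))

theorem gamSeq_pow_eq_bot {K : Submodule ℚ A} (hK : LieClosed K) {j : ℕ} (hidx : Index K j)
    {N q : ℕ} (h : gamSeq K N ^ q = ⊥) (i : ℕ) : i ≤ N → gamSeq K (N - i) ^ (j ^ i * q) = ⊥ := by
  induction i with
  | zero => intro _; simpa using h
  | succ i ih =>
    intro hi
    have h1 := ih (by omega)
    rw [pow_succ', mul_assoc]
    refine higgins_step _ (gamSeq K (N - i)) ?_ ?_ ?_ h1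
    · have e : N - i = N - (i + 1) + 1 := by omega
      rw [e]; exact gamSeq_succ_le hK _
    · intro x hx y hy
      have e : N - i = N - (i + 1) + 1 := by omega
      rw [e]
      exact Submodule.subset_span ⟨x, hx, y, gamSeq_le hK _ hy, rfl⟩
    · intro z hz
      exact hidx z (gamSeq_le hK _ hz)

end AnnNil

/-- The annihilators `K^s = {u ∈ L : s u = 0}` of nonzero elements of a prime pair of index `j` have
uniformly nilpotent associative envelope. -/
theorem annihilator_nilpotent {j N : ℕ} (hj : 2 ≤ j) (hP : NilPair (j - 1) N) :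
    ∃ m : ℕ, ∀ {A : Type} [Ring A] [Algebra ℚ A] (L : Submodule ℚ A), LieClosed L → Index L j →
      Algebra.adjoin ℚ (L : Set A) = ⊤ → (∀ s u : A, (∀ a, s * a * u = 0) → s = 0 ∨ u = 0) →
      ∀ s : A, s ≠ 0 → ∀ K : Submodule ℚ A, (∀ u, u ∈ K ↔ u ∈ L ∧ s * u = 0) → K ^ m = ⊥ := by
  refine ⟨j ^ N * j ^ (j - 2), ?_⟩
  intro A _ _ L hL hidx hgen hprime s hs K hK
  have hKL : K ≤ L := fun u hu => ((hK u).1 hu).1
  have hKs : ∀ u ∈ K, s * u = 0 := fun u hu => ((hK u).1 hu).2
  have hKc : LieClosed K := by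
    intro x hx y hy
    refine (hK _).2 ⟨hL x (hKL hx) y (hKL hy), ?_⟩
    rw [mul_sub, ← mul_assoc, ← mul_assoc, hKs x hx, hKs y hy]; simp
  have hidxK : Index K j := fun z hz => hidx z (hKL hz)
  have hbot : annSeq L K (j - 2 + 1) = ⊥ := by
    have e : j - 2 + 1 = j - 1 := by omega
    rw [e]; exact annSeq_eq_bot hL hj hidx hgen hprime hs hKs
  have h1 := annSeq_pow_eq_bot hL hKL hKc hidx hbot (j - 2) le_rfl
  rw [Nat.sub_self, zero_add] at h1
  -- products of `N` elements of `K` are killed by `s x`
  have hkill : ∀ x ∈ L, ∀ z ∈ K ^ N, s * x * z = 0 := by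
    intro x hx z hz
    rw [Submodule.pow_eq_span_pow_set] at hz
    refine Submodule.span_induction ?_ ?_ ?_ ?_ hz
    · intro y hy
      rw [Set.mem_pow] at hy
      obtain ⟨f, rfl⟩ := hy
      exact right_nil hj hP L hL hidx s x hx (fun i => (f i : A)) (fun i => hKL (f i).2)
        (fun i => hKs _ (f i).2)
    · simp
    · intro a b _ _ ha hb
      rw [mul_add, ha, hb, add_zero]
    · intro c a _ ha
      rw [mul_smul_comm, ha, smul_zero]
  have hle : gamSeq K N ≤ annSeq L K 1 := by
    intro z hz
    have hzK := gamSeq_le hKc N hz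
    refine ⟨hzK, fun x hx => ?_⟩
    refine (hK _).2 ⟨hL z (hKL hzK) x hx, ?_⟩
    have h2 : s * x * z = 0 := by
      have h3 := gamSeq_le_pow K N hz
      rw [pow_succ] at h3
      refine Submodule.mul_induction_on h3 ?_ ?_
      · intro a ha b _
        rw [← mul_assoc, hkill x hx a ha, zero_mul]
      · intro a b ha hb
        rw [mul_add, ha, hb, add_zero]
    rw [mul_sub, ← mul_assoc, ← mul_assoc, hKs z hzK, h2]; simp
  have h2 : gamSeq K N ^ (j ^ (j - 2)) = ⊥ := by
    rw [eq_bot_iff, ← h1]
    exact pow_le_pow_left' hle _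
  have h3 := gamSeq_pow_eq_bot hKc hidxK h2 N le_rfl
  rw [Nat.sub_self] at h3
  exact h3

end Pool.Agent.Lib.MP_7ac902_al.Z
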