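import Pool.Agent.Lib.MP_7ac902_al.Z.Uniform
import Pool.Agent.Lib.MP_7ac902_al.Z.AltGen

set_option autoImplicit false

namespace Pool.Agent.Lib.MP_7ac902_al.Z

open Finset TensorProduct

variable {R : Type} [Ring R] [Algebra ℚ R]

private theorem col_prod_inl {M i c : ℕ} (l : Fin i → R) (v : Fin M → R) (χ : Fin M → Fin c)
    (b : List (Fin i)) :
    (b.map fun p => gen l v χ (Sum.inl p)).prod = (b.map l).prod ⊗ₜ[ℚ] (1 : Lam M) := by
  induction b with
  | nil => simp [Algebra.TensorProduct.one_def]
  | cons x b ih =>
    rw [List.map_cons, List.prod_cons, ih, List.map_cons, List.prod_cons]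
    show (l x ⊗ₜ[ℚ] (1 : Lam M)) * _ = _
    rw [Algebra.TensorProduct.tmul_mul_tmul, mul_one]

private theorem col_sum_length {α : Type} : ∀ {M : ℕ} (f : Fin M → List α),
    (List.ofFn f).flatten.length = ∑ t, (f t).length := by
  intro M
  induction M with
  | zero => intro f; simp
  | succ M ih =>
    intro f
    rw [List.ofFn_succ, List.flatten_cons, List.length_append, ih, Fin.sum_univ_succ]

private theorem col_prod_flatten {A : Type} [Ring A] {α : Type} (g : α → A) :
    ∀ {M : ℕ} (f : Fin M → List α),
    ((List.ofFn f).flatten.map g).prod = (List.ofFn fun t => ((f t).map g).prod).prod := by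
  intro M
  induction M with
  | zero => intro f; simp
  | succ M ih =>
    intro f
    rw [List.ofFn_succ, List.flatten_cons, List.map_append, List.prod_append, ih, List.ofFn_succ,
      List.prod_cons]

/-- The column condition holds. -/
theorem colHyp {j k n : ℕ} (L : Submodule ℚ R) (hL : LieClosed L) (hidx : Index L j)
    (hE : EProp L k n) (i c : ℕ) : ∃ N, ColHyp L i c N := by
  obtain ⟨N, hN⟩ := uniform L hL hidx hE i c
  refine ⟨N, ?_⟩
  intro l hl M v hv χ a hlen
  apply eq_zero_of_tmul_top (M := M)
  rw [← alt_gen l v χ (fun t => ((a t).map l).prod)]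
  set w : List (Fin i ⊕ Fin c) := (a 0).map Sum.inl ++
    (List.ofFn fun t : Fin M => Sum.inr (χ t) :: (a t.succ).map Sum.inl).flatten with hw
  have hwl : N ≤ w.length := by
    rw [hw, List.length_append, col_sum_length, List.length_map]
    simp only [List.length_cons, List.length_map]
    rw [Finset.sum_add_distrib]
    rw [Fin.sum_univ_succ] at hlen
    simp only [Finset.sum_const, Finset.card_univ, Fintype.card_fin, smul_eq_mul, mul_one]
    omega
  have h0 := hN M l hl v hv χ w hwl
  rw [hw, List.map_append, List.prod_append, col_prod_flatten] at h0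
  simp only [List.map_cons, List.prod_cons, List.map_map] at h0
  have e1 : ∀ b : List (Fin i), (List.map (gen l v χ ∘ Sum.inl) b).prod =
      (b.map l).prod ⊗ₜ[ℚ] (1 : Lam M) := fun b => col_prod_inl l v χ b
  simp only [e1] at h0
  exact h0

end Pool.Agent.Lib.MP_7ac902_al.Z
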