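import Mathlib

/-!
# Zelmanov's theorem in characteristic zero: definitions

A *pair* is a `ℚ`-algebra `A` with a subspace `L` closed under commutators.  It has index `j` if
`z ^ j = 0` for all `z ∈ L`.  `NilPair j N` says that in every pair of index `j` (in `Type`) all
products of `N` elements of `L` vanish.
-/

set_option autoImplicit false

namespace Pool.Agent.Lib.MP_7ac902_al.Z

open Finset

section Defs

variable {A : Type*} [Ring A] [Algebra ℚ A]

/-- `L` is closed under commutators. -/
def LieClosed (L : Submodule ℚ A) : Prop := ∀ x ∈ L, ∀ y ∈ L, x * y - y * x ∈ L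

/-- Every element of `L` has `j`-th power zero. -/
def Index (L : Submodule ℚ A) (j : ℕ) : Prop := ∀ z ∈ L, z ^ j = 0

/-- The two-sided ideal generated by `a` has `n`-th power zero (elementwise form). -/
def NilAt (a : A) (n : ℕ) : Prop := ∀ c : Fin n → A, (List.ofFn fun i => a * c i).prod = 0

/-- All products of `k` elements of `L` generate ideals with `n`-th power zero. -/
def EProp (L : Submodule ℚ A) (k n : ℕ) : Prop :=
  ∀ l : Fin k → A, (∀ i, l i ∈ L) → NilAt (List.ofFn l).prod n

/-- The product `a₀ w₀ a₁ w₁ ⋯ w_{M-1} a_M`. -/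
def alt {M : ℕ} (a : Fin (M + 1) → A) (w : Fin M → A) : A :=
  a 0 * (List.ofFn fun t : Fin M => w t * a t.succ).prod

end Defs

/-- The permutations of `Fin M` that fix all points outside `S`. -/
def suppPerm {M : ℕ} (S : Finset (Fin M)) : Finset (Equiv.Perm (Fin M)) :=
  univ.filter fun τ => ∀ p, p ∉ S → τ p = p

/-- The permutations of `Fin M` that preserve the colouring `χ`. -/
def colorStab {M c : ℕ} (χ : Fin M → Fin c) : Finset (Equiv.Perm (Fin M)) :=
  univ.filter fun τ => ∀ p, χ (τ p) = χ p

/-- The column condition: words in `l₀, …, l_{i-1}` and in `c` odd variables vanish from length `N`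
on, written out without odd variables. -/
def ColHyp {A : Type*} [Ring A] [Algebra ℚ A] (L : Submodule ℚ A) (i c N : ℕ) : Prop :=
  ∀ (l : Fin i → A), (∀ p, l p ∈ L) → ∀ (M : ℕ) (v : Fin M → A), (∀ p, v p ∈ L) →
    ∀ (χ : Fin M → Fin c) (a : Fin (M + 1) → List (Fin i)),
      N ≤ M + ∑ t, (a t).length →
      ∑ τ ∈ colorStab χ,
        ((Equiv.Perm.sign τ : ℤ)) • alt (fun t => ((a t).map l).prod) (v ∘ τ) = 0

/-- `P(j)` with bound `N`: in every pair of index `j` all products of `N` elements of `L` vanish. -/
def NilPair (j N : ℕ) : Prop :=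
  ∀ (A : Type) [Ring A] [Algebra ℚ A] (L : Submodule ℚ A), LieClosed L → Index L j → L ^ N = ⊥

end Pool.Agent.Lib.MP_7ac902_al.Z
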