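import Pool.Agent.Lib.MP_7ac902_al.Z.EStep

set_option autoImplicit false

namespace Pool.Agent.Lib.MP_7ac902_al.Z

/-- `E(1)` implies nilpotency. -/
theorem eFinal {A : Type} [Ring A] [Algebra ℚ A] {n N : ℕ} (hn : 1 ≤ n) (L : Submodule ℚ A)
    (hE : EProp L 1 n) (hC : ColHyp L 0 (n - 1) N) : L ^ N = ⊥ := by
  classical
  have hNil : ∀ x ∈ L, NilAt x n := by
    intro x hx
    simpa using hE (fun _ => x) (fun _ => hx)
  have halt : ∀ w : Fin N → A, alt (fun _ : Fin (N + 1) => (1 : A)) w = (List.ofFn w).prod := by
    intro w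
    simp [alt]
  have key : ∀ v : Fin N → A, (∀ p, v p ∈ L) → (List.ofFn v).prod = 0 := by
    intro v hv
    have h := perm_function_eq_zero (M := N) (a := n) hn (W := A)
      (fun σ => alt (fun _ : Fin (N + 1) => (1 : A)) (v ∘ σ)) ?_ ?_ 1
    · rw [halt] at h
      simpa using h
    · intro σ S hS
      refine sum_suppPerm_alt L _ S (v ∘ σ) (fun p => hv _) (fun v' hv' => ?_)
      rw [halt]
      refine prod_eq_zero_of_countP (hNil v' hv') _ (fun x => x = v')
        (fun x _ hx => ⟨1, by rw [hx, mul_one]⟩) ?_
      rw [List.ofFn_eq_map, List.countP_map, ← hS]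
      have h2 : (List.finRange N).countP (· ∈ S) = S.card := by
        rw [List.countP_eq_length_filter]
        have h3 : ((List.finRange N).filter (· ∈ S)).toFinset = S := by
          ext p; simp
        rw [← List.toFinset_card_of_nodup ((List.nodup_finRange N).filter _), h3]
      rw [← h2]
      apply List.countP_mono_left
      intro p _ hp
      have : p ∈ S := by simpa using hp
      simp [this]
    · intro σ χ
      have h := hC Fin.elim0 (fun p => p.elim0) N (v ∘ σ) (fun p => hv _) χ (fun _ => [])
        (by simp)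
      simp only [List.map_nil, List.prod_nil] at h
      exact h
  rw [Submodule.pow_eq_span_pow_set, Submodule.span_eq_bot]
  intro x hx
  rw [Set.mem_pow] at hx
  obtain ⟨f, rfl⟩ := hx
  exact key (fun t => ((f t : (L : Set A)) : A)) (fun t => (f t).2)

end Pool.Agent.Lib.MP_7ac902_al.Z
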