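import Pool.Agent.Lib.MP_7ac902_al.Z.Defs

set_option autoImplicit false

namespace Pool.Agent.Lib.MP_7ac902_al.Z

open Finset

/-- the first moved point is moved upwards -/
private theorem SN_first {M : ℕ} {τ : Equiv.Perm (Fin M)} (hτ : τ ≠ 1) :
    ∃ p, p < τ p ∧ ∀ q < p, τ q = q := by
  have hne : (univ.filter fun p => τ p ≠ p).Nonempty := by
    by_contra hn
    rw [not_nonempty_iff_eq_empty, filter_eq_empty_iff] at hn
    apply hτ
    ext p
    have := hn (mem_univ p)
    simp only [ne_eq, not_not] at this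
    rw [this]
    rfl
  obtain ⟨p, hp1, hp2⟩ := exists_min_image _ (fun p => p) hne
  rw [mem_filter] at hp1
  have hq : ∀ q < p, τ q = q := by
    intro q hq
    by_contra h
    have := hp2 q (mem_filter.2 ⟨mem_univ _, h⟩)
    exact absurd this (not_le.2 hq)
  refine ⟨p, ?_, hq⟩
  rcases lt_trichotomy (τ p) p with h | h | h
  · have := hq _ h
    exact absurd (τ.injective this) hp1.2
  · exact absurd h hp1.2
  · exact h

private def SN_lx {M : ℕ} (σ : Equiv.Perm (Fin M)) : Lex (Fin M → Fin M) := toLex (⇑σ)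

private theorem SN_lx_inj {M : ℕ} {σ τ : Equiv.Perm (Fin M)} (h : SN_lx σ = SN_lx τ) : σ = τ := by
  unfold SN_lx at h
  have := toLex.injective h
  exact Equiv.coe_fn_injective this

private theorem SN_lx_lt {M : ℕ} {σ τ : Equiv.Perm (Fin M)} {p : Fin M} (h1 : σ p < τ p)
    (h2 : ∀ q < p, σ q = τ q) : SN_lx σ < SN_lx τ :=
  ⟨p, h2, h1⟩

/-- a permutation which is decreasing on `S` is larger than its permutations on `S` -/
private theorem SN_dec {M : ℕ} (σ : Equiv.Perm (Fin M)) (S : Finset (Fin M))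
    (hS : StrictAntiOn σ (S : Set (Fin M))) {τ : Equiv.Perm (Fin M)} (hτ : τ ∈ suppPerm S)
    (hτ1 : τ ≠ 1) : SN_lx (σ * τ) < SN_lx σ := by
  obtain ⟨p, hp1, hp2⟩ := SN_first hτ1
  have hτ' : ∀ p, p ∉ S → τ p = p := (mem_filter.1 hτ).2
  have hpS : p ∈ S := by
    by_contra h
    have := hτ' p h
    rw [this] at hp1
    exact lt_irrefl _ hp1
  have hτS : τ p ∈ S := by
    by_contra h
    have := hτ' _ h
    have := τ.injective this
    rw [this] at hp1
    exact lt_irrefl _ hp1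
  refine SN_lx_lt (p := p) ?_ ?_
  · exact hS (by exact_mod_cast hpS) (by exact_mod_cast hτS) hp1
  · intro q hq
    show σ (τ q) = σ q
    rw [hp2 q hq]

/-- a permutation which is increasing on the colour classes is minimal in its coset -/
private theorem SN_inc {M c : ℕ} (σ : Equiv.Perm (Fin M)) (χ : Fin M → Fin c)
    (hχ : ∀ p q, p < q → χ p = χ q → σ p < σ q) {τ : Equiv.Perm (Fin M)}
    (hτ : τ ∈ colorStab χ) (hτ1 : τ ≠ 1) : SN_lx σ < SN_lx (σ * τ) := by
  obtain ⟨p, hp1, hp2⟩ := SN_first hτ1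
  have hτ' : ∀ p, χ (τ p) = χ p := (mem_filter.1 hτ).2
  refine SN_lx_lt (p := p) ?_ ?_
  · exact hχ p (τ p) hp1 (hτ' p).symm
  · intro q hq
    show σ q = σ (τ q)
    rw [hp2 q hq]

/-- a permutation without decreasing subsequences of length `a` has a colouring with `a - 1`
colours such that it is increasing on the colour classes -/
private theorem SN_color {M a : ℕ} (σ : Equiv.Perm (Fin M))
    (hσ : ∀ S : Finset (Fin M), S.card = a → ¬ StrictAntiOn σ (S : Set (Fin M))) :
    ∃ χ : Fin M → Fin (a - 1), ∀ p q, p < q → χ p = χ q → σ p < σ q := by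
  classical
  let F : Fin M → Finset (Finset (Fin M)) := fun p =>
    univ.filter fun S => p ∈ S ∧ (∀ q ∈ S, q ≤ p) ∧ StrictAntiOn σ (S : Set (Fin M))
  have hF : ∀ p, {p} ∈ F p := by
    intro p
    simp only [F, mem_filter, mem_univ, true_and, mem_singleton, forall_eq, le_refl]
    intro x hx y hy hxy
    simp at hx hy
    rw [hx, hy] at hxy
    exact absurd hxy (lt_irrefl _)
  let ℓ : Fin M → ℕ := fun p => (F p).sup card
  have h1 : ∀ p, 1 ≤ ℓ p := by
    intro p
    have := le_sup (f := card) (hF p)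
    rw [card_singleton] at this
    exact this
  have hlt : ∀ S : Finset (Fin M), StrictAntiOn σ (S : Set (Fin M)) → S.card < a := by
    intro S hS
    by_contra h
    obtain ⟨T, hT1, hT2⟩ := exists_subset_card_eq (not_lt.1 h)
    exact hσ T hT2 (hS.mono (by exact_mod_cast hT1))
  have h2 : ∀ p, ℓ p < a := by
    intro p
    obtain ⟨S, hS1, hS2⟩ := exists_mem_eq_sup (F p) ⟨_, hF p⟩ card
    show (F p).sup card < a
    rw [hS2]
    exact hlt S (mem_filter.1 hS1).2.2.2
  refine ⟨fun p => ⟨ℓ p - 1, by have := h1 p; have := h2 p; omega⟩, ?_⟩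
  intro p q hpq hχ
  have hχ' : ℓ p = ℓ q := by
    have := congrArg Fin.val hχ
    simp only at this
    have := h1 p
    have := h1 q
    omega
  by_contra hn
  have hne : σ p ≠ σ q := fun h => (ne_of_lt hpq) (σ.injective h)
  have hgt : σ q < σ p := lt_of_le_of_ne (not_lt.1 hn) hne.symm
  obtain ⟨S, hS1, hS2⟩ := exists_mem_eq_sup (F p) ⟨_, hF p⟩ card
  obtain ⟨hS3, hS4, hS5⟩ := (mem_filter.1 hS1).2
  have hqS : q ∉ S := fun h => absurd (hS4 q h) (not_le.2 hpq)
  have hmem : insert q S ∈ F q := by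
    refine mem_filter.2 ⟨mem_univ _, mem_insert_self _ _, ?_, ?_⟩
    · intro x hx
      rcases mem_insert.1 hx with rfl | hx
      · exact le_rfl
      · exact (hS4 x hx).trans hpq.le
    · intro x hx y hy hxy
      rw [coe_insert, Set.mem_insert_iff] at hx hy
      rcases hy with rfl | hy
      · rcases hx with rfl | hx
        · exact absurd hxy (lt_irrefl _)
        · have hxS : x ∈ S := by exact_mod_cast hx
          rcases (hS4 x hxS).lt_or_eq with h | h
          · exact hgt.trans (hS5 hx (by exact_mod_cast hS3) h)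
          · rw [h]
            exact hgt
      · rcases hx with rfl | hx
        · have hyS : y ∈ S := by exact_mod_cast hy
          exact absurd ((hS4 y hyS).trans_lt hpq) (not_lt.2 hxy.le)
        · exact hS5 hx hy hxy
  have := le_sup (f := card) hmem
  rw [card_insert_of_notMem hqS] at this
  have h3 : ℓ p = S.card := hS2
  have h4 : ℓ q = (F q).sup card := rfl
  omega

private def SN_ind {M c : ℕ} (σ₀ : Equiv.Perm (Fin M)) (χ : Fin M → Fin c)
    (σ : Equiv.Perm (Fin M)) : ℚ :=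
  if σ₀⁻¹ * σ ∈ colorStab χ then 1 else 0

private def SN_V {M : ℕ} (a : ℕ) (ψ : Equiv.Perm (Fin M) → ℚ) : Prop :=
  ∀ (σ : Equiv.Perm (Fin M)) (S : Finset (Fin M)), S.card = a →
    ∑ τ ∈ suppPerm S, ((Equiv.Perm.sign τ : ℤ) : ℚ) * ψ (σ * τ) = 0

private theorem SN_ind_V {M a : ℕ} (ha : 1 ≤ a) (σ₀ : Equiv.Perm (Fin M))
    (χ : Fin M → Fin (a - 1)) : SN_V a (SN_ind σ₀ χ) := by
  intro σ S hS
  obtain ⟨p, hp, q, hq, hpq, hχ⟩ : ∃ p ∈ S, ∃ q ∈ S, p ≠ q ∧ χ p = χ q := by
    apply exists_ne_map_eq_of_card_lt_of_maps_to (t := univ)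
    · rw [card_univ, Fintype.card_fin]
      omega
    · intro x _
      exact mem_coe.2 (mem_univ _)
  have hχs : ∀ x, χ (Equiv.swap p q x) = χ x := by
    intro x
    rcases eq_or_ne x p with rfl | h1
    · rw [Equiv.swap_apply_left, hχ]
    · rcases eq_or_ne x q with rfl | h2
      · rw [Equiv.swap_apply_right, hχ]
      · rw [Equiv.swap_apply_of_ne_of_ne h1 h2]
  have hmem : ∀ τ, τ * Equiv.swap p q ∈ suppPerm S ↔ τ ∈ suppPerm S := by
    intro τ
    unfold suppPerm
    simp only [mem_filter, mem_univ, true_and, Equiv.Perm.mul_apply]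
    have hsw : ∀ x, x ∉ S → Equiv.swap p q x = x := by
      intro x hx
      apply Equiv.swap_apply_of_ne_of_ne
      · rintro rfl
        exact hx hp
      · rintro rfl
        exact hx hq
    constructor
    · intro h x hx
      have := h x hx
      rwa [hsw x hx] at this
    · intro h x hx
      rw [hsw x hx]
      exact h x hx
  have hst : ∀ τ, σ₀⁻¹ * (σ * (τ * Equiv.swap p q)) ∈ colorStab χ ↔
      σ₀⁻¹ * (σ * τ) ∈ colorStab χ := by
    intro τ
    unfold colorStab
    simp only [mem_filter, mem_univ, true_and, Equiv.Perm.mul_apply]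
    constructor
    · intro h x
      have := h (Equiv.swap p q x)
      rw [Equiv.swap_apply_self, hχs] at this
      exact this
    · intro h x
      rw [h, hχs]
  have key : ∑ τ ∈ suppPerm S, ((Equiv.Perm.sign τ : ℤ) : ℚ) * SN_ind σ₀ χ (σ * τ) =
      ∑ τ ∈ suppPerm S, -(((Equiv.Perm.sign τ : ℤ) : ℚ) * SN_ind σ₀ χ (σ * τ)) := by
    apply sum_nbij' (fun τ => τ * Equiv.swap p q) (fun τ => τ * Equiv.swap p q)
    · intro τ hτ
      exact (hmem τ).2 hτ
    · intro τ hτ
      exact (hmem τ).2 hτ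
    · intro τ _
      simp [mul_assoc]
    · intro τ _
      simp [mul_assoc]
    · intro τ _
      unfold SN_ind
      simp only [hst]
      rw [Equiv.Perm.sign_mul, Equiv.Perm.sign_swap hpq]
      split_ifs <;> simp
  rw [sum_neg_distrib] at key
  linarith

private theorem SN_main {M a : ℕ} (ha : 1 ≤ a) (f : Equiv.Perm (Fin M) → ℚ)
    (hf : ∀ (σ₀ : Equiv.Perm (Fin M)) (χ : Fin M → Fin (a - 1)),
      ∑ σ, SN_ind σ₀ χ σ * f σ = 0) :
    ∀ (n : ℕ) (ψ : Equiv.Perm (Fin M) → ℚ), SN_V a ψ →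
      (univ.filter fun σ => ∃ σ', ψ σ' ≠ 0 ∧ SN_lx σ' ≤ SN_lx σ).card ≤ n →
        ∑ σ, ψ σ * f σ = 0 := by
  classical
  intro n
  induction n with
  | zero =>
    intro ψ _ hc
    have h1 : (univ.filter fun σ => ∃ σ', ψ σ' ≠ 0 ∧ SN_lx σ' ≤ SN_lx σ) = ∅ :=
      card_eq_zero.1 (Nat.le_zero.1 hc)
    rw [filter_eq_empty_iff] at h1
    apply sum_eq_zero
    intro σ _
    have h2 : ψ σ = 0 := by
      by_contra h
      exact h1 (mem_univ σ) ⟨σ, h, le_rfl⟩
    rw [h2, zero_mul]
  | succ n ih =>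
    intro ψ hV hc
    by_cases h0 : ∃ σ, ψ σ ≠ 0
    · have hne : (univ.filter fun σ => ψ σ ≠ 0).Nonempty := by
        obtain ⟨σ, hσ⟩ := h0
        exact ⟨σ, mem_filter.2 ⟨mem_univ _, hσ⟩⟩
      obtain ⟨σ, hσ1, hσ2⟩ := exists_min_image _ SN_lx hne
      have hσ0 : ψ σ ≠ 0 := (mem_filter.1 hσ1).2
      have hmin : ∀ σ', SN_lx σ' < SN_lx σ → ψ σ' = 0 := by
        intro σ' h
        by_contra h'
        exact absurd (hσ2 σ' (mem_filter.2 ⟨mem_univ _, h'⟩)) (not_le.2 h)
      have hgood : ∀ S : Finset (Fin M), S.card = a → ¬ StrictAntiOn σ (S : Set (Fin M)) := by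
        intro S hS hanti
        have h1 := hV σ S hS
        have h2 : (1 : Equiv.Perm (Fin M)) ∈ suppPerm S :=
          mem_filter.2 ⟨mem_univ _, fun _ _ => rfl⟩
        rw [← add_sum_erase _ _ h2, sum_eq_zero] at h1
        · simp at h1
          exact hσ0 h1
        · intro τ hτ
          rw [hmin _ (SN_dec σ S hanti (mem_of_mem_erase hτ) (ne_of_mem_erase hτ)), mul_zero]
      obtain ⟨χ, hχ⟩ := SN_color σ hgood
      have hV' : SN_V a (fun σ' => ψ σ' - ψ σ * SN_ind σ χ σ') := by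
        intro ρ S hS
        have h1 := hV ρ S hS
        have h2 := SN_ind_V ha σ χ ρ S hS
        have h3 : ∑ τ ∈ suppPerm S, ((Equiv.Perm.sign τ : ℤ) : ℚ) *
            (ψ (ρ * τ) - ψ σ * SN_ind σ χ (ρ * τ)) =
            ∑ τ ∈ suppPerm S, ((Equiv.Perm.sign τ : ℤ) : ℚ) * ψ (ρ * τ) -
            ψ σ * ∑ τ ∈ suppPerm S, ((Equiv.Perm.sign τ : ℤ) : ℚ) * SN_ind σ χ (ρ * τ) := by
          rw [mul_sum, ← sum_sub_distrib]
          apply sum_congr rfl
          intro τ _
          ring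
        rw [h3, h1, h2]
        ring
      have hself : SN_ind σ χ σ = 1 := by
        unfold SN_ind
        rw [if_pos]
        rw [inv_mul_cancel]
        exact mem_filter.2 ⟨mem_univ _, fun _ => rfl⟩
      have hsupp : ∀ σ', ψ σ' - ψ σ * SN_ind σ χ σ' ≠ 0 → SN_lx σ < SN_lx σ' := by
        intro σ' h
        rcases lt_trichotomy (SN_lx σ') (SN_lx σ) with h1 | h1 | h1
        · exfalso
          apply h
          rw [hmin σ' h1]
          have : SN_ind σ χ σ' = 0 := by
            unfold SN_ind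
            rw [if_neg]
            intro h2
            have h3 : σ⁻¹ * σ' ≠ 1 := by
              intro h4
              have h5 : σ' = σ := by
                rw [← mul_one σ, ← h4]
                simp
              rw [h5] at h1
              exact lt_irrefl _ h1
            have h4 := SN_inc σ χ hχ h2 h3
            rw [mul_inv_cancel_left] at h4
            exact lt_asymm h1 h4
          rw [this]
          ring
        · exfalso
          apply h
          rw [SN_lx_inj h1, hself]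
          ring
        · exact h1
      have hcard : (univ.filter fun σ₁ => ∃ σ', ψ σ' - ψ σ * SN_ind σ χ σ' ≠ 0 ∧
          SN_lx σ' ≤ SN_lx σ₁).card <
          (univ.filter fun σ₁ => ∃ σ', ψ σ' ≠ 0 ∧ SN_lx σ' ≤ SN_lx σ₁).card := by
        apply card_lt_card
        rw [ssubset_iff_of_subset]
        · refine ⟨σ, mem_filter.2 ⟨mem_univ _, σ, hσ0, le_rfl⟩, ?_⟩
          rw [mem_filter]
          rintro ⟨_, σ', h1, h2⟩
          exact absurd (hsupp σ' h1) (not_lt.2 h2)
        · intro σ₁ h1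
          rw [mem_filter] at h1 ⊢
          obtain ⟨_, σ', h1, h2⟩ := h1
          exact ⟨mem_univ _, σ, hσ0, (hsupp σ' h1).le.trans h2⟩
      have h1 := ih _ hV' (by omega)
      have h2 : ∑ σ', (ψ σ' - ψ σ * SN_ind σ χ σ') * f σ' =
          ∑ σ', ψ σ' * f σ' - ψ σ * ∑ σ', SN_ind σ χ σ' * f σ' := by
        rw [mul_sum, ← sum_sub_distrib]
        apply sum_congr rfl
        intro τ _
        ring
      rw [h2, hf, mul_zero, sub_zero] at h1
      exact h1
    · apply sum_eq_zero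
      intro σ _
      have h2 : ψ σ = 0 := by
        by_contra h
        exact h0 ⟨σ, h⟩
      rw [h2, zero_mul]

private theorem SN_rat {M a : ℕ} (ha : 1 ≤ a) (φ : Equiv.Perm (Fin M) → ℚ)
    (row : ∀ (σ : Equiv.Perm (Fin M)) (S : Finset (Fin M)), S.card = a →
      ∑ τ ∈ suppPerm S, φ (σ * τ) = 0)
    (col : ∀ (σ : Equiv.Perm (Fin M)) (χ : Fin M → Fin (a - 1)),
      ∑ τ ∈ colorStab χ, ((Equiv.Perm.sign τ : ℤ)) • φ (σ * τ) = 0) :
    ∀ σ, φ σ = 0 := by
  classical
  set ψ : Equiv.Perm (Fin M) → ℚ := fun σ => ((Equiv.Perm.sign σ : ℤ) : ℚ) * φ σ with hψ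
  have hsq : ∀ σ : Equiv.Perm (Fin M),
      ((Equiv.Perm.sign σ : ℤ) : ℚ) * ((Equiv.Perm.sign σ : ℤ) : ℚ) = 1 := by
    intro σ
    rcases Int.units_eq_one_or (Equiv.Perm.sign σ) with h | h <;> rw [h] <;> simp
  have hV : SN_V a ψ := by
    intro σ S hS
    have h1 : ∑ τ ∈ suppPerm S, ((Equiv.Perm.sign τ : ℤ) : ℚ) * ψ (σ * τ) =
        ((Equiv.Perm.sign σ : ℤ) : ℚ) * ∑ τ ∈ suppPerm S, φ (σ * τ) := by
      rw [mul_sum]
      apply sum_congr rfl
      intro τ _
      simp only [hψ]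
      rw [Equiv.Perm.sign_mul]
      push_cast
      linear_combination ((Equiv.Perm.sign σ : ℤ) : ℚ) * φ (σ * τ) * hsq τ
    rw [h1, row σ S hS, mul_zero]
  have hf : ∀ (σ₀ : Equiv.Perm (Fin M)) (χ : Fin M → Fin (a - 1)),
      ∑ σ, SN_ind σ₀ χ σ * ψ σ = 0 := by
    intro σ₀ χ
    have h1 : ∑ σ, SN_ind σ₀ χ σ * ψ σ = ∑ τ, SN_ind σ₀ χ (σ₀ * τ) * ψ (σ₀ * τ) :=
      (Equiv.sum_comp (Equiv.mulLeft σ₀) fun σ => SN_ind σ₀ χ σ * ψ σ).symm
    have h2 : ∀ τ, SN_ind σ₀ χ (σ₀ * τ) * ψ (σ₀ * τ) =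
        if τ ∈ colorStab χ then ψ (σ₀ * τ) else 0 := by
      intro τ
      unfold SN_ind
      rw [inv_mul_cancel_left]
      split_ifs <;> simp
    rw [h1, sum_congr rfl (fun τ _ => h2 τ), ← sum_filter, filter_mem_eq_inter, univ_inter]
    have h3 : ∑ τ ∈ colorStab χ, ψ (σ₀ * τ) = ((Equiv.Perm.sign σ₀ : ℤ) : ℚ) *
        ∑ τ ∈ colorStab χ, ((Equiv.Perm.sign τ : ℤ)) • φ (σ₀ * τ) := by
      rw [mul_sum]
      apply sum_congr rfl
      intro τ _
      simp only [hψ]
      rw [Equiv.Perm.sign_mul, zsmul_eq_mul]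
      push_cast
      ring
    rw [h3, col, mul_zero]
  have h0 := SN_main ha ψ hf _ ψ hV le_rfl
  intro σ
  have h1 := (sum_eq_zero_iff_of_nonneg (fun σ _ => mul_self_nonneg (ψ σ))).1 h0 σ (mem_univ σ)
  have h2 : ψ σ = 0 := mul_self_eq_zero.1 h1
  have h3 := hsq σ
  simp only [hψ] at h2
  rcases mul_eq_zero.1 h2 with h4 | h4
  · rw [h4] at h3
    simp at h3
  · exact h4

/-- The `S_M`-lemma: a function on permutations whose symmetrizations over all `a`-subsets vanish
and whose skew-symmetrizations over all partitions into `a - 1` classes vanish is zero.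
(Equivalently: a Young diagram with at most `a - 1` columns... has nonzero column
antisymmetrizer.) -/
theorem perm_function_eq_zero {M a : ℕ} (ha : 1 ≤ a) {W : Type*} [AddCommGroup W] [Module ℚ W]
    (φ : Equiv.Perm (Fin M) → W)
    (row : ∀ (σ : Equiv.Perm (Fin M)) (S : Finset (Fin M)), S.card = a →
      ∑ τ ∈ suppPerm S, φ (σ * τ) = 0)
    (col : ∀ (σ : Equiv.Perm (Fin M)) (χ : Fin M → Fin (a - 1)),
      ∑ τ ∈ colorStab χ, ((Equiv.Perm.sign τ : ℤ)) • φ (σ * τ) = 0) :
    ∀ σ, φ σ = 0 := by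
  intro σ
  rw [← Module.forall_dual_apply_eq_zero_iff ℚ]
  intro l
  refine SN_rat ha (fun σ => l (φ σ)) ?_ ?_ σ
  · intro σ S hS
    rw [← map_sum, row σ S hS, map_zero]
  · intro σ χ
    have := congrArg l (col σ χ)
    rw [map_sum, map_zero] at this
    rw [← this]
    apply sum_congr rfl
    intro τ _
    rw [map_zsmul]

end Pool.Agent.Lib.MP_7ac902_al.Z
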