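import Pool.Agent.Lib.MP_7ac902_al.Z.Polar
import Pool.Agent.Lib.MP_7ac902_al.Z.SN

set_option autoImplicit false
set_option linter.unusedSectionVars false

namespace Pool.Agent.Lib.MP_7ac902_al.Z

section EStepAux

variable {A : Type} [Ring A] [Algebra ℚ A]

/-- The value of a list of blocks. -/
private def val (b : A) (W : List (List A)) : A := (W.map fun w => b * w.prod).prod

private theorem val_append (b : A) (P Q : List (List A)) :
    val b (P ++ Q) = val b P * val b Q := by
  simp [val]

private theorem val_cons (b : A) (w : List A) (Q : List (List A)) :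
    val b (w :: Q) = b * w.prod * val b Q := by
  simp [val]

private theorem val_swap (b : A) (P Q : List (List A)) (pre post : List A) (x y : A)
    (h : val b (P ++ (pre ++ (x * y - y * x) :: post) :: Q) = 0) :
    val b (P ++ (pre ++ x :: y :: post) :: Q) = val b (P ++ (pre ++ y :: x :: post) :: Q) := by
  rw [← sub_eq_zero, ← h]
  simp only [val_append, val_cons, List.prod_append, List.prod_cons]
  noncomm_ring

private theorem val_perm {b : A} {L : Submodule ℚ A} (hL : LieClosed L) {N M : ℕ}
    (IH : ∀ W : List (List A), W.length = N → (∀ w ∈ W, ∀ x ∈ w, x ∈ L) →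
      W.flatten.length < M → val b W = 0)
    {w w' : List A} (hp : w.Perm w') : ∀ (P Q : List (List A)) (pre post : List A),
      (P ++ (pre ++ w ++ post) :: Q).length = N →
      (∀ u ∈ P ++ (pre ++ w ++ post) :: Q, ∀ x ∈ u, x ∈ L) →
      (P ++ (pre ++ w ++ post) :: Q).flatten.length = M →
      val b (P ++ (pre ++ w ++ post) :: Q) = val b (P ++ (pre ++ w' ++ post) :: Q) := by
  induction hp with
  | nil => intro P Q pre post _ _ _; rfl
  | @cons x l₁ l₂ _ ih =>
    intro P Q pre post h1 h2 h3
    have e : ∀ l : List A, pre ++ x :: l ++ post = (pre ++ [x]) ++ l ++ post := by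
      intro l; simp
    rw [e] at h1 h2 h3 ⊢
    rw [e]
    exact ih P Q (pre ++ [x]) post h1 h2 h3
  | swap x y l =>
    intro P Q pre post h1 h2 h3
    have e : ∀ (a c : A), pre ++ a :: c :: l ++ post = pre ++ a :: c :: (l ++ post) := by
      intro a c; simp
    rw [e] at h1 h2 h3 ⊢
    rw [e]
    apply val_swap
    apply IH
    · simpa using h1
    · intro u hu z hz
      simp only [List.mem_append, List.mem_cons] at hu
      rcases hu with hu | rfl | hu
      · exact h2 u (by simp [hu]) z hz
      · have hin : ∀ z ∈ pre ++ y :: x :: (l ++ post), z ∈ L := h2 _ (by simp)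
        simp only [List.mem_append, List.mem_cons] at hz
        rcases hz with hz | rfl | hz
        · exact hin z (by simp [hz])
        · exact hL _ (hin y (by simp)) _ (hin x (by simp))
        · exact hin z (by
            simp only [List.mem_append, List.mem_cons]
            tauto)
      · exact h2 u (by simp [hu]) z hz
    · simp only [List.flatten_append, List.flatten_cons, List.length_append, List.length_cons]
        at h3 ⊢
      omega
  | trans hp1 hp2 ih1 ih2 =>
    intro P Q pre post h1 h2 h3
    rw [ih1 P Q pre post h1 h2 h3]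
    apply ih2 P Q pre post
    · simpa using h1
    · intro u hu z hz
      simp only [List.mem_append, List.mem_cons] at hu
      rcases hu with hu | rfl | hu
      · exact h2 u (by simp [hu]) z hz
      · refine h2 _ (List.mem_append.2 (Or.inr (List.mem_cons.2 (Or.inl rfl)))) z ?_
        simp only [List.mem_append] at hz ⊢
        rcases hz with (hz | hz) | hz
        · exact Or.inl (Or.inl hz)
        · exact Or.inl (Or.inr (hp1.mem_iff.2 hz))
        · exact Or.inr hz
      · exact h2 u (by simp [hu]) z hz
    · rw [← h3]
      simp only [List.flatten_append, List.flatten_cons, List.length_append, hp1.length_eq]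

private theorem val_forall2 {b : A} {L : Submodule ℚ A} (hL : LieClosed L) {N M : ℕ}
    (IH : ∀ W : List (List A), W.length = N → (∀ w ∈ W, ∀ x ∈ w, x ∈ L) →
      W.flatten.length < M → val b W = 0)
    {W W' : List (List A)} (h : List.Forall₂ List.Perm W W') : ∀ P : List (List A),
      (P ++ W).length = N → (∀ u ∈ P ++ W, ∀ x ∈ u, x ∈ L) → (P ++ W).flatten.length = M →
      val b (P ++ W) = val b (P ++ W') := by
  induction h with
  | nil => intro P _ _ _; rfl
  | @cons w w' W W' hp _ ih =>
    intro P h1 h2 h3
    have h4 := val_perm hL IH hp P W [] [] (by simpa using h1) (by simpa using h2)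
      (by simpa using h3)
    simp only [List.nil_append, List.append_nil] at h4
    rw [h4]
    have e : ∀ V : List (List A), P ++ w' :: V = (P ++ [w']) ++ V := by intro V; simp
    rw [e W, e W']
    apply ih
    · simpa using h1
    · intro u hu z hz
      simp only [List.mem_append, List.mem_cons, List.mem_nil_iff, or_false] at hu
      rcases hu with (hu | rfl) | hu
      · exact h2 u (by simp [hu]) z hz
      · exact h2 w (by simp) z (hp.mem_iff.2 hz)
      · exact h2 u (by simp [hu]) z hz
    · rw [← h3]
      simp only [List.flatten_append, List.flatten_cons, List.length_append, hp.length_eq,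
        List.flatten_nil, List.length_nil]
      omega

/-- Regrouping a product with many factors in `a A`. -/
private theorem regroup (a : A) : ∀ (F : List A) (m : ℕ) (P : A → Prop) [DecidablePred P],
    (∀ x ∈ F, P x → ∃ c, x = a * c) → m ≤ F.countP P →
      ∃ (x0 : A) (c : Fin m → A), F.prod = x0 * (List.ofFn fun t => a * c t).prod := by
  intro F
  induction F with
  | nil =>
    intro m P _ _ hm
    have : m = 0 := by simpa using hm
    subst this
    exact ⟨1, Fin.elim0, by simp⟩
  | cons y F ih =>
    intro m P _ hP hm
    rw [List.countP_cons] at hm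
    by_cases hy : P y
    · obtain ⟨c0, hc0⟩ := hP y (by simp) hy
      rcases Nat.eq_zero_or_pos m with rfl | hmpos
      · exact ⟨(y :: F).prod, Fin.elim0, by simp⟩
      obtain ⟨m, rfl⟩ : ∃ m', m = m' + 1 := ⟨m - 1, by omega⟩
      obtain ⟨x0, c, hc⟩ := ih m P (fun x hx => hP x (by simp [hx])) (by
        simp only [hy, decide_true, if_true] at hm
        omega)
      refine ⟨1, Fin.cons (c0 * x0) c, ?_⟩
      rw [List.prod_cons, hc, hc0, List.ofFn_succ, List.prod_cons]
      simp only [Fin.cons_zero, Fin.cons_succ]
      noncomm_ring
    · obtain ⟨x0, c, hc⟩ := ih m P (fun x hx => hP x (by simp [hx])) (by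
        simpa [hy] using hm)
      exact ⟨y * x0, c, by rw [List.prod_cons, hc, mul_assoc]⟩

theorem prod_eq_zero_of_countP {a : A} {n : ℕ} (h : NilAt a n) (F : List A)
    (P : A → Prop) [DecidablePred P] (hP : ∀ x ∈ F, P x → ∃ c, x = a * c)
    (hn : n ≤ F.countP P) : F.prod = 0 := by
  obtain ⟨x0, c, hc⟩ := regroup a F n P hP hn
  rw [hc, h c, mul_zero]

/-- Pigeonhole. -/
private theorem count_bound {β : Type*} (c : β → ℕ) (k : ℕ) : ∀ W : List β,
    (∀ w ∈ W, c w ≤ k) → (W.map c).sum ≤ k * W.countP (fun w => 1 ≤ c w) := by
  intro W
  induction W with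
  | nil => intro _; simp
  | cons w W ih =>
    intro h
    have h1 := ih (fun w hw => h w (by simp [hw]))
    have h2 := h w (by simp)
    rw [List.map_cons, List.sum_cons, List.countP_cons]
    by_cases hw : 1 ≤ c w
    · simp only [hw, decide_true, if_true]
      rw [mul_add, mul_one]
      omega
    · simp only [hw, decide_false]
      have : c w = 0 := by omega
      simp [this, h1]

/-- Decomposition of words in two kinds of letters. -/
private theorem decomp {α β : Type*} (u : List (α ⊕ β)) :
    ∃ (m : ℕ) (q : Fin m → β) (a : Fin (m + 1) → List α),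
      u.filterMap Sum.getRight? = List.ofFn q ∧ m + ∑ t, (a t).length = u.length ∧
      ∀ {B : Type} [Ring B] (l : α → B) (v : β → B),
        (u.map (Sum.elim l v)).prod = alt (fun t => ((a t).map l).prod) (fun t => v (q t)) := by
  induction u with
  | nil =>
    refine ⟨0, Fin.elim0, fun _ => [], by simp, by simp, ?_⟩
    intro B _ l v
    simp [alt]
  | cons x u ih =>
    obtain ⟨m, q, a, h1, h2, h3⟩ := ih
    rcases x with x | y
    · refine ⟨m, q, Fin.cons (x :: a 0) (fun t => a t.succ), ?_, ?_, ?_⟩
      · simpa using h1
      · rw [Fin.sum_univ_succ] at h2 ⊢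
        simp only [Fin.cons_zero, Fin.cons_succ, List.length_cons]
        omega
      · intro B _ l v
        rw [List.map_cons, List.prod_cons, h3 l v]
        simp only [alt, Fin.cons_zero, Fin.cons_succ, List.map_cons, List.prod_cons, Sum.elim_inl,
          mul_assoc]
    · refine ⟨m + 1, Fin.cons y q, Fin.cons [] a, ?_, ?_, ?_⟩
      · rw [List.ofFn_succ]
        simpa using h1
      · rw [Fin.sum_univ_succ]
        simp only [Fin.cons_zero, Fin.cons_succ, List.length_cons, List.length_nil]
        omega
      · intro B _ l v
        rw [List.map_cons, List.prod_cons, h3 l v]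
        simp only [alt, Fin.cons_zero, Fin.cons_succ, List.map_nil, List.prod_nil, Sum.elim_inr,
          List.ofFn_succ, List.prod_cons, mul_assoc, one_mul]

private theorem index_form {β : Type*} (f : β → A) : ∀ (W0 : List (List A)) (X : List β),
    X.map f = W0.flatten → ∃ W : List (List β), W.flatten = X ∧ W.map (List.map f) = W0 := by
  intro W0
  induction W0 with
  | nil =>
    intro X hX
    exact ⟨[], by simpa using (by simpa using hX : X = []).symm, rfl⟩
  | cons w W0 ih =>
    intro X hX
    rw [List.flatten_cons, List.map_eq_append_iff] at hX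
    obtain ⟨X1, X2, rfl, h1, h2⟩ := hX
    obtain ⟨W, hW1, hW2⟩ := ih X2 h2
    exact ⟨X1 :: W, by simp [hW1], by simp [hW2, h1]⟩

/-- The word attached to a list of blocks. -/
private def wordOf {β : Type*} (i : ℕ) (W : List (List β)) : List (Fin i ⊕ β) :=
  W.flatMap fun w => (List.finRange i).map Sum.inl ++ w.map Sum.inr

private theorem wordOf_right {β : Type*} (i : ℕ) (W : List (List β)) :
    (wordOf i W).filterMap Sum.getRight? = W.flatten := by
  induction W with
  | nil => rfl
  | cons w W ih =>
    rw [wordOf, List.flatMap_cons, List.filterMap_append, ← wordOf, ih, List.filterMap_append,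
      List.flatten_cons, List.filterMap_map, List.filterMap_map]
    congr 1
    have h1 : List.filterMap (Sum.getRight? ∘ (Sum.inl : Fin i → Fin i ⊕ β)) (List.finRange i)
        = [] := by
      rw [List.filterMap_eq_nil_iff]
      intro x _
      rfl
    have h2 : List.filterMap (Sum.getRight? ∘ (Sum.inr : β → Fin i ⊕ β)) w = w := by
      have : (Sum.getRight? ∘ (Sum.inr : β → Fin i ⊕ β)) = some := rfl
      rw [this, List.filterMap_some]
    rw [h1, h2, List.nil_append]

private theorem wordOf_length {β : Type*} (i : ℕ) (W : List (List β)) :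
    (wordOf i W).length = W.length * i + W.flatten.length := by
  induction W with
  | nil => simp [wordOf]
  | cons w W ih =>
    rw [wordOf, List.flatMap_cons, List.length_append, ← wordOf, ih]
    simp only [List.length_append, List.length_map, List.length_finRange, List.length_cons,
      List.flatten_cons]
    ring

private theorem wordOf_prod {β : Type*} {i : ℕ} (l : Fin i → A) (v : β → A) (W : List (List β)) :
    ((wordOf i W).map (Sum.elim l v)).prod = val (List.ofFn l).prod (W.map (List.map v)) := by
  induction W with
  | nil => simp [wordOf, val]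
  | cons w W ih =>
    rw [wordOf, List.flatMap_cons, List.map_append, List.prod_append, ← wordOf, ih, List.map_cons,
      val_cons, List.map_append, List.prod_append, List.map_map, List.map_map]
    congr 2
    rw [Sum.elim_comp_inl, List.ofFn_eq_map]

/-- The row condition. -/
private theorem row_cond {j i n N M : ℕ} (L : Submodule ℚ A)
    (hL : LieClosed L) (hidx : Index L j) (hE : EProp L (i + 1) n)
    (l : Fin i → A) (hl : ∀ p, l p ∈ L)
    (IH : ∀ W : List (List A), W.length = N → (∀ w ∈ W, ∀ x ∈ w, x ∈ L) →
      W.flatten.length < M → val (List.ofFn l).prod W = 0)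
    (W : List (List (Fin M))) (hWN : W.length = N) (hW : W.flatten = List.finRange M)
    (S : Finset (Fin M)) (hS : S.card = (j - 1) * (n - 1) + 1) (w : Fin M → A)
    (hw : ∀ p, w p ∈ L) (v' : A) (hv' : v' ∈ L) :
    val (List.ofFn l).prod (W.map (List.map fun p => if p ∈ S then v' else w p)) = 0 := by
  classical
  set f : Fin M → A := fun p => if p ∈ S then v' else w p with hf
  have hfL : ∀ p, f p ∈ L := by
    intro p
    rw [hf]
    dsimp only
    split_ifs
    · exact hv'
    · exact hw p
  let c : List (Fin M) → ℕ := fun u => (u.filter (· ∈ S)).length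
  let g : List (Fin M) → List A := fun u =>
    List.replicate (c u) v' ++ (u.filter (fun p => ¬ p ∈ S)).map f
  have hperm : ∀ u : List (Fin M), (u.map f).Perm (g u) := by
    intro u
    have h1 : ((u.filter (· ∈ S)) ++ (u.filter (fun p => ¬ p ∈ S))).Perm u := by
      simpa using List.filter_append_perm (fun p => decide (p ∈ S)) u
    have h2 : (u.filter (· ∈ S)).map f = List.replicate (c u) v' := by
      rw [List.eq_replicate_iff]
      refine ⟨by simp [c], ?_⟩
      intro x hx
      rw [List.mem_map] at hx
      obtain ⟨p, hp, rfl⟩ := hx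
      rw [List.mem_filter] at hp
      have : p ∈ S := by simpa using hp.2
      simp [hf, this]
    have h3 := (h1.map f).symm
    rw [List.map_append, h2] at h3
    exact h3
  have hval : val (List.ofFn l).prod (W.map (List.map f)) = val (List.ofFn l).prod (W.map g) := by
    have h := val_forall2 (b := (List.ofFn l).prod) hL IH (W := W.map (List.map f)) (W' := W.map g)
      (by
        rw [List.forall₂_map_left_iff, List.forall₂_map_right_iff, List.forall₂_same]
        exact fun u _ => hperm u) []
      (by simpa using hWN)
      (by
        intro u hu x hx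
        simp only [List.nil_append, List.mem_map] at hu
        obtain ⟨u', _, rfl⟩ := hu
        rw [List.mem_map] at hx
        obtain ⟨p, _, rfl⟩ := hx
        exact hfL p)
      (by
        rw [List.nil_append, ← List.map_flatten, List.length_map, hW, List.length_finRange])
    simpa using h
  rw [hval]
  by_cases hbig : ∃ u ∈ W, j ≤ c u
  · obtain ⟨u, hu, hju⟩ := hbig
    rw [val]
    apply List.prod_eq_zero
    rw [List.mem_map]
    refine ⟨g u, List.mem_map_of_mem hu, ?_⟩
    rw [List.prod_append, List.prod_replicate]
    obtain ⟨e, he⟩ := Nat.exists_eq_add_of_le hju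
    rw [he, pow_add, hidx v' hv', zero_mul, zero_mul, mul_zero]
  · push Not at hbig
    have hsum : (W.map c).sum = (j - 1) * (n - 1) + 1 := by
      rw [← hS]
      have h1 : (W.map c).sum = (W.flatten.filter (· ∈ S)).length := by
        rw [List.filter_flatten, List.length_flatten, List.map_map]
        rfl
      rw [h1, hW]
      have h2 : ((List.finRange M).filter (· ∈ S)).toFinset = S := by
        ext p; simp
      have h3 : ((List.finRange M).filter (· ∈ S)).Nodup := (List.nodup_finRange M).filter _
      rw [← List.toFinset_card_of_nodup h3, h2]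
    have hcb := count_bound c (j - 1) W (fun u hu => by
      have := hbig u hu
      omega)
    rw [hsum] at hcb
    have hcnt : n ≤ W.countP (fun u => 1 ≤ c u) := by
      by_contra hlt
      push Not at hlt
      have h5 : (j - 1) * W.countP (fun u => decide (1 ≤ c u)) ≤ (j - 1) * (n - 1) :=
        Nat.mul_le_mul_left _ (by omega)
      omega
    have hnil : NilAt ((List.ofFn l).prod * v') n := by
      have h6 := hE (Fin.snoc l v') (by
        intro p
        refine Fin.lastCases ?_ (fun q => ?_) p
        · simpa using hv'
        · simpa using hl q)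
      rw [List.ofFn_succ', List.concat_eq_append, List.prod_append, List.prod_singleton] at h6
      simpa using h6
    rw [val]
    refine prod_eq_zero_of_countP hnil _ (fun x => ∃ y, x = (List.ofFn l).prod * v' * y)
      (fun x _ h => h) ?_
    refine hcnt.trans ?_
    rw [List.map_map, List.countP_map]
    apply List.countP_mono_left
    intro u hu h1u
    have h7 : 1 ≤ c u := by simpa using h1u
    obtain ⟨e, he⟩ := Nat.exists_eq_add_of_le h7
    simp only [Function.comp_apply, decide_eq_true_eq]
    refine ⟨v' ^ e * ((u.filter (fun p => ¬ p ∈ S)).map f).prod, ?_⟩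
    simp only [g]
    rw [List.prod_append, List.prod_replicate, he, pow_add, pow_one]
    noncomm_ring

private theorem blocks {j i n N : ℕ} (hi : 1 ≤ i) (L : Submodule ℚ A)
    (hL : LieClosed L) (hidx : Index L j) (hE : EProp L (i + 1) n)
    (hC : ColHyp L i ((j - 1) * (n - 1)) N) (l : Fin i → A) (hl : ∀ p, l p ∈ L) :
    ∀ (M : ℕ) (W : List (List A)), W.length = N → (∀ w ∈ W, ∀ x ∈ w, x ∈ L) →
      W.flatten.length = M → val (List.ofFn l).prod W = 0 := by
  intro M
  induction M using Nat.strong_induction_on with
  | _ M ihM =>
  have IH : ∀ W : List (List A), W.length = N → (∀ w ∈ W, ∀ x ∈ w, x ∈ L) →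
      W.flatten.length < M → val (List.ofFn l).prod W = 0 :=
    fun W h1 h2 h3 => ihM _ h3 W h1 h2 rfl
  intro W0 h1 h2 h3
  subst h3
  set v : Fin W0.flatten.length → A := W0.flatten.get with hv
  obtain ⟨W, hW, hWv⟩ := index_form v W0 (List.finRange W0.flatten.length) (by
    rw [hv]; simp)
  have hvL : ∀ p, v p ∈ L := by
    intro p
    have h4 : v p ∈ W0.flatten := List.get_mem _ _
    rw [List.mem_flatten] at h4
    obtain ⟨w, hw, hx⟩ := h4
    exact h2 w hw _ hx
  have hWN : W.length = N := by
    have h5 := congrArg List.length hWv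
    rw [List.length_map] at h5
    exact h5.trans h1
  obtain ⟨m, q, a, hq, hlen, hprod⟩ := decomp (wordOf i W)
  rw [wordOf_right, hW, ← List.ofFn_id] at hq
  have hm : m = W0.flatten.length := by
    have := congrArg List.length hq
    simpa using this.symm
  subst hm
  have hq' : q = id := (List.ofFn_injective hq).symm
  subst hq'
  rw [wordOf_length, hW, hWN, List.length_finRange] at hlen
  have hform : ∀ v' : Fin W0.flatten.length → A,
      val (List.ofFn l).prod (W.map (List.map v')) = alt (fun t => ((a t).map l).prod) v' := by
    intro v'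
    rw [← wordOf_prod, hprod l v']
    rfl
  have key := perm_function_eq_zero (M := W0.flatten.length) (a := (j - 1) * (n - 1) + 1)
    (by omega) (W := A) (fun σ => alt (fun t => ((a t).map l).prod) (v ∘ σ)) ?_ ?_ 1
  · rw [← hWv, hform]
    simpa using key
  · intro σ S hS
    exact sum_suppPerm_alt L _ S (v ∘ σ) (fun p => hvL _) (fun v' hv' => by
      rw [← hform]
      exact row_cond L hL hidx hE l hl IH W hWN hW S hS (v ∘ σ) (fun p => hvL _) v' hv')
  · intro σ χ
    refine hC l hl _ (v ∘ σ) (fun p => hvL _) χ a ?_
    rw [hlen]
    nlinarith [Nat.le_mul_of_pos_right N hi]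

end EStepAux

/-- `E(i+1) → E(i)`. -/
theorem eStep {A : Type} [Ring A] [Algebra ℚ A] {j i n N : ℕ} (hj : 1 ≤ j) (hi : 1 ≤ i)
    (hn : 1 ≤ n) (L : Submodule ℚ A) (hL : LieClosed L) (hidx : Index L j)
    (hgen : Algebra.adjoin ℚ (L : Set A) = ⊤) (hE : EProp L (i + 1) n)
    (hC : ColHyp L i ((j - 1) * (n - 1)) N) : EProp L i N := by
  intro l hl c
  set b := (List.ofFn l).prod with hb
  let s : Set A := {x | ∃ w : List A, (∀ y ∈ w, y ∈ L) ∧ x = b * w.prod}
  have hspan : ∀ a : A, b * a ∈ Submodule.span ℚ s := by
    intro a
    have ha : a ∈ Algebra.adjoin ℚ (L : Set A) := by rw [hgen]; trivial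
    rw [← Subalgebra.mem_toSubmodule, Algebra.adjoin_eq_span] at ha
    induction ha using Submodule.span_induction with
    | mem x hx =>
      obtain ⟨w, hw, rfl⟩ := Submonoid.exists_list_of_mem_closure hx
      exact Submodule.subset_span ⟨w, hw, rfl⟩
    | zero => rw [mul_zero]; exact Submodule.zero_mem _
    | add x y _ _ hx hy => rw [mul_add]; exact Submodule.add_mem _ hx hy
    | smul r x _ hx => rw [mul_smul_comm]; exact Submodule.smul_mem _ _ hx
  have hpow : (Submodule.span ℚ s) ^ N = ⊥ := by
    rw [Submodule.span_pow, Submodule.span_eq_bot]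
    intro x hx
    rw [Set.mem_pow] at hx
    obtain ⟨f, rfl⟩ := hx
    choose w hw hw' using fun t => (f t).2
    have : (List.ofFn fun t => ((f t : s) : A)) = (List.ofFn w).map (fun u => b * u.prod) := by
      rw [List.map_ofFn]
      congr 1
      funext t
      exact hw' t
    rw [this]
    refine blocks hi L hL hidx hE hC l hl _ (List.ofFn w) (by simp) ?_ rfl
    intro u hu
    rw [List.mem_ofFn] at hu
    obtain ⟨t, rfl⟩ := hu
    exact hw t
  have hmem : (List.ofFn fun t => b * c t).prod ∈ (Submodule.span ℚ s) ^ N := by
    have hgen : ∀ (N : ℕ) (c : Fin N → A),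
        (List.ofFn fun t => b * c t).prod ∈ (Submodule.span ℚ s) ^ N := by
      intro N
      induction N with
      | zero =>
        intro c
        simp only [List.ofFn_zero, List.prod_nil, pow_zero]
        exact Submodule.one_le.1 le_rfl
      | succ N ih =>
        intro c
        rw [List.ofFn_succ, List.prod_cons, pow_succ']
        exact Submodule.mul_mem_mul (hspan _) (ih _)
    exact hgen N c
  rw [hpow] at hmem
  exact (Submodule.mem_bot ℚ).1 hmem

end Pool.Agent.Lib.MP_7ac902_al.Z
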