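import Pool.Agent.Lib.MP_7ac902_al.Z.Polar

set_option autoImplicit false

namespace Pool.Agent.Lib.MP_7ac902_al.Z

open Finset TensorProduct

/-- The exterior algebra on `M` odd generators. -/
abbrev Lam (M : ℕ) : Type := ExteriorAlgebra ℚ (Fin M → ℚ)

/-- The even part: generated by the products of two vectors. -/
def Ev (M : ℕ) : Subalgebra ℚ (Lam M) :=
  Algebra.adjoin ℚ {x | ∃ a b : Fin M → ℚ, x = ExteriorAlgebra.ι ℚ a * ExteriorAlgebra.ι ℚ b}

/-- The odd part. -/
def Od (M : ℕ) : Submodule ℚ (Lam M) :=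
  Submodule.span ℚ {x | ∃ e ∈ Ev M, ∃ a : Fin M → ℚ, x = e * ExteriorAlgebra.ι ℚ a}

variable {R : Type} [Ring R] [Algebra ℚ R]

/-- `L ⊗ Λ₀`. -/
def L0 (L : Submodule ℚ R) (M : ℕ) : Submodule ℚ (R ⊗[ℚ] Lam M) :=
  Submodule.span ℚ {x | ∃ l ∈ L, ∃ e ∈ Ev M, x = l ⊗ₜ[ℚ] e}

/-- `L ⊗ Λ₁`. -/
def L1 (L : Submodule ℚ R) (M : ℕ) : Submodule ℚ (R ⊗[ℚ] Lam M) :=
  Submodule.span ℚ {x | ∃ l ∈ L, ∃ o ∈ Od M, x = l ⊗ₜ[ℚ] o}

private theorem ext_swap {M : ℕ} (a b : Fin M → ℚ) :
    (ExteriorAlgebra.ι ℚ a * ExteriorAlgebra.ι ℚ b : Lam M) =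
      -(ExteriorAlgebra.ι ℚ b * ExteriorAlgebra.ι ℚ a) :=
  eq_neg_of_add_eq_zero_left (ExteriorAlgebra.ι_add_mul_swap a b)

private theorem ext_Ev_le_center (M : ℕ) : Ev M ≤ Subalgebra.center ℚ (Lam M) := by
  apply Algebra.adjoin_le
  rintro x ⟨a, b, rfl⟩
  rw [SetLike.mem_coe, Subalgebra.mem_center_iff]
  intro y
  induction y using ExteriorAlgebra.induction with
  | algebraMap r => exact Algebra.commutes r _
  | ι c =>
    calc (ExteriorAlgebra.ι ℚ c : Lam M) * (ExteriorAlgebra.ι ℚ a * ExteriorAlgebra.ι ℚ b)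
        = (ExteriorAlgebra.ι ℚ c * ExteriorAlgebra.ι ℚ a) * ExteriorAlgebra.ι ℚ b := by
          rw [mul_assoc]
      _ = - (ExteriorAlgebra.ι ℚ a * (ExteriorAlgebra.ι ℚ c * ExteriorAlgebra.ι ℚ b)) := by
          rw [ext_swap c a, neg_mul, mul_assoc]
      _ = ExteriorAlgebra.ι ℚ a * ExteriorAlgebra.ι ℚ b * ExteriorAlgebra.ι ℚ c := by
          rw [ext_swap c b, mul_neg, neg_neg, mul_assoc]
  | mul x y hx hy => rw [mul_assoc, hy, ← mul_assoc, hx, mul_assoc]
  | add x y hx hy => rw [add_mul, mul_add, hx, hy]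

theorem Ev_comm {M : ℕ} {e : Lam M} (he : e ∈ Ev M) (x : Lam M) : e * x = x * e :=
  ((Subalgebra.mem_center_iff.1 (ext_Ev_le_center M he)) x).symm

theorem Od_anticomm {M : ℕ} {x y : Lam M} (hx : x ∈ Od M) (hy : y ∈ Od M) :
    x * y = - (y * x) := by
  induction hx using Submodule.span_induction with
  | mem x hx =>
    obtain ⟨e, he, a, rfl⟩ := hx
    induction hy using Submodule.span_induction with
    | mem y hy =>
      obtain ⟨e', he', b, rfl⟩ := hy
      calc (e * ExteriorAlgebra.ι ℚ a) * (e' * ExteriorAlgebra.ι ℚ b)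
          = e * (ExteriorAlgebra.ι ℚ a * e') * ExteriorAlgebra.ι ℚ b := by
            simp only [mul_assoc]
        _ = (e * e') * (ExteriorAlgebra.ι ℚ a * ExteriorAlgebra.ι ℚ b) := by
            rw [← Ev_comm he' (ExteriorAlgebra.ι ℚ a)]
            simp only [mul_assoc]
        _ = -((e' * e) * (ExteriorAlgebra.ι ℚ b * ExteriorAlgebra.ι ℚ a)) := by
            rw [ext_swap a b, Ev_comm he e', mul_neg]
        _ = -((e' * ExteriorAlgebra.ι ℚ b) * (e * ExteriorAlgebra.ι ℚ a)) := by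
            rw [mul_assoc, mul_assoc, ← mul_assoc e (ExteriorAlgebra.ι ℚ b),
              Ev_comm he (ExteriorAlgebra.ι ℚ b)]
            simp only [mul_assoc]
    | zero => simp
    | add y₁ y₂ _ _ h₁ h₂ => rw [mul_add, add_mul, h₁, h₂, neg_add]
    | smul c y _ h => rw [mul_smul_comm, smul_mul_assoc, h, smul_neg]
  | zero => simp
  | add x₁ x₂ _ _ h₁ h₂ => rw [mul_add, add_mul, h₁, h₂, neg_add]
  | smul c x _ h => rw [mul_smul_comm, smul_mul_assoc, h, smul_neg]

theorem Od_mul_Od {M : ℕ} {x y : Lam M} (hx : x ∈ Od M) (hy : y ∈ Od M) : x * y ∈ Ev M := by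
  induction hx using Submodule.span_induction with
  | mem x hx =>
    obtain ⟨e, he, a, rfl⟩ := hx
    induction hy using Submodule.span_induction with
    | mem y hy =>
      obtain ⟨e', he', b, rfl⟩ := hy
      have h1 : (e * ExteriorAlgebra.ι ℚ a) * (e' * ExteriorAlgebra.ι ℚ b) =
          (e * e') * (ExteriorAlgebra.ι ℚ a * ExteriorAlgebra.ι ℚ b) := by
        calc (e * ExteriorAlgebra.ι ℚ a) * (e' * ExteriorAlgebra.ι ℚ b)
            = e * (ExteriorAlgebra.ι ℚ a * e') * ExteriorAlgebra.ι ℚ b := by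
              simp only [mul_assoc]
          _ = (e * e') * (ExteriorAlgebra.ι ℚ a * ExteriorAlgebra.ι ℚ b) := by
              rw [← Ev_comm he' (ExteriorAlgebra.ι ℚ a)]
              simp only [mul_assoc]
      rw [h1]
      exact mul_mem (mul_mem he he') (Algebra.subset_adjoin ⟨a, b, rfl⟩)
    | zero => rw [mul_zero]; exact zero_mem _
    | add y₁ y₂ _ _ h₁ h₂ => rw [mul_add]; exact add_mem h₁ h₂
    | smul c y _ h => rw [mul_smul_comm]; exact Subalgebra.smul_mem _ h c
  | zero => rw [zero_mul]; exact zero_mem _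
  | add x₁ x₂ _ _ h₁ h₂ => rw [add_mul]; exact add_mem h₁ h₂
  | smul c x _ h => rw [smul_mul_assoc]; exact Subalgebra.smul_mem _ h c

theorem Ev_mul_Od {M : ℕ} {x y : Lam M} (hx : x ∈ Ev M) (hy : y ∈ Od M) : x * y ∈ Od M := by
  induction hy using Submodule.span_induction with
  | mem y hy =>
    obtain ⟨e', he', b, rfl⟩ := hy
    rw [← mul_assoc]
    exact Submodule.subset_span ⟨x * e', mul_mem hx he', b, rfl⟩
  | zero => rw [mul_zero]; exact zero_mem _
  | add y₁ y₂ _ _ h₁ h₂ => rw [mul_add]; exact add_mem h₁ h₂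
  | smul c y _ h => rw [mul_smul_comm]; exact Submodule.smul_mem _ c h

theorem h00 (L : Submodule ℚ R) (hL : LieClosed L) (M : ℕ) :
    ∀ x ∈ L0 L M, ∀ y ∈ L0 L M, x * y - y * x ∈ L0 L M := by
  intro x hx y hy
  induction hx using Submodule.span_induction with
  | mem x hx =>
    obtain ⟨l, hl, e, he, rfl⟩ := hx
    induction hy using Submodule.span_induction with
    | mem y hy =>
      obtain ⟨l', hl', e', he', rfl⟩ := hy
      rw [Algebra.TensorProduct.tmul_mul_tmul, Algebra.TensorProduct.tmul_mul_tmul,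
        Ev_comm he e', ← TensorProduct.sub_tmul]
      exact Submodule.subset_span ⟨_, hL l hl l' hl', _, mul_mem he' he, rfl⟩
    | zero => rw [mul_zero, zero_mul, sub_zero]; exact zero_mem _
    | add y₁ y₂ _ _ h₁ h₂ =>
      rw [mul_add, add_mul, add_sub_add_comm]; exact add_mem h₁ h₂
    | smul c y _ h =>
      rw [mul_smul_comm, smul_mul_assoc, ← smul_sub]; exact Submodule.smul_mem _ c h
  | zero => rw [mul_zero, zero_mul, sub_zero]; exact zero_mem _
  | add x₁ x₂ _ _ h₁ h₂ =>
    rw [mul_add, add_mul, add_sub_add_comm]; exact add_mem h₁ h₂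
  | smul c x _ h =>
    rw [mul_smul_comm, smul_mul_assoc, ← smul_sub]; exact Submodule.smul_mem _ c h

theorem h01 (L : Submodule ℚ R) (hL : LieClosed L) (M : ℕ) :
    ∀ x ∈ L0 L M, ∀ y ∈ L1 L M, x * y - y * x ∈ L1 L M := by
  intro x hx y hy
  induction hx using Submodule.span_induction with
  | mem x hx =>
    obtain ⟨l, hl, e, he, rfl⟩ := hx
    induction hy using Submodule.span_induction with
    | mem y hy =>
      obtain ⟨l', hl', o, ho, rfl⟩ := hy
      rw [Algebra.TensorProduct.tmul_mul_tmul, Algebra.TensorProduct.tmul_mul_tmul,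
        ← Ev_comm he o, ← TensorProduct.sub_tmul]
      exact Submodule.subset_span ⟨_, hL l hl l' hl', _, Ev_mul_Od he ho, rfl⟩
    | zero => rw [mul_zero, zero_mul, sub_zero]; exact zero_mem _
    | add y₁ y₂ _ _ h₁ h₂ =>
      rw [mul_add, add_mul, add_sub_add_comm]; exact add_mem h₁ h₂
    | smul c y _ h =>
      rw [mul_smul_comm, smul_mul_assoc, ← smul_sub]; exact Submodule.smul_mem _ c h
  | zero => rw [mul_zero, zero_mul, sub_zero]; exact zero_mem _
  | add x₁ x₂ _ _ h₁ h₂ =>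
    rw [mul_add, add_mul, add_sub_add_comm]; exact add_mem h₁ h₂
  | smul c x _ h =>
    rw [mul_smul_comm, smul_mul_assoc, ← smul_sub]; exact Submodule.smul_mem _ c h

theorem h11 (L : Submodule ℚ R) (hL : LieClosed L) (M : ℕ) :
    ∀ x ∈ L1 L M, ∀ y ∈ L1 L M, x * y + y * x ∈ L0 L M := by
  intro x hx y hy
  induction hx using Submodule.span_induction with
  | mem x hx =>
    obtain ⟨l, hl, o, ho, rfl⟩ := hx
    induction hy using Submodule.span_induction with
    | mem y hy =>
      obtain ⟨l', hl', o', ho', rfl⟩ := hy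
      rw [Algebra.TensorProduct.tmul_mul_tmul, Algebra.TensorProduct.tmul_mul_tmul,
        Od_anticomm ho' ho, TensorProduct.tmul_neg, ← sub_eq_add_neg, ← TensorProduct.sub_tmul]
      exact Submodule.subset_span ⟨_, hL l hl l' hl', _, Od_mul_Od ho ho', rfl⟩
    | zero => rw [mul_zero, zero_mul, add_zero]; exact zero_mem _
    | add y₁ y₂ _ _ h₁ h₂ =>
      rw [mul_add, add_mul, add_add_add_comm]; exact add_mem h₁ h₂
    | smul c y _ h =>
      rw [mul_smul_comm, smul_mul_assoc, ← smul_add]; exact Submodule.smul_mem _ c h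
  | zero => rw [mul_zero, zero_mul, add_zero]; exact zero_mem _
  | add x₁ x₂ _ _ h₁ h₂ =>
    rw [mul_add, add_mul, add_add_add_comm]; exact add_mem h₁ h₂
  | smul c x _ h =>
    rw [mul_smul_comm, smul_mul_assoc, ← smul_add]; exact Submodule.smul_mem _ c h

/-- A multilinear map that vanishes on a set vanishes on its span. -/
private theorem ext_multilinear_span {j : ℕ} {E W : Type*} [AddCommGroup E] [Module ℚ E]
    [AddCommGroup W] [Module ℚ W] (f : MultilinearMap ℚ (fun _ : Fin j => E) W) (S : Set E)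
    (h : ∀ y : Fin j → E, (∀ i, y i ∈ S) → f y = 0) (y : Fin j → E)
    (hy : ∀ i, y i ∈ Submodule.span ℚ S) : f y = 0 := by
  classical
  have key : ∀ T : Finset (Fin j), ∀ y : Fin j → E, (∀ i ∈ T, y i ∈ Submodule.span ℚ S) →
      (∀ i, i ∉ T → y i ∈ S) → f y = 0 := by
    intro T
    induction T using Finset.induction_on with
    | empty =>
      intro y _ h2
      exact h y fun i => h2 i (Finset.notMem_empty i)
    | insert a T ha ih =>
      intro y h1 h2
      have h3 : ∀ z ∈ Submodule.span ℚ S, f (Function.update y a z) = 0 := by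
        intro z hz
        induction hz using Submodule.span_induction with
        | mem z hz =>
          apply ih
          · intro i hi
            have hia : i ≠ a := fun e => ha (e ▸ hi)
            rw [Function.update_of_ne hia]
            exact h1 i (Finset.mem_insert_of_mem hi)
          · intro i hi
            by_cases hia : i = a
            · subst hia
              rw [Function.update_self]
              exact hz
            · rw [Function.update_of_ne hia]
              exact h2 i (by simp [hia, hi])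
        | zero => exact f.map_update_zero y a
        | add z₁ z₂ _ _ e₁ e₂ => rw [f.map_update_add, e₁, e₂, add_zero]
        | smul c z _ e => rw [f.map_update_smul, e, smul_zero]
      have := h3 (y a) (h1 a (Finset.mem_insert_self a T))
      rwa [Function.update_eq_self] at this
  exact key Finset.univ y (fun i _ => hy i) (fun i hi => absurd (Finset.mem_univ i) hi)

private theorem ext_prod_tmul {M N : ℕ} (f : Fin M → R) (g : Fin M → Lam N) :
    (List.ofFn fun t => f t ⊗ₜ[ℚ] g t).prod = (List.ofFn f).prod ⊗ₜ[ℚ] (List.ofFn g).prod := by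
  induction M with
  | zero => simp [Algebra.TensorProduct.one_def]
  | succ M ih =>
    rw [List.ofFn_succ, List.ofFn_succ, List.ofFn_succ, List.prod_cons, List.prod_cons,
      List.prod_cons, ih, Algebra.TensorProduct.tmul_mul_tmul]

private theorem ext_prod_central {M N : ℕ} (e x : Fin M → Lam N) (he : ∀ i, e i ∈ Ev N) :
    (List.ofFn fun t => e t * x t).prod = (List.ofFn e).prod * (List.ofFn x).prod := by
  induction M with
  | zero => simp
  | succ M ih =>
    rw [List.ofFn_succ, List.ofFn_succ, List.ofFn_succ, List.prod_cons, List.prod_cons,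
      List.prod_cons, ih (fun i => e i.succ) (fun i => x i.succ) (fun i => he i.succ)]
    have h1 : (List.ofFn fun i : Fin M => e i.succ).prod ∈ Ev N := by
      apply list_prod_mem
      intro z hz
      obtain ⟨i, rfl⟩ := (List.mem_ofFn' _ _).1 hz
      exact he _
    rw [mul_assoc, mul_assoc, ← mul_assoc (x 0), ← Ev_comm h1 (x 0), mul_assoc]

private theorem ext_L1_le (L : Submodule ℚ R) (M : ℕ) :
    L1 L M ≤ Submodule.span ℚ {x | ∃ l ∈ L, ∃ e ∈ Ev M, ∃ a : Fin M → ℚ,
      x = l ⊗ₜ[ℚ] (e * ExteriorAlgebra.ι ℚ a)} := by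
  apply Submodule.span_le.2
  rintro x ⟨l, hl, o, ho, rfl⟩
  show l ⊗ₜ[ℚ] o ∈ Submodule.span ℚ _
  induction ho using Submodule.span_induction with
  | mem o ho =>
    obtain ⟨e, he, a, rfl⟩ := ho
    exact Submodule.subset_span ⟨l, hl, e, he, a, rfl⟩
  | zero => rw [TensorProduct.tmul_zero]; exact zero_mem _
  | add o₁ o₂ _ _ h₁ h₂ => rw [TensorProduct.tmul_add]; exact add_mem h₁ h₂
  | smul c o _ h => rw [TensorProduct.tmul_smul]; exact Submodule.smul_mem _ c h

theorem halt {j : ℕ} (L : Submodule ℚ R) (hidx : Index L j) (M : ℕ) :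
    ∀ y : Fin j → R ⊗[ℚ] Lam M, (∀ i, y i ∈ L1 L M) →
      ∑ σ : Equiv.Perm (Fin j), ((Equiv.Perm.sign σ : ℤ)) • (List.ofFn (y ∘ σ)).prod = 0 := by
  intro y hy
  let F : MultilinearMap ℚ (fun _ : Fin j => R ⊗[ℚ] Lam M) (R ⊗[ℚ] Lam M) :=
    ((MultilinearMap.alternatization
      (MultilinearMap.mkPiAlgebraFin ℚ j (R ⊗[ℚ] Lam M))) :
        (R ⊗[ℚ] Lam M) [⋀^Fin j]→ₗ[ℚ] (R ⊗[ℚ] Lam M)).toMultilinearMap
  have hF : ∀ y : Fin j → R ⊗[ℚ] Lam M, F y =
      ∑ σ : Equiv.Perm (Fin j), ((Equiv.Perm.sign σ : ℤ)) • (List.ofFn (y ∘ σ)).prod := by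
    intro y
    show (MultilinearMap.alternatization
      (MultilinearMap.mkPiAlgebraFin ℚ j (R ⊗[ℚ] Lam M))) y = _
    rw [MultilinearMap.alternatization_apply]
    apply Finset.sum_congr rfl
    intro σ _
    rw [Units.smul_def]
    rfl
  rw [← hF]
  apply ext_multilinear_span F _ _ y (fun i => ext_L1_le L M (hy i))
  intro z hz
  choose l hl e he a hz using hz
  rw [hF]
  have h1 : ∀ σ : Equiv.Perm (Fin j), ((Equiv.Perm.sign σ : ℤ)) • (List.ofFn (z ∘ σ)).prod =
      (List.ofFn (l ∘ σ)).prod ⊗ₜ[ℚ]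
        ((List.ofFn e).prod * ExteriorAlgebra.ιMulti ℚ j a) := by
    intro σ
    have e1 : z ∘ σ = fun t => (l ∘ σ) t ⊗ₜ[ℚ]
        ((e ∘ σ) t * (ExteriorAlgebra.ι ℚ (a (σ t)) : Lam M)) := by
      funext t
      exact hz (σ t)
    rw [e1, ext_prod_tmul, ext_prod_central (e ∘ σ) _ (fun i => he (σ i))]
    have e2 : (List.ofFn (e ∘ σ)).prod = (List.ofFn e).prod := by
      apply List.Perm.prod_eq' (Equiv.Perm.ofFn_comp_perm σ e)
      rw [List.pairwise_ofFn]
      intro i k _
      exact Ev_comm (he (σ i)) _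
    have e3 : (List.ofFn fun t => (ExteriorAlgebra.ι ℚ (a (σ t)) : Lam M)).prod =
        Equiv.Perm.sign σ • ExteriorAlgebra.ιMulti ℚ j a := by
      rw [← AlternatingMap.map_perm, ExteriorAlgebra.ιMulti_apply]
      rfl
    rw [e2, e3, Units.smul_def, mul_smul_comm, TensorProduct.tmul_smul, smul_smul]
    have e4 : ((Equiv.Perm.sign σ : ℤ)) * ((Equiv.Perm.sign σ : ℤ)) = 1 := by
      rw [← Units.val_mul, Int.units_mul_self, Units.val_one]
    rw [e4, one_smul]
  rw [Finset.sum_congr rfl (fun σ _ => h1 σ), ← TensorProduct.sum_tmul,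
    sum_perm_prod L hidx l hl, TensorProduct.zero_tmul]

end Pool.Agent.Lib.MP_7ac902_al.Z
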