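import Pool.Agent.Lib.MP_7ac902_al.Z.Ext

set_option autoImplicit false

namespace Pool.Agent.Lib.MP_7ac902_al.Z

open Finset TensorProduct

/-- A multilinear map which vanishes on a set vanishes on its span. -/
private theorem extE_multilinear_span {n : ℕ} {E W : Type*} [AddCommGroup E] [Module ℚ E]
    [AddCommGroup W] [Module ℚ W] (g : MultilinearMap ℚ (fun _ : Fin n => E) W) (s : Set E)
    (h : ∀ x : Fin n → E, (∀ i, x i ∈ s) → g x = 0) (x : Fin n → E)
    (hx : ∀ i, x i ∈ Submodule.span ℚ s) : g x = 0 := by
  classical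
  have key : ∀ (T : Finset (Fin n)) (x : Fin n → E), (∀ i ∈ T, x i ∈ Submodule.span ℚ s) →
      (∀ i, i ∉ T → x i ∈ s) → g x = 0 := by
    intro T
    induction T using Finset.induction_on with
    | empty => intro x _ h2; exact h x fun i => h2 i (by simp)
    | insert a T ha ih =>
      intro x h1 h2
      have h3 : ∀ v ∈ Submodule.span ℚ s, g (Function.update x a v) = 0 := by
        intro v hv
        induction hv using Submodule.span_induction with
        | mem v hv =>
          refine ih _ (fun i hi => ?_) fun i hi => ?_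
          · have hia : i ≠ a := fun e => ha (e ▸ hi)
            rw [Function.update_of_ne hia]
            exact h1 i (Finset.mem_insert_of_mem hi)
          · by_cases hia : i = a
            · subst hia
              rw [Function.update_self]
              exact hv
            · rw [Function.update_of_ne hia]
              refine h2 i fun hi2 => ?_
              rcases Finset.mem_insert.1 hi2 with h4 | h4
              · exact hia h4
              · exact hi h4
        | zero => exact g.map_update_zero x a
        | add v w _ _ hv hw => rw [g.map_update_add, hv, hw, add_zero]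
        | smul c v _ hv => rw [g.map_update_smul, hv, smul_zero]
      have h4 := h3 (x a) (h1 a (Finset.mem_insert_self a T))
      rwa [Function.update_eq_self] at h4
  exact key Finset.univ x (fun i _ => hx i) fun i hi => absurd (Finset.mem_univ i) hi

section Central

variable {A : Type*} [Ring A] [Algebra ℚ A]

/-- The products of a central element and an element of `P`. -/
private def extE_set (P : Submodule ℚ A) : Set A :=
  {x | ∃ z : Subalgebra.center ℚ A, ∃ y ∈ P, x = (z : A) * y}

/-- A form which vanishes on `P` and is linear over the centre vanishes on the span of the products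
of central elements and elements of `P`. -/
private theorem extE_central {n : ℕ} (F : MultilinearMap ℚ (fun _ : Fin n => A) A)
    (hF : ∀ (z : Fin n → Subalgebra.center ℚ A) (y : Fin n → A),
      F (fun i => (z i : A) * y i) = ((∏ i, z i : Subalgebra.center ℚ A) : A) * F y)
    (P : Submodule ℚ A) (h : ∀ v ∈ P, F (fun _ => v) = 0) (x : A)
    (hx : x ∈ Submodule.span ℚ (extE_set P)) : F (fun _ => x) = 0 := by
  classical
  have hsym : ∀ y : Fin n → A, (∀ i, y i ∈ P) → ∑ τ : Equiv.Perm (Fin n), F (y ∘ τ) = 0 := by
    intro y hy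
    have h1 := polarization F P Finset.univ y hy (by simpa using h)
    have h2 : suppPerm (Finset.univ : Finset (Fin n)) = Finset.univ := by
      simp [suppPerm]
    rwa [h2] at h1
  let S : MultilinearMap ℚ (fun _ : Fin n => A) A :=
    ∑ τ : Equiv.Perm (Fin n), F.domDomCongr τ
  have hS : ∀ y, S y = ∑ τ : Equiv.Perm (Fin n), F (y ∘ τ) := by
    intro y
    simp only [S, MultilinearMap.sum_apply, MultilinearMap.domDomCongr_apply]
    rfl
  have h1 : S (fun _ => x) = 0 := by
    refine extE_multilinear_span S (extE_set P) (fun y hy => ?_) _ fun _ => hx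
    choose z y' hy' hzy using hy
    have hy2 : y = fun i => (z i : A) * y' i := funext hzy
    rw [hS, hy2]
    have h3 : ∀ τ : Equiv.Perm (Fin n), F ((fun i => (z i : A) * y' i) ∘ τ) =
        ((∏ i, z i : Subalgebra.center ℚ A) : A) * F (y' ∘ τ) := by
      intro τ
      have h4 := hF (z ∘ τ) (y' ∘ τ)
      have h5 : (∏ i, (z ∘ τ) i) = ∏ i, z i := Equiv.prod_comp τ z
      rw [h5] at h4
      exact h4
    simp only [h3]
    rw [← Finset.mul_sum, hsym y' hy', mul_zero]
  rw [hS] at h1
  have h2 : ∀ τ : Equiv.Perm (Fin n), F ((fun _ : Fin n => x) ∘ τ) = F (fun _ => x) := fun _ => rfl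
  simp only [h2] at h1
  rw [Finset.sum_const, ← Nat.cast_smul_eq_nsmul ℚ, smul_eq_zero] at h1
  rcases h1 with h1 | h1
  · exfalso
    rw [Nat.cast_eq_zero, Finset.card_eq_zero] at h1
    exact Finset.univ_nonempty.ne_empty h1
  · exact h1

/-- The form `∏ a x_i b c_i`. -/
private noncomputable def extE_form {n : ℕ} (a b : A) (c : Fin n → A) :
    MultilinearMap ℚ (fun _ : Fin n => A) A :=
  (MultilinearMap.mkPiAlgebraFin ℚ n A).compLinearMap fun i =>
    (LinearMap.mulRight ℚ (b * c i)).comp (LinearMap.mulLeft ℚ a)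

private theorem extE_form_apply {n : ℕ} (a b : A) (c x : Fin n → A) :
    extE_form a b c x = (List.ofFn fun i => a * x i * (b * c i)).prod := by
  unfold extE_form
  rw [MultilinearMap.compLinearMap_apply, MultilinearMap.mkPiAlgebraFin_apply]
  rfl

private theorem extE_form_central {n : ℕ} (a b : A) (c : Fin n → A)
    (z : Fin n → Subalgebra.center ℚ A) (y : Fin n → A) :
    extE_form a b c (fun i => (z i : A) * y i) =
      ((∏ i, z i : Subalgebra.center ℚ A) : A) * extE_form a b c y := by
  rw [extE_form_apply, extE_form_apply]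
  induction n with
  | zero => simp
  | succ n ih =>
    rw [List.ofFn_succ, List.ofFn_succ, List.prod_cons, List.prod_cons, Fin.prod_univ_succ,
      ih (fun i => c i.succ) (fun i => z i.succ) fun i => y i.succ]
    have hc : ∀ (w : Subalgebra.center ℚ A) (u : A), u * (w : A) = (w : A) * u := fun w u =>
      Subalgebra.mem_center_iff.1 w.2 u
    have h1 : a * ((z 0 : A) * y 0) * (b * c 0) = (z 0 : A) * (a * y 0 * (b * c 0)) := by
      rw [← mul_assoc a, hc (z 0) a]
      simp only [mul_assoc]
    have h2 : ∀ (w : Subalgebra.center ℚ A) (u Q : A), u * ((w : A) * Q) = (w : A) * (u * Q) := by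
      intro w u Q
      rw [← mul_assoc, hc w u, mul_assoc]
    rw [Subalgebra.coe_mul, h1, mul_assoc (z 0 : A), h2, ← mul_assoc (z 0 : A)]

end Central

variable {R : Type} [Ring R] [Algebra ℚ R]

/-- The map `x ↦ x ⊗ 1`. -/
private noncomputable abbrev extE_inc (R : Type) [Ring R] [Algebra ℚ R] (M : ℕ) :
    R →ₐ[ℚ] R ⊗[ℚ] Lam M :=
  Algebra.TensorProduct.includeLeft

private theorem extE_center {M : ℕ} {e : Lam M} (he : e ∈ Ev M) :
    (1 : R) ⊗ₜ[ℚ] e ∈ Subalgebra.center ℚ (R ⊗[ℚ] Lam M) := by
  rw [Subalgebra.mem_center_iff]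
  intro b
  induction b using TensorProduct.induction_on with
  | zero => simp
  | tmul r l =>
    rw [Algebra.TensorProduct.tmul_mul_tmul, Algebra.TensorProduct.tmul_mul_tmul, one_mul, mul_one,
      Ev_comm he]
  | add x y hx hy => rw [add_mul, mul_add, hx, hy]

private theorem extE_L0_le (L : Submodule ℚ R) (M : ℕ) :
    L0 L M ≤ Submodule.span ℚ (extE_set (L.map (extE_inc R M).toLinearMap)) := by
  unfold L0
  rw [Submodule.span_le]
  rintro x ⟨l, hl, e, he, rfl⟩
  refine Submodule.subset_span ⟨⟨_, extE_center he⟩, (extE_inc R M) l, ⟨l, hl, rfl⟩, ?_⟩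
  show l ⊗ₜ[ℚ] e = ((1 : R) ⊗ₜ[ℚ] e) * (l ⊗ₜ[ℚ] (1 : Lam M))
  rw [Algebra.TensorProduct.tmul_mul_tmul, one_mul, mul_one]

private theorem extE_lift {M : ℕ} (L : Submodule ℚ R) (v : List (R ⊗[ℚ] Lam M))
    (hv : ∀ x ∈ v, x ∈ L.map (extE_inc R M).toLinearMap) :
    ∃ v' : List R, (∀ x ∈ v', x ∈ L) ∧ v = v'.map (extE_inc R M) := by
  induction v with
  | nil => exact ⟨[], by simp, rfl⟩
  | cons x v ih =>
    obtain ⟨v', h1, h2⟩ := ih fun y hy => hv y (List.mem_cons_of_mem _ hy)
    obtain ⟨x', hx', hx⟩ := hv x List.mem_cons_self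
    refine ⟨x' :: v', ?_, ?_⟩
    · intro y hy
      rcases List.mem_cons.1 hy with rfl | hy
      · exact hx'
      · exact h1 y hy
    · rw [List.map_cons, ← h2, ← hx]
      rfl

/-- The case of elements of `L ⊗ 1`. -/
private theorem extE_base {k n : ℕ} (L : Submodule ℚ R) (hE : EProp L k n) (M : ℕ)
    (v : List (R ⊗[ℚ] Lam M)) (hlen : v.length = k)
    (hv : ∀ x ∈ v, x ∈ L.map (extE_inc R M).toLinearMap) : NilAt v.prod n := by
  obtain ⟨v', h1, rfl⟩ := extE_lift L v hv
  rw [List.length_map] at hlen
  subst hlen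
  have h2 : NilAt v'.prod n := by
    have h3 := hE (fun i => v'.get i) fun i => h1 _ (List.get_mem v' i)
    rwa [List.ofFn_get] at h3
  rw [← map_list_prod]
  intro c
  have h4 := extE_multilinear_span (extE_form (extE_inc R M v'.prod) 1
    (fun _ : Fin n => (1 : R ⊗[ℚ] Lam M))) {x | ∃ (r : R) (l : Lam M), x = r ⊗ₜ[ℚ] l} ?_ c ?_
  · rw [extE_form_apply] at h4
    simpa using h4
  · intro x hx
    choose r l hrl using hx
    rw [extE_form_apply]
    have h5 : ∀ (m : ℕ) (r : Fin m → R) (l : Fin m → Lam M),
        (List.ofFn fun i => extE_inc R M v'.prod * (r i ⊗ₜ[ℚ] l i) * (1 * 1)).prod =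
          (List.ofFn fun i => v'.prod * r i).prod ⊗ₜ[ℚ] (List.ofFn l).prod := by
      intro m
      induction m with
      | zero => intro r l; simp [Algebra.TensorProduct.one_def]
      | succ m ih =>
        intro r l
        rw [List.ofFn_succ, List.prod_cons, ih, List.ofFn_succ, List.prod_cons, List.ofFn_succ,
          List.prod_cons, mul_one, mul_one]
        show (v'.prod ⊗ₜ[ℚ] (1 : Lam M)) * (r 0 ⊗ₜ[ℚ] l 0) * _ = _
        rw [Algebra.TensorProduct.tmul_mul_tmul, Algebra.TensorProduct.tmul_mul_tmul, one_mul]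
    simp only [hrl]
    rw [h5, h2 r, TensorProduct.zero_tmul]
  · intro i
    have h6 : Submodule.span ℚ {x : R ⊗[ℚ] Lam M | ∃ (r : R) (l : Lam M), x = r ⊗ₜ[ℚ] l} = ⊤ := by
      rw [← TensorProduct.span_tmul_eq_top]
      congr 1
      ext x
      constructor
      · rintro ⟨r, l, rfl⟩; exact ⟨r, l, rfl⟩
      · rintro ⟨r, l, rfl⟩; exact ⟨r, l, rfl⟩
    rw [h6]
    exact Submodule.mem_top

private theorem extE_step {k n : ℕ} (L : Submodule ℚ R) (hE : EProp L k n) (M : ℕ) (m : ℕ) :
    ∀ (u v : List (R ⊗[ℚ] Lam M)), u.length = m → u.length + v.length = k →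
      (∀ x ∈ u, x ∈ L0 L M) → (∀ x ∈ v, x ∈ L.map (extE_inc R M).toLinearMap) →
      NilAt (u ++ v).prod n := by
  induction m with
  | zero =>
    intro u v hu hk _ hv
    have hu0 : u = [] := List.eq_nil_of_length_eq_zero hu
    subst hu0
    exact extE_base L hE M v (by simpa using hk) hv
  | succ m ih =>
    intro u v hu hk hu2 hv c
    rcases List.eq_nil_or_concat u with rfl | ⟨u', x, rfl⟩
    · simp at hu
    · rw [List.concat_eq_append] at hu hk hu2 ⊢
      have h1 := extE_central (extE_form u'.prod v.prod c) (extE_form_central _ _ _)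
        (L.map (extE_inc R M).toLinearMap) (fun y hy => ?_) x
        (extE_L0_le L M (hu2 x (by simp)))
      · rw [extE_form_apply] at h1
        rw [← h1]
        congr 1
        apply congrArg
        funext i
        rw [List.prod_append, List.prod_append, List.prod_singleton, mul_assoc]
      · rw [extE_form_apply]
        have h2 := ih u' (y :: v) (by simpa using hu) (by simpa [add_assoc, add_comm 1] using hk)
          (fun z hz => hu2 z (by simp [hz])) (fun z hz => by
            rcases List.mem_cons.1 hz with rfl | hz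
            · exact hy
            · exact hv z hz) c
        rw [← h2]
        congr 1
        apply congrArg
        funext i
        rw [List.prod_append, List.prod_cons]
        simp only [mul_assoc]

/-- `E(k)` passes to `L ⊗ Λ₀`. -/
theorem eProp_ext {k n : ℕ} (L : Submodule ℚ R) (hE : EProp L k n) (M : ℕ) :
    EProp (L0 L M) k n := by
  intro l hl
  have h := extE_step L hE M k (List.ofFn l) [] (by simp) (by simp)
    (fun x hx => by
      rw [List.mem_ofFn] at hx
      obtain ⟨i, rfl⟩ := hx
      exact hl i) (by simp)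
  rwa [List.append_nil] at h

end Pool.Agent.Lib.MP_7ac902_al.Z
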