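import Mathlib

set_option autoImplicit false

namespace Pool.Agent.Lib.MP_7ac902_al.Z

/-- The `n`-Engel law, with `[z, y] = z⁻¹ y⁻¹ z y`. -/
def Engel (n : ℕ) (G : Type*) [Group G] : Prop :=
  ∀ x y : G, (fun z : G => z⁻¹ * y⁻¹ * z * y)^[n] x = 1

/-- Torsion-free. -/
def TF (G : Type*) [Group G] : Prop := ∀ (g : G) (k : ℕ), 0 < k → g ^ k = 1 → g = 1

theorem Engel.of_injective {n : ℕ} {G H : Type*} [Group G] [Group H] (hE : Engel n G)
    (f : H →* G) (hf : Function.Injective f) : Engel n H := by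
  intro x y
  apply hf
  rw [map_one, ← hE (f x) (f y)]
  have key : ∀ k : ℕ, f ((fun z : H => z⁻¹ * y⁻¹ * z * y)^[k] x) =
      (fun z : G => z⁻¹ * (f y)⁻¹ * z * f y)^[k] (f x) := by
    intro k
    induction k with
    | zero => rfl
    | succ k ih =>
      rw [Function.iterate_succ_apply', Function.iterate_succ_apply', ← ih]
      simp only [map_mul, map_inv]
  exact key n

theorem Engel.of_surjective {n : ℕ} {G H : Type*} [Group G] [Group H] (hE : Engel n G)
    (f : G →* H) (hf : Function.Surjective f) : Engel n H := by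
  intro x' y'
  obtain ⟨x, rfl⟩ := hf x'
  obtain ⟨y, rfl⟩ := hf y'
  have key : ∀ k : ℕ, f ((fun z : G => z⁻¹ * y⁻¹ * z * y)^[k] x) =
      (fun z : H => z⁻¹ * (f y)⁻¹ * z * f y)^[k] (f x) := by
    intro k
    induction k with
    | zero => rfl
    | succ k ih =>
      rw [Function.iterate_succ_apply', Function.iterate_succ_apply', ← ih]
      simp only [map_mul, map_inv]
  rw [← key n, hE, map_one]

end Pool.Agent.Lib.MP_7ac902_al.Z
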