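import Pool.Agent.Lib.MP_7ac902_al.Z.Gr
import Pool.Agent.Lib.MP_7ac902_al.Z.GrpDefs

set_option autoImplicit false

namespace Pool.Agent.Lib.MP_7ac902_al.Z

open scoped TensorProduct commutatorElement

/-! ## powers of spans -/

private theorem TfNil_pow_bot {R A ι : Type*} [CommSemiring R] [Semiring A] [Algebra R A]
    (f : ι → A) (k : ℕ) :
    (Submodule.span R (Set.range f)) ^ k = ⊥ ↔
      ∀ g : Fin k → ι, (List.ofFn fun i => f (g i)).prod = 0 := by
  rw [Submodule.span_pow, Submodule.span_eq_bot]
  constructor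
  · intro h g
    apply h
    rw [Set.mem_pow]
    exact ⟨fun i => ⟨f (g i), g i, rfl⟩, rfl⟩
  · intro h x hx
    rw [Set.mem_pow] at hx
    obtain ⟨u, rfl⟩ := hx
    choose g hg using fun i => (u i).2
    rw [← h g]
    congr 2
    funext i
    exact (hg i).symm

private theorem TfNil_transfer {ι : Type*} {M : Type*} [AddCommGroup M] [Module.Flat ℤ M]
    (α : ι → Module.End ℤ M) (k : ℕ) :
    (Submodule.span ℤ (Set.range α)) ^ k = ⊥ ↔
      (Submodule.span ℚ (Set.range fun g => Module.End.baseChangeHom ℤ ℚ M (α g))) ^ k = ⊥ := by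
  rw [TfNil_pow_bot, TfNil_pow_bot]
  apply forall_congr'
  intro g
  have h1 : (List.ofFn fun i => Module.End.baseChangeHom ℤ ℚ M (α (g i))).prod =
      Module.End.baseChangeHom ℤ ℚ M (List.ofFn fun i => α (g i)).prod := by
    rw [map_list_prod, List.map_ofFn]
    rfl
  rw [h1]
  constructor
  · intro h
    rw [h, map_zero]
  · intro h
    apply LinearMap.baseChangeHom_injective ℤ M ℚ
    rw [map_zero]
    exact h

private theorem TfNil_rep {n N : ℕ} (hP : NilPair n N) {G : Type*} [Group G] {M : Type}
    [AddCommGroup M] [Module.Flat ℤ M] (α : G →* Module.End ℤ M) (hα : ∀ g, (α g - 1) ^ n = 0)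
    (hs : ∃ s, (Submodule.span ℤ (Set.range fun g => α g - 1)) ^ s = ⊥) :
    (Submodule.span ℤ (Set.range fun g => α g - 1)) ^ N = ⊥ := by
  let ρ : G →* Module.End ℚ (ℚ ⊗[ℤ] M) :=
    ((Module.End.baseChangeHom ℤ ℚ M : Module.End ℤ M →ₐ[ℤ] Module.End ℚ (ℚ ⊗[ℤ] M)) :
      Module.End ℤ M →* Module.End ℚ (ℚ ⊗[ℤ] M)).comp α
  have hρ : ∀ g, ρ g - 1 = Module.End.baseChangeHom ℤ ℚ M (α g - 1) := by
    intro g
    rw [map_sub, map_one]
    rfl
  have hr : (Set.range fun g => ρ g - 1) =
      Set.range fun g => Module.End.baseChangeHom ℤ ℚ M (α g - 1) := by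
    congr 1
    funext g
    exact hρ g
  rw [TfNil_transfer, ← hr]
  apply unipotent_nil hP ρ
  · intro g
    rw [hρ, ← map_pow, hα, map_zero]
  · obtain ⟨s, hs⟩ := hs
    refine ⟨s, ?_⟩
    rw [TfNil_transfer, ← hr] at hs
    exact hs

/-! ## the lower central series acts with higher powers -/

private theorem TfNil_D_mul {G B : Type*} [Group G] [Ring B] (α : G →* B) (k : ℕ) {d : B}
    (hd : d ∈ (Submodule.span ℤ (Set.range fun g => α g - 1)) ^ (k + 1)) (g : G) :
    d * α g ∈ (Submodule.span ℤ (Set.range fun g => α g - 1)) ^ (k + 1) := by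
  have h1 : ∀ x ∈ Submodule.span ℤ (Set.range fun g => α g - 1),
      x * α g ∈ Submodule.span ℤ (Set.range fun g => α g - 1) := by
    intro x hx
    induction hx using Submodule.span_induction with
    | mem x hx =>
      obtain ⟨h, rfl⟩ := hx
      have h2 : (α h - 1) * α g = (α (h * g) - 1) - (α g - 1) := by
        rw [map_mul]
        noncomm_ring
      show (α h - 1) * α g ∈ _
      rw [h2]
      exact Submodule.sub_mem _ (Submodule.subset_span ⟨_, rfl⟩) (Submodule.subset_span ⟨_, rfl⟩)
    | zero => rw [zero_mul]; exact Submodule.zero_mem _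
    | add x y _ _ hx hy => rw [add_mul]; exact Submodule.add_mem _ hx hy
    | smul c x _ hx => rw [smul_mul_assoc]; exact Submodule.smul_mem _ _ hx
  rw [pow_succ] at hd ⊢
  induction hd using Submodule.mul_induction_on' with
  | mem_mul_mem m hm x hx =>
    rw [mul_assoc]
    exact Submodule.mul_mem_mul hm (h1 x hx)
  | add x _ y _ hx hy => rw [add_mul]; exact Submodule.add_mem _ hx hy

private theorem TfNil_lcs {G B : Type*} [Group G] [Ring B] (α : G →* B) (i : ℕ) :
    ∀ g ∈ (⊤ : Subgroup G).lowerCentralSeries i,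
      α g - 1 ∈ (Submodule.span ℤ (Set.range fun g => α g - 1)) ^ (i + 1) := by
  have hinv : ∀ g : G, α g * α g⁻¹ = 1 := by
    intro g
    rw [← map_mul, mul_inv_cancel, map_one]
  have hinv' : ∀ g : G, α g⁻¹ * α g = 1 := by
    intro g
    rw [← map_mul, inv_mul_cancel, map_one]
  induction i with
  | zero =>
    intro g _
    rw [zero_add, pow_one]
    exact Submodule.subset_span ⟨g, rfl⟩
  | succ i ih =>
    let P : Subgroup G :=
      { carrier := {g | α g - 1 ∈ (Submodule.span ℤ (Set.range fun g => α g - 1)) ^ (i + 1 + 1)}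
        one_mem' := by
          show α 1 - 1 ∈ (Submodule.span ℤ (Set.range fun g => α g - 1)) ^ (i + 1 + 1)
          rw [map_one, sub_self]
          exact Submodule.zero_mem _
        mul_mem' := by
          intro g h hg hh
          show α (g * h) - 1 ∈ (Submodule.span ℤ (Set.range fun g => α g - 1)) ^ (i + 1 + 1)
          have h1 : α (g * h) - 1 = (α g - 1) * α h + (α h - 1) := by
            rw [map_mul]
            noncomm_ring
          rw [h1]
          exact Submodule.add_mem _ (TfNil_D_mul α (i + 1) hg h) hh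
        inv_mem' := by
          intro g hg
          show α g⁻¹ - 1 ∈ (Submodule.span ℤ (Set.range fun g => α g - 1)) ^ (i + 1 + 1)
          have h1 : α g⁻¹ - 1 = -((α g - 1) * α g⁻¹) := by
            rw [sub_mul, hinv, one_mul, neg_sub]
          rw [h1]
          exact Submodule.neg_mem _ (TfNil_D_mul α (i + 1) hg _) }
    have hP : (⊤ : Subgroup G).lowerCentralSeries (i + 1) ≤ P := by
      rw [Subgroup.lowerCentralSeries_succ, Subgroup.commutator_le]
      intro g hg h _
      show α ⁅g, h⁆ - 1 ∈ (Submodule.span ℤ (Set.range fun g => α g - 1)) ^ (i + 1 + 1)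
      have h1 : α ⁅g, h⁆ - 1 =
          ((α g - 1) * (α h - 1) - (α h - 1) * (α g - 1)) * α g⁻¹ * α h⁻¹ := by
        have h2 : (α g - 1) * (α h - 1) - (α h - 1) * (α g - 1) = α g * α h - α h * α g := by
          noncomm_ring
        rw [h2, commutatorElement_def, map_mul, map_mul, map_mul, sub_mul, sub_mul,
          mul_assoc (α h) (α g), hinv, mul_one, hinv]
      rw [h1]
      apply TfNil_D_mul
      apply TfNil_D_mul
      have hh : α h - 1 ∈ Submodule.span ℤ (Set.range fun g => α g - 1) :=
        Submodule.subset_span ⟨h, rfl⟩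
      apply Submodule.sub_mem
      · rw [pow_succ]
        exact Submodule.mul_mem_mul (ih g hg) hh
      · rw [pow_succ']
        exact Submodule.mul_mem_mul hh (ih g hg)
    intro g hg
    exact hP hg

/-! ## maximal abelian normal subgroups -/

private theorem TfNil_max (G : Type*) [Group G] [Group.IsNilpotent G] :
    ∃ A : Subgroup G, A.Normal ∧ (∀ x ∈ A, ∀ y ∈ A, x * y = y * x) ∧
      ∀ z : G, (∀ x ∈ A, x * z = z * x) → z ∈ A := by
  obtain ⟨A, -, hA⟩ := zorn_le_nonempty₀
    {A : Subgroup G | A.Normal ∧ ∀ x ∈ A, ∀ y ∈ A, x * y = y * x} (by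
      intro c hc hchain y hy
      have hdir : DirectedOn (· ≤ ·) c := hchain.directedOn
      refine ⟨sSup c, ⟨⟨?_⟩, ?_⟩, fun z hz => le_sSup hz⟩
      · intro x hx g
        rw [Subgroup.mem_sSup_of_directedOn ⟨y, hy⟩ hdir] at hx ⊢
        obtain ⟨s, hs, hxs⟩ := hx
        exact ⟨s, hs, (hc hs).1.conj_mem x hxs g⟩
      · intro x hx z hz
        rw [Subgroup.mem_sSup_of_directedOn ⟨y, hy⟩ hdir] at hx hz
        obtain ⟨s, hs, hxs⟩ := hx
        obtain ⟨t, ht, hzt⟩ := hz
        obtain ⟨u, hu, hsu, htu⟩ := hdir s hs t ht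
        exact (hc hu).2 x (hsu hxs) z (htu hzt))
    ⊥ (by
      refine ⟨inferInstance, ?_⟩
      intro x hx y hy
      rw [Subgroup.mem_bot] at hx hy
      rw [hx, hy])
  obtain ⟨hn, hcomm⟩ := hA.prop
  refine ⟨A, hn, hcomm, ?_⟩
  by_contra hcon
  push Not at hcon
  -- least term of the upper central series which meets the centralizer outside `A`
  have hex : ∃ i, ∃ z ∈ Subgroup.upperCentralSeries G i, (∀ x ∈ A, x * z = z * x) ∧ z ∉ A := by
    obtain ⟨z, hz1, hz2⟩ := hcon
    obtain ⟨m, hm⟩ := Group.IsNilpotent.nilpotent G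
    refine ⟨m, z, ?_, hz1, hz2⟩
    rw [hm]
    exact Subgroup.mem_top z
  classical
  obtain ⟨z, hz1, hz2, hz3⟩ := Nat.find_spec hex
  have hmin : ∀ j < Nat.find hex, ∀ w ∈ Subgroup.upperCentralSeries G j,
      (∀ x ∈ A, x * w = w * x) → w ∈ A := by
    intro j hj w hw1 hw2
    by_contra hw3
    exact Nat.find_min hex hj ⟨w, hw1, hw2, hw3⟩
  obtain ⟨i, hi⟩ : ∃ i, Nat.find hex = i + 1 := by
    rcases h : Nat.find hex with _ | i
    · rw [h] at hz1
      have : z = 1 := by simpa using hz1
      exact absurd (this ▸ A.one_mem) hz3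
    · exact ⟨i, rfl⟩
  rw [hi] at hz1
  have hzA : ∀ g : G, g * z * g⁻¹ * z⁻¹ ∈ A := by
    intro g
    apply hmin i (by omega)
    · have h1 := Subgroup.mem_upperCentralSeries_succ_iff.1 hz1 g
      have h2 := Subgroup.inv_mem _ h1
      rw [commutatorElement_inv, commutatorElement_def] at h2
      exact h2
    · intro x hx
      have h1 : ∀ y ∈ A, Commute y z := fun y hy => hz2 y hy
      have h2 : ∀ y ∈ A, Commute y (g * z * g⁻¹) := by
        intro y hy
        have h3 := h1 (g⁻¹ * y * g) (by
          have := hn.conj_mem y hy g⁻¹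
          rwa [inv_inv] at this)
        show y * (g * z * g⁻¹) = g * z * g⁻¹ * y
        have h4 : g⁻¹ * y * g * z = z * (g⁻¹ * y * g) := h3
        calc y * (g * z * g⁻¹) = g * (g⁻¹ * y * g * z) * g⁻¹ := by group
          _ = g * (z * (g⁻¹ * y * g)) * g⁻¹ := by rw [h4]
          _ = g * z * g⁻¹ * y := by group
      exact ((h2 x hx).mul_right (h1 x hx).inv_right)
  -- the larger subgroup
  have hcz : ∀ a ∈ A, ∀ k : ℤ, Commute a (z ^ k) := fun a ha k =>
    (show Commute a z from hz2 a ha).zpow_right k
  let A' : Subgroup G :=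
    { carrier := {y | ∃ a ∈ A, ∃ k : ℤ, y = a * z ^ k}
      one_mem' := ⟨1, A.one_mem, 0, by simp⟩
      mul_mem' := by
        rintro _ _ ⟨a, ha, k, rfl⟩ ⟨b, hb, l, rfl⟩
        refine ⟨a * b, A.mul_mem ha hb, k + l, ?_⟩
        have h1 : b * z ^ k = z ^ k * b := hcz b hb k
        rw [zpow_add, mul_assoc a, ← mul_assoc (z ^ k), ← h1]
        simp only [mul_assoc]
      inv_mem' := by
        rintro _ ⟨a, ha, k, rfl⟩
        refine ⟨a⁻¹, A.inv_mem ha, -k, ?_⟩
        have h1 : a * z ^ k = z ^ k * a := hcz a ha k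
        rw [h1, mul_inv_rev, zpow_neg] }
  have hA' : A' ∈ {A : Subgroup G | A.Normal ∧ ∀ x ∈ A, ∀ y ∈ A, x * y = y * x} := by
    refine ⟨⟨?_⟩, ?_⟩
    · rintro _ ⟨a, ha, k, rfl⟩ g
      have h1 : g * z * g⁻¹ = (g * z * g⁻¹ * z⁻¹) * z := by group
      have h2 : Commute (g * z * g⁻¹ * z⁻¹) z := hz2 _ (hzA g)
      have h3 : g * z ^ k * g⁻¹ = (g * z * g⁻¹ * z⁻¹) ^ k * z ^ k := by
        rw [← conj_zpow, ← h2.mul_zpow, ← h1]
      refine ⟨g * a * g⁻¹ * (g * z * g⁻¹ * z⁻¹) ^ k,
        A.mul_mem (hn.conj_mem a ha g) (A.zpow_mem (hzA g) k), k, ?_⟩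
      rw [mul_assoc (g * a * g⁻¹), ← h3]
      group
    · rintro _ ⟨a, ha, k, rfl⟩ _ ⟨b, hb, l, rfl⟩
      have h1 : Commute a b := hcomm a ha b hb
      exact (h1.mul_right (hcz a ha l)).mul_left
        (((hcz b hb k).symm).mul_right (Commute.zpow_zpow_self z k l))
  have hle : A ≤ A' := fun a ha => ⟨a, ha, 0, by simp⟩
  exact hz3 (hA.le_of_ge hA' hle ⟨1, A.one_mem, 1, by simp⟩)

/-! ## the theorem -/

private theorem TfNil_core {n N : ℕ} (hP : NilPair n N) {G : Type} [Group G]
    [Group.IsNilpotent G] (htf : TF G) (hE : Engel n G) {M : Type} [AddCommGroup M]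
    (v : M → G) (hinj : Function.Injective v) (hadd : ∀ a b, v (a + b) = v a * v b)
    (hnorm : ∀ (g : G) (m : M), ∃ m', v m' = g * v m * g⁻¹)
    (hcent : ∀ g : G, (∀ m, v m * g = g * v m) → ∃ m, v m = g) :
    (⊤ : Subgroup G).lowerCentralSeries (2 * N) = ⊥ := by
  have hv0 : v 0 = 1 := by
    have := hadd 0 0
    rw [add_zero] at this
    exact mul_eq_left.1 this.symm
  have hneg : ∀ m, v (-m) = (v m)⁻¹ := by
    intro m
    apply eq_inv_of_mul_eq_one_left
    rw [← hadd, neg_add_cancel, hv0]
  have hsub : ∀ a b, v (a - b) = v a * (v b)⁻¹ := by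
    intro a b
    rw [sub_eq_add_neg, hadd, hneg]
  have hcomm : ∀ a b, v a * v b = v b * v a := by
    intro a b
    rw [← hadd, add_comm, hadd]
  choose c hc using hnorm
  have hc_add : ∀ g a b, c g (a + b) = c g a + c g b := by
    intro g a b
    apply hinj
    rw [hc, hadd, hadd, hc, hc]
    group
  let α : G →* Module.End ℤ M :=
    { toFun := fun g => (AddMonoidHom.mk' (c g) (hc_add g)).toIntLinearMap
      map_one' := by
        ext m
        apply hinj
        show v (c 1 m) = v m
        rw [hc]
        simp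
      map_mul' := by
        intro g h
        ext m
        apply hinj
        show v (c (g * h) m) = v (c g (c h m))
        rw [hc, hc, hc]
        group }
  have hα : ∀ g m, v (α g m) = g * v m * g⁻¹ := fun g m => hc g m
  have hα1 : ∀ g m, v ((α g - 1) m) = g * v m * g⁻¹ * (v m)⁻¹ := by
    intro g m
    show v (α g m - m) = _
    rw [hsub, hα]
  have htor : Module.IsTorsionFree ℤ M := by
    rw [Module.isTorsionFree_iff_smul_eq_zero]
    have hnat : ∀ (k : ℕ) (m : M), v (k • m) = v m ^ k := by
      intro k m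
      induction k with
      | zero => simp [hv0]
      | succ k ih => rw [succ_nsmul, hadd, ih, pow_succ]
    have hnat' : ∀ (k : ℕ) (m : M), k • m = 0 → k = 0 ∨ m = 0 := by
      intro k m h
      rcases Nat.eq_zero_or_pos k with h1 | h1
      · exact Or.inl h1
      · right
        apply hinj
        rw [hv0]
        apply htf _ k h1
        rw [← hnat, h, hv0]
    intro r m h
    rcases Int.natAbs_eq r with h1 | h1
    · rw [h1, natCast_zsmul] at h
      rcases hnat' _ _ h with h2 | h2
      · left
        exact Int.natAbs_eq_zero.1 h2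
      · exact Or.inr h2
    · rw [h1, neg_smul, natCast_zsmul, neg_eq_zero] at h
      rcases hnat' _ _ h with h2 | h2
      · left
        exact Int.natAbs_eq_zero.1 h2
      · exact Or.inr h2
  have hαn : ∀ g, (α g - 1) ^ n = 0 := by
    intro g
    have key : ∀ (k : ℕ) (m : M), v (((α g - 1) ^ k) m) =
        (fun z : G => z⁻¹ * (g⁻¹)⁻¹ * z * g⁻¹)^[k] (v m) := by
      intro k
      induction k with
      | zero => intro m; rfl
      | succ k ih =>
        intro m
        rw [Function.iterate_succ_apply', ← ih m, pow_succ', Module.End.mul_apply, hα1]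
        simp only [inv_inv]
        have h1 := hcomm (-(((α g - 1) ^ k) m)) (α g (((α g - 1) ^ k) m))
        rw [hneg, hα] at h1
        rw [← h1]
        simp only [mul_assoc]
    ext m
    apply hinj
    rw [key, hE]
    exact hv0.symm
  set D := Submodule.span ℤ (Set.range fun g => α g - 1) with hD
  have hbr : ∀ (m : M) (y : G), v (-((α y - 1) m)) = ⁅v m, y⁆ := by
    intro m y
    rw [hneg, hα1, commutatorElement_def]
    group
  -- nilpotency gives `D ^ s = 0`
  have hdown : ∀ (k : ℕ) (m : M), v m ∈ Subgroup.upperCentralSeries G k → ∀ d ∈ D ^ k, d m = 0 := by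
    intro k
    induction k with
    | zero =>
      intro m hm d _
      have : v m = 1 := by simpa using hm
      rw [← hv0] at this
      rw [hinj this, map_zero]
    | succ k ih =>
      intro m hm d hd
      rw [Submodule.pow_succ] at hd
      have h1 : ∀ y ∈ D, ∀ x ∈ D ^ k, x (y m) = 0 := by
        intro y hy
        induction hy using Submodule.span_induction with
        | mem y hy =>
          obtain ⟨g, rfl⟩ := hy
          intro x hx
          have h2 := ih (-((α g - 1) m)) (by
            rw [hbr]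
            exact Subgroup.mem_upperCentralSeries_succ_iff.1 hm g) x hx
          rw [map_neg, neg_eq_zero] at h2
          exact h2
        | zero =>
          intro x _
          rw [LinearMap.zero_apply, map_zero]
        | add a b _ _ ha hb =>
          intro x hx
          rw [LinearMap.add_apply, map_add, ha x hx, hb x hx, add_zero]
        | smul r a _ ha =>
          intro x hx
          rw [LinearMap.smul_apply, map_smul, ha x hx, smul_zero]
      induction hd using Submodule.mul_induction_on' with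
      | mem_mul_mem x hx y hy =>
        rw [Module.End.mul_apply]
        exact h1 y hy x hx
      | add x _ y _ hx hy => rw [LinearMap.add_apply, hx, hy, add_zero]
  have hs : ∃ s, D ^ s = ⊥ := by
    obtain ⟨s, hs⟩ := Group.IsNilpotent.nilpotent G
    refine ⟨s, ?_⟩
    rw [Submodule.eq_bot_iff]
    intro d hd
    ext m
    rw [hdown s m (by rw [hs]; exact Subgroup.mem_top _) d hd, LinearMap.zero_apply]
  have hDN : D ^ N = ⊥ := TfNil_rep hP α hαn hs
  -- the abelian subgroup is contained in the `N`-th term of the upper central series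
  have hup : ∀ (k : ℕ) (m : M), (∀ d ∈ D ^ k, d m = 0) →
      v m ∈ Subgroup.upperCentralSeries G k := by
    intro k
    induction k with
    | zero =>
      intro m hm
      have h1 := hm 1 (by rw [Submodule.pow_zero]; exact Submodule.one_le.1 le_rfl)
      rw [Module.End.one_apply] at h1
      rw [h1, hv0]
      exact Subgroup.one_mem _
    | succ k ih =>
      intro m hm
      rw [Subgroup.mem_upperCentralSeries_succ_iff]
      intro y
      rw [← hbr]
      apply ih
      intro d hd
      rw [map_neg, neg_eq_zero, ← Module.End.mul_apply]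
      apply hm
      rw [Submodule.pow_succ]
      exact Submodule.mul_mem_mul hd (Submodule.subset_span ⟨y, rfl⟩)
  have hA : ∀ m, v m ∈ Subgroup.upperCentralSeries G N := by
    intro m
    apply hup
    intro d hd
    rw [hDN, Submodule.mem_bot] at hd
    rw [hd, LinearMap.zero_apply]
  -- the `N`-th term of the lower central series is contained in the abelian subgroup
  have hlcs : (⊤ : Subgroup G).lowerCentralSeries N ≤ Subgroup.upperCentralSeries G N := by
    intro g hg
    have h1 : α g - 1 ∈ D ^ (N + 1) := TfNil_lcs α N g hg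
    rw [Submodule.pow_succ, hDN, Submodule.bot_mul, Submodule.mem_bot] at h1
    obtain ⟨m, rfl⟩ := hcent g (by
      intro m
      have h2 : v ((α g - 1) m) = 1 := by rw [h1, LinearMap.zero_apply, hv0]
      rw [hα1, mul_inv_eq_one, mul_inv_eq_iff_eq_mul] at h2
      exact h2.symm)
    exact hA m
  have hfin : ∀ k ≤ N, (⊤ : Subgroup G).lowerCentralSeries (N + k) ≤
      Subgroup.upperCentralSeries G (N - k) := by
    intro k
    induction k with
    | zero => intro _; exact hlcs
    | succ k ih =>
      intro hk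
      rw [← add_assoc, Subgroup.lowerCentralSeries_succ]
      refine (Subgroup.commutator_mono (ih (by omega)) le_rfl).trans ?_
      rw [show N - k = N - (k + 1) + 1 by omega]
      exact Subgroup.commutator_upperCentralSeries_top_le G _
  have h2 := hfin N le_rfl
  rw [Nat.sub_self, Subgroup.upperCentralSeries_zero, ← two_mul] at h2
  exact le_bot_iff.1 h2

/-- Torsion-free nilpotent `n`-Engel groups have bounded class. -/
theorem lowerCentralSeries_eq_bot {n N : ℕ} (hP : NilPair n N) {G : Type} [Group G]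
    [Group.IsNilpotent G] (htf : TF G) (hE : Engel n G) : (⊤ : Subgroup G).lowerCentralSeries (2 * N) = ⊥ := by
  obtain ⟨A, hA1, hA2, hA3⟩ := TfNil_max G
  letI : CommGroup A :=
    { (inferInstance : Group A) with
      mul_comm := fun x y => Subtype.ext (hA2 x x.2 y y.2) }
  refine TfNil_core (M := Additive A) hP htf hE (fun m => ((Additive.toMul m : A) : G)) ?_ ?_ ?_ ?_
  · intro a b h
    exact Additive.toMul.injective (Subtype.ext h)
  · intro a b
    rfl
  · intro g m
    exact ⟨Additive.ofMul ⟨_, hA1.conj_mem _ (Additive.toMul m).2 g⟩, rfl⟩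
  · intro g hg
    exact ⟨Additive.ofMul ⟨g, hA3 g (fun x hx => hg (Additive.ofMul ⟨x, hx⟩))⟩, rfl⟩

end Pool.Agent.Lib.MP_7ac902_al.Z
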