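import Pool.Agent.Lib.MP_7ac902_al.Z.Restr

set_option autoImplicit false
set_option linter.unusedSectionVars false

namespace Pool.Agent.Lib.MP_7ac902_al.Z

section Ring

variable {G : Type*} [Group G] {B : Type*} [Ring B] [Algebra ℚ B] (ρ : G →* B)

/-- The augmentation space of a subgroup. -/
private def Dd (S : Subgroup G) : Submodule ℚ B :=
  Submodule.span ℚ ((fun g => ρ g - 1) '' (S : Set G))

/-- The span of a subgroup. -/
private def Ww (S : Subgroup G) : Submodule ℚ B := Submodule.span ℚ (ρ '' (S : Set G))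

private theorem Dd_mem {S : Subgroup G} {g : G} (hg : g ∈ S) : ρ g - 1 ∈ Dd ρ S :=
  Submodule.subset_span ⟨g, hg, rfl⟩

private theorem Ww_mem {S : Subgroup G} {g : G} (hg : g ∈ S) : ρ g ∈ Ww ρ S :=
  Submodule.subset_span ⟨g, hg, rfl⟩

private theorem one_le_Ww (S : Subgroup G) : (1 : Submodule ℚ B) ≤ Ww ρ S := by
  rw [Submodule.one_le, ← map_one ρ]
  exact Ww_mem ρ S.one_mem

private theorem Ww_mul (S : Subgroup G) : Ww ρ S * Ww ρ S ≤ Ww ρ S := by
  rw [Ww, Submodule.span_mul_span, Submodule.span_le]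
  rintro _ ⟨_, ⟨g, hg, rfl⟩, _, ⟨h, hh, rfl⟩, rfl⟩
  change ρ g * ρ h ∈ _
  rw [← map_mul]
  exact Ww_mem ρ (S.mul_mem hg hh)

private theorem Ww_mono {S T : Subgroup G} (h : S ≤ T) : Ww ρ S ≤ Ww ρ T :=
  Submodule.span_mono (Set.image_mono h)

private theorem Dd_mono {S T : Subgroup G} (h : S ≤ T) : Dd ρ S ≤ Dd ρ T :=
  Submodule.span_mono (Set.image_mono h)

private theorem Dd_le_Ww (S : Subgroup G) : Dd ρ S ≤ Ww ρ S := by
  rw [Dd, Submodule.span_le]
  rintro _ ⟨g, hg, rfl⟩
  exact Submodule.sub_mem _ (Ww_mem ρ hg) (one_le_Ww ρ S (Submodule.one_le.1 le_rfl))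

private theorem Ww_Dd {S T : Subgroup G} (h : ∀ g ∈ S, ∀ x ∈ T, g * x * g⁻¹ ∈ T) :
    Ww ρ S * Dd ρ T ≤ Dd ρ T * Ww ρ S := by
  rw [Ww, Dd, Submodule.span_mul_span, Submodule.span_le]
  rintro _ ⟨_, ⟨g, hg, rfl⟩, _, ⟨x, hx, rfl⟩, rfl⟩
  change ρ g * (ρ x - 1) ∈ _
  have : ρ g * (ρ x - 1) = (ρ (g * x * g⁻¹) - 1) * ρ g := by
    have e : ρ (g * x * g⁻¹) * ρ g = ρ g * ρ x := by
      rw [← map_mul, ← map_mul]; congr 1; group
    rw [sub_mul, e, mul_sub, one_mul, mul_one]
  rw [this]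
  exact Submodule.mul_mem_mul (Dd_mem ρ (h g hg x hx)) (Ww_mem ρ hg)

private theorem DW_pow {D W : Submodule ℚ B} (h1 : 1 ≤ W) (hW : W * W ≤ W) (hWD : W * D ≤ D * W)
    (m : ℕ) : (D * W) ^ m ≤ D ^ m * W := by
  induction m with
  | zero => simpa using h1
  | succ m ih =>
    calc (D * W) ^ (m + 1) = (D * W) ^ m * (D * W) := pow_succ _ _
      _ ≤ D ^ m * W * (D * W) := mul_le_mul' ih le_rfl
      _ = D ^ m * ((W * D) * W) := by simp only [mul_assoc]
      _ ≤ D ^ m * ((D * W) * W) := mul_le_mul' le_rfl (mul_le_mul' hWD le_rfl)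
      _ = D ^ (m + 1) * (W * W) := by rw [pow_succ]; simp only [mul_assoc]
      _ ≤ D ^ (m + 1) * W := mul_le_mul' le_rfl hW

private theorem Y_pow {I Y W : Submodule ℚ B} (hYW : Y ≤ W) (hIW : I * W ≤ I)
    (hWI : W * I ≤ I) (h1 : 1 ≤ W) (hW : W * W ≤ W) (hY : Y * W ≤ W * Y ⊔ I) (m : ℕ) :
    Y ^ m * W ≤ W * Y ^ m ⊔ I := by
  have hYm : ∀ m, Y ^ m ≤ W := by
    intro m
    induction m with
    | zero => simpa using h1
    | succ m ih =>
      rw [pow_succ]
      exact (mul_le_mul' ih hYW).trans hW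
  induction m with
  | zero => simp
  | succ m ih =>
    calc Y ^ (m + 1) * W = Y ^ m * (Y * W) := by rw [pow_succ, mul_assoc]
      _ ≤ Y ^ m * (W * Y ⊔ I) := mul_le_mul' le_rfl hY
      _ = Y ^ m * W * Y ⊔ Y ^ m * I := by rw [Submodule.mul_sup, mul_assoc]
      _ ≤ (W * Y ^ m ⊔ I) * Y ⊔ I :=
        sup_le_sup (mul_le_mul' ih le_rfl) ((mul_le_mul' (hYm m) le_rfl).trans hWI)
      _ = W * Y ^ (m + 1) ⊔ I * Y ⊔ I := by rw [Submodule.sup_mul, mul_assoc, ← pow_succ]
      _ ≤ W * Y ^ (m + 1) ⊔ I := by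
        refine sup_le (sup_le le_sup_left ?_) le_sup_right
        exact ((mul_le_mul' le_rfl hYW).trans hIW).trans le_sup_right

private theorem add_pow_le {I Y W : Submodule ℚ B} (hYW : Y ≤ W) (hIW : I * W ≤ I)
    (hWI : W * I ≤ I) (h1 : 1 ≤ W) (hW : W * W ≤ W) (hI : I ≤ W) (hY : Y * W ≤ W * Y ⊔ I)
    (m : ℕ) : (I ⊔ W * Y) ^ m ≤ I ⊔ W * Y ^ m := by
  have hYm : ∀ m, Y ^ m ≤ W := by
    intro m
    induction m with
    | zero => simpa using h1
    | succ m ih =>
      rw [pow_succ]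
      exact (mul_le_mul' ih hYW).trans hW
  induction m with
  | zero => simpa using h1.trans le_sup_right
  | succ m ih =>
    rw [pow_succ]
    refine (mul_le_mul' ih le_rfl).trans ?_
    rw [Submodule.mul_sup, Submodule.sup_mul, Submodule.sup_mul]
    refine sup_le (sup_le ?_ ?_) (sup_le ?_ ?_)
    · exact ((mul_le_mul' le_rfl hI).trans hIW).trans le_sup_left
    · exact ((mul_le_mul' ((mul_le_mul' le_rfl (hYm m)).trans hW) le_rfl).trans hWI).trans
        le_sup_left
    · exact ((mul_le_mul' le_rfl ((mul_le_mul' le_rfl hYW).trans hW)).trans hIW).trans le_sup_left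
    · calc W * Y ^ m * (W * Y) = W * (Y ^ m * W) * Y := by simp only [mul_assoc]
        _ ≤ W * (W * Y ^ m ⊔ I) * Y :=
          mul_le_mul' (mul_le_mul' le_rfl (Y_pow hYW hIW hWI h1 hW hY m)) le_rfl
        _ = W * W * Y ^ (m + 1) ⊔ W * I * Y := by
          rw [Submodule.mul_sup, Submodule.sup_mul, pow_succ]; simp only [mul_assoc]
        _ ≤ I ⊔ W * Y ^ (m + 1) := by
          refine sup_le ?_ ?_
          · exact (mul_le_mul' hW le_rfl).trans le_sup_right
          · exact ((mul_le_mul' hWI hYW).trans hIW).trans le_sup_left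

/-- Adjoining one element. -/
private theorem step {n : ℕ} (T : Subgroup G) (t : G) (ht : (ρ t - 1) ^ n = 0)
    (hnorm : ∀ g ∈ T ⊔ Subgroup.zpowers t, ∀ x ∈ T, g * x * g⁻¹ ∈ T)
    (hcomm : ∀ g ∈ T ⊔ Subgroup.zpowers t, t * g * t⁻¹ * g⁻¹ ∈ T) (s : ℕ)
    (hs : Dd ρ T ^ s = ⊥) : Dd ρ (T ⊔ Subgroup.zpowers t) ^ (n * s) = ⊥ := by
  set S := T ⊔ Subgroup.zpowers t with hS
  have hTS : T ≤ S := le_sup_left
  have hzS : Subgroup.zpowers t ≤ S := le_sup_right
  have htS : t ∈ S := hzS (Subgroup.mem_zpowers t)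
  set W := Ww ρ S with hWdef
  set Y := Submodule.span ℚ {ρ t - 1} with hYdef
  set I := Dd ρ T * W with hI
  have h1 : 1 ≤ W := one_le_Ww ρ S
  have hWW : W * W ≤ W := Ww_mul ρ S
  have hIS : I ≤ W :=
    (mul_le_mul' ((Dd_le_Ww ρ T).trans (Ww_mono ρ hTS)) le_rfl).trans (Ww_mul ρ S)
  have hYS : Y ≤ W := by
    rw [hYdef, Submodule.span_singleton_le_iff_mem]
    exact Dd_le_Ww ρ S (Dd_mem ρ htS)
  have hIW : I * W ≤ I := by
    rw [hI, mul_assoc]
    exact mul_le_mul' le_rfl hWW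
  have hWI : W * I ≤ I := by
    rw [hI, ← mul_assoc]
    refine (mul_le_mul' (Ww_Dd ρ hnorm) le_rfl).trans ?_
    rw [mul_assoc]
    exact mul_le_mul' le_rfl hWW
  have hYW : Y * W ≤ W * Y ⊔ I := by
    rw [hYdef, hWdef, Ww, Submodule.span_mul_span, Submodule.span_le]
    rintro _ ⟨_, hy, _, ⟨g, hg, rfl⟩, rfl⟩
    rw [Set.mem_singleton_iff] at hy
    subst hy
    change (ρ t - 1) * ρ g ∈ _
    have e : (ρ t - 1) * ρ g = ρ g * (ρ t - 1) + (ρ (t * g * t⁻¹ * g⁻¹) - 1) * ρ (g * t) := by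
      have e1 : ρ (t * g * t⁻¹ * g⁻¹) * ρ (g * t) = ρ t * ρ g := by
        rw [← map_mul, ← map_mul]; congr 1; group
      rw [sub_mul, sub_mul, e1, map_mul]
      noncomm_ring
    rw [e]
    refine Submodule.add_mem_sup ?_ ?_
    · exact Submodule.mul_mem_mul (Ww_mem ρ hg) (Submodule.mem_span_singleton_self _)
    · exact Submodule.mul_mem_mul (Dd_mem ρ (hcomm g hg)) (Ww_mem ρ (S.mul_mem hg htS))
  -- the augmentation space of `S`
  have hWC : W * (I ⊔ W * Y) ≤ I ⊔ W * Y := by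
    rw [Submodule.mul_sup]
    exact sup_le_sup hWI (by rw [← mul_assoc]; exact mul_le_mul' hWW le_rfl)
  have hmul : ∀ x ∈ S, ∀ y, ρ x - 1 ∈ I ⊔ W * Y → ρ y - 1 ∈ I ⊔ W * Y →
      ρ (x * y) - 1 ∈ I ⊔ W * Y := by
    intro x hx y hx' hy'
    have : ρ (x * y) - 1 = ρ x * (ρ y - 1) + (ρ x - 1) := by
      rw [map_mul]; noncomm_ring
    rw [this]
    exact Submodule.add_mem _ (hWC (Submodule.mul_mem_mul (Ww_mem ρ hx) hy')) hx'
  have hinv : ∀ x ∈ S, ρ x - 1 ∈ I ⊔ W * Y → ρ x⁻¹ - 1 ∈ I ⊔ W * Y := by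
    intro x hx hx'
    have : ρ x⁻¹ - 1 = - (ρ x⁻¹ * (ρ x - 1)) := by
      have e : ρ x⁻¹ * ρ x = 1 := by rw [← map_mul, inv_mul_cancel, map_one]
      rw [mul_sub, e, mul_one, neg_sub]
    rw [this]
    exact Submodule.neg_mem _ (hWC (Submodule.mul_mem_mul (Ww_mem ρ (S.inv_mem hx)) hx'))
  have hD : Dd ρ S ≤ I ⊔ W * Y := by
    rw [Dd, Submodule.span_le]
    rintro _ ⟨g, hg, rfl⟩
    have hle : S ≤ Subgroup.closure ((T : Set G) ∪ {t}) := by
      rw [Subgroup.closure_union, Subgroup.closure_eq, ← Subgroup.zpowers_eq_closure]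
    have hge : Subgroup.closure ((T : Set G) ∪ {t}) ≤ S := by
      rw [Subgroup.closure_union, Subgroup.closure_eq, ← Subgroup.zpowers_eq_closure]
    have hg' := hle hg
    change ρ g - 1 ∈ _
    clear hg
    induction hg' using Subgroup.closure_induction with
    | mem x hx =>
      rcases hx with hx | hx
      · have h2 : (ρ x - 1) * 1 ∈ I := Submodule.mul_mem_mul (Dd_mem ρ hx)
          (h1 (Submodule.one_le.1 le_rfl))
        rw [mul_one] at h2
        exact Submodule.mem_sup_left h2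
      · rw [Set.mem_singleton_iff] at hx
        subst hx
        have h2 : (1 : B) * (ρ x - 1) ∈ W * Y :=
          Submodule.mul_mem_mul (h1 (Submodule.one_le.1 le_rfl))
            (Submodule.mem_span_singleton_self _)
        rw [one_mul] at h2
        exact Submodule.mem_sup_right h2
    | one => simp
    | mul x y hx hy hx' hy' => exact hmul x (hge hx) y hx' hy'
    | inv x hx hx' => exact hinv x (hge hx) hx'
  have hYn : Y ^ n = ⊥ := by
    rw [hYdef, Submodule.span_pow, Submodule.span_eq_bot]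
    intro x hx
    rw [Set.singleton_pow, Set.mem_singleton_iff] at hx
    rw [hx, ht]
  have hDn : Dd ρ S ^ n ≤ I := by
    refine (pow_le_pow_left' hD n).trans ?_
    refine (add_pow_le hYS hIW hWI h1 hWW hIS hYW n).trans ?_
    rw [hYn, Submodule.mul_bot, sup_bot_eq]
  rw [pow_mul, eq_bot_iff]
  refine (pow_le_pow_left' hDn s).trans ?_
  refine (DW_pow h1 hWW (Ww_Dd ρ hnorm) s).trans ?_
  rw [hs, Submodule.bot_mul]

/-- The nilpotency of the augmentation space for finitely generated subgroups. -/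
private theorem fg_step {n : ℕ} (hρ : ∀ g, (ρ g - 1) ^ n = 0) (S : Subgroup G) (hS : S.FG)
    (h : ∃ s, Dd ρ ⁅S, S⁆ ^ s = ⊥) : ∃ s, Dd ρ S ^ s = ⊥ := by
  classical
  obtain ⟨F, hF⟩ := hS
  have hFS : ∀ t ∈ F, t ∈ S := fun t ht => by
    rw [← hF]; exact Subgroup.subset_closure ht
  have hcS : ⁅S, S⁆ ≤ S := Subgroup.commutator_le_self S
  have key : ∀ F' : Finset G, F' ⊆ F → ∃ s, Dd ρ (⁅S, S⁆ ⊔ Subgroup.closure (F' : Set G)) ^ s = ⊥ := by
    intro F'
    induction F' using Finset.induction_on with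
    | empty => intro _; simpa using h
    | insert t F' _ ih =>
      intro hsub
      obtain ⟨s, hs⟩ := ih ((Finset.subset_insert _ _).trans hsub)
      set T := ⁅S, S⁆ ⊔ Subgroup.closure (F' : Set G) with hT
      have hTS : T ≤ S := sup_le hcS (by
        rw [Subgroup.closure_le]
        intro x hx
        exact hFS x (hsub (Finset.mem_insert_of_mem hx)))
      have htS : t ∈ S := hFS t (hsub (Finset.mem_insert_self _ _))
      have hTz : T ⊔ Subgroup.zpowers t ≤ S := sup_le hTS (by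
        rw [Subgroup.zpowers_le]; exact htS)
      have e : ⁅S, S⁆ ⊔ Subgroup.closure ((insert t F' : Finset G) : Set G) =
          T ⊔ Subgroup.zpowers t := by
        rw [Finset.coe_insert, Set.insert_eq, Subgroup.closure_union, ← Subgroup.zpowers_eq_closure,
          hT, sup_comm (Subgroup.zpowers t), sup_assoc]
      rw [e]
      have hcom : ∀ g ∈ S, ∀ x ∈ S, g * x * g⁻¹ * x⁻¹ ∈ T := fun g hg x hx =>
        (le_sup_left : ⁅S, S⁆ ≤ T) (Subgroup.commutator_mem_commutator hg hx)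
      refine ⟨n * s, step ρ T t (hρ t) (fun g hg x hx => ?_) (fun g hg => ?_) s hs⟩
      · have h1 := T.mul_mem (hcom g (hTz hg) x (hTS hx)) hx
        simpa using h1
      · exact hcom t htS g (hTz hg)
  obtain ⟨s, hs⟩ := key F (Finset.Subset.refl _)
  refine ⟨s, ?_⟩
  rw [hF, sup_eq_right.2 hcS] at hs
  exact hs

end Ring

private theorem fg_commutator {n : ℕ} {G : Type*} [Group G] (hE : Engel n G) (S : Subgroup G)
    (hS : S.FG) : (⁅S, S⁆ : Subgroup G).FG := by
  have hSfg : Group.FG S := (Group.fg_iff_subgroup_fg S).2 hS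
  have hES : Engel n S := hE.of_injective S.subtype S.subtype_injective
  have h1 : (commutator S).FG := by
    have hsol : Group.IsSolvable (S ⧸ commutator S) := by
      have : Group.IsSolvable (Abelianization S) := inferInstance
      exact this
    exact fg_of_solvable_quotient hSfg hES (commutator S) hsol
  have h2 : ((commutator S).map S.subtype).FG := by
    classical
    obtain ⟨F, hF⟩ := h1
    exact ⟨F.image S.subtype, by rw [Finset.coe_image, ← MonoidHom.map_closure, hF]⟩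
  have h3 : (commutator S).map S.subtype = ⁅S, S⁆ := by
    rw [commutator_def, Subgroup.map_commutator]
    congr 1 <;> · rw [← MonoidHom.range_eq_map, Subgroup.range_subtype]
  rwa [h3] at h2

/-- Iterated commutator subgroups. -/
private theorem iter_nil {n : ℕ} {G : Type*} [Group G] (hE : Engel n G) {B : Type*} [Ring B]
    [Algebra ℚ B] (ρ : G →* B) (hρ : ∀ g, (ρ g - 1) ^ n = 0) (k : ℕ) : ∀ S : Subgroup G, S.FG →
      (∀ x ∈ (fun T : Subgroup G => ⁅T, T⁆)^[k] S, ρ x = 1) → ∃ s, Dd ρ S ^ s = ⊥ := by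
  induction k with
  | zero =>
    intro S _ h
    refine ⟨1, ?_⟩
    rw [pow_one, Dd, Submodule.span_eq_bot]
    rintro _ ⟨x, hx, rfl⟩
    change ρ x - 1 = 0
    rw [h x hx, sub_self]
  | succ k ih =>
    intro S hS h
    exact fg_step ρ hρ S hS (ih _ (fg_commutator hE S hS) h)

/-- A finitely generated `n`-Engel group acting through a solvable quotient by unipotent elements of
bounded index has nilpotent augmentation space. -/
theorem augmentation_nilpotent {n : ℕ} {G : Type*} [Group G] (hfg : Group.FG G) (hE : Engel n G)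
    (H : Subgroup G) [H.Normal] (hs : Group.IsSolvable (G ⧸ H)) {B : Type*} [Ring B] [Algebra ℚ B]
    (ρ : G →* B) (hρ : ∀ g, (ρ g - 1) ^ n = 0) (hH : ∀ h ∈ H, ρ h = 1) :
    ∃ s, (Submodule.span ℚ (Set.range fun g => ρ g - 1)) ^ s = ⊥ := by
  obtain ⟨k, hk⟩ := hs.solvable
  have h1 : ∀ m, (fun T : Subgroup G => ⁅T, T⁆)^[m] ⊤ = derivedSeries G m := by
    intro m
    induction m with
    | zero => rfl
    | succ m ih => rw [Function.iterate_succ_apply', ih, derivedSeries_succ]
  obtain ⟨s, hs⟩ := iter_nil hE ρ hρ k ⊤ ((Group.fg_def).1 hfg) (by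
    intro x hx
    rw [h1] at hx
    apply hH
    rw [← QuotientGroup.eq_one_iff, ← Subgroup.mem_bot, ← hk]
    exact map_derivedSeries_le_derivedSeries (QuotientGroup.mk' H) k
      (Subgroup.mem_map_of_mem (QuotientGroup.mk' H) hx))
  refine ⟨s, ?_⟩
  rw [Dd, Subgroup.coe_top, Set.image_univ] at hs
  exact hs

section Rep

open TensorProduct
open scoped commutatorElement

/-- The representation of `G` on the rational hull of the torsion-free abelian section `H / H1`. -/
private theorem exists_rep {n : ℕ} {G : Type} [Group G] (hE : Engel n G) (H H1 : Subgroup G)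
    [H.Normal] [H1.Normal] (hle : H1 ≤ H)
    (hab : ∀ x ∈ H, ∀ y ∈ H, x⁻¹ * y⁻¹ * x * y ∈ H1)
    (htf : ∀ x ∈ H, ∀ k : ℕ, 0 < k → x ^ k ∈ H1 → x ∈ H1) :
    ∃ (B : Type) (_ : Ring B) (_ : Algebra ℚ B) (ρ : G →* B) (P : ℕ → Subgroup G),
      (∀ g, (ρ g - 1) ^ n = 0) ∧ (∀ h ∈ H, ρ h = 1) ∧ P 0 ≤ H1 ∧
      (∀ m, ∀ x ∈ P (m + 1), ∀ g, ⁅x, g⁆ ∈ P m) ∧
      ∀ s, (Submodule.span ℚ (Set.range fun g => ρ g - 1)) ^ s = ⊥ → H ≤ P s := by
  let K : Subgroup H := H1.subgroupOf H
  have hKn : K.Normal := inferInstance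
  let instQ : CommGroup (H ⧸ K) :=
    { (inferInstance : Group (H ⧸ K)) with
      mul_comm := by
        intro a b
        induction a using QuotientGroup.induction_on with
        | H x =>
        induction b using QuotientGroup.induction_on with
        | H y =>
        rw [← QuotientGroup.mk_mul, ← QuotientGroup.mk_mul, QuotientGroup.eq,
          Subgroup.mem_subgroupOf]
        have := hab y y.2 x x.2
        simpa [mul_assoc] using this }
  -- the action
  have hcK : ∀ g : G, K ≤ K.comap (MulAut.conjNormal g : MulAut H).toMonoidHom := by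
    intro g x hx
    rw [Subgroup.mem_comap, Subgroup.mem_subgroupOf]
    rw [Subgroup.mem_subgroupOf] at hx
    exact (inferInstance : H1.Normal).conj_mem _ hx g
  let f : G → (H ⧸ K →* H ⧸ K) := fun g =>
    QuotientGroup.map K K (MulAut.conjNormal g : MulAut H).toMonoidHom (hcK g)
  have hf : ∀ g (x : H), f g (x : H ⧸ K) = ((MulAut.conjNormal g x : H) : H ⧸ K) := fun g x => rfl
  let V := Additive (H ⧸ K)
  let c : G →* Module.End ℤ V :=
    { toFun := fun g => (MonoidHom.toAdditive (f g)).toIntLinearMap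
      map_one' := by
        apply LinearMap.ext
        intro v
        induction v using Additive.rec with
        | ofMul q =>
        induction q using QuotientGroup.induction_on with
        | H x =>
        change Additive.ofMul (f 1 (x : H ⧸ K)) = _
        rw [hf, map_one]
        rfl
      map_mul' := by
        intro g h
        apply LinearMap.ext
        intro v
        induction v using Additive.rec with
        | ofMul q =>
        induction q using QuotientGroup.induction_on with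
        | H x =>
        change Additive.ofMul (f (g * h) (x : H ⧸ K)) = Additive.ofMul (f g (f h (x : H ⧸ K)))
        rw [hf, hf, hf, map_mul]
        rfl }
  let cl : H → V := fun x => Additive.ofMul (x : H ⧸ K)
  have hc : ∀ g (x : H), c g (cl x) = cl (MulAut.conjNormal g x) := fun g x => rfl
  have hcl : ∀ x y : H, cl (x * y) = cl x + cl y := fun x y => rfl
  have hcli : ∀ x : H, cl x⁻¹ = - cl x := fun x => rfl
  have hcsurj : ∀ v : V, ∃ x, cl x = v := by
    intro v
    induction v using Additive.rec with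
    | ofMul q =>
    induction q using QuotientGroup.induction_on with
    | H x => exact ⟨x, rfl⟩
  have hpow : ∀ g, (c g - 1) ^ n = 0 := by
    intro g
    apply LinearMap.ext
    intro v
    obtain ⟨x, rfl⟩ := hcsurj v
    have key : ∀ k : ℕ, ∃ z : H, ((c g - 1) ^ k) (cl x) = cl z ∧
        (z : G) = (fun z : G => z⁻¹ * (g⁻¹)⁻¹ * z * g⁻¹)^[k] (x : G) := by
      intro k
      induction k with
      | zero => exact ⟨x, rfl, rfl⟩
      | succ k ih =>
        obtain ⟨z, hz1, hz2⟩ := ih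
        refine ⟨z⁻¹ * MulAut.conjNormal g z, ?_, ?_⟩
        · rw [pow_succ', Module.End.mul_apply, hz1, hcl, hcli, LinearMap.sub_apply, hc]
          simp only [Module.End.one_apply]
          abel
        · rw [Function.iterate_succ_apply', ← hz2, Subgroup.coe_mul, MulAut.conjNormal_apply]
          simp [mul_assoc]
    obtain ⟨z, hz1, hz2⟩ := key n
    rw [hE] at hz2
    rw [hz1]
    have : z = 1 := Subtype.ext hz2
    rw [this]
    rfl
  let β := Module.End.baseChangeHom ℤ ℚ V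
  let ρ : G →* Module.End ℚ (ℚ ⊗[ℤ] V) := (β : Module.End ℤ V →* _).comp c
  let ι : V →ₗ[ℤ] ℚ ⊗[ℤ] V := TensorProduct.mk ℤ ℚ V 1
  have hρ : ∀ g v, ρ g (ι v) = ι (c g v) := fun g v => rfl
  have hinj : ∀ x : H, ι (cl x) = 0 → (x : G) ∈ H1 := by
    intro x hx
    have hloc : IsLocalizedModule (nonZeroDivisors ℤ) ι :=
      (isLocalizedModule_iff_isBaseChange (nonZeroDivisors ℤ) ℚ ι).2
        (TensorProduct.isBaseChange ℤ V ℚ)
    rw [IsLocalizedModule.eq_zero_iff (nonZeroDivisors ℤ)] at hx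
    obtain ⟨⟨m, hm⟩, hmx⟩ := hx
    have hm0 : m ≠ 0 := nonZeroDivisors.ne_zero hm
    have h1 : m • cl x = 0 := hmx
    have h2 : m.natAbs • cl x = 0 := by
      rcases Int.natAbs_eq m with h | h
      · rw [h, natCast_zsmul] at h1
        exact h1
      · rw [h, neg_smul, neg_eq_zero, natCast_zsmul] at h1
        exact h1
    have h3 : cl (x ^ m.natAbs) = 0 := by
      rw [← h2]
      rfl
    have h4 : ((x ^ m.natAbs : H) : H ⧸ K) = 1 := h3
    rw [QuotientGroup.eq_one_iff, Subgroup.mem_subgroupOf] at h4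
    exact htf x x.2 m.natAbs (Int.natAbs_pos.2 hm0) (by simpa using h4)
  set D := Submodule.span ℚ (Set.range fun g => ρ g - 1) with hD
  let P : ℕ → Subgroup G := fun m =>
    { carrier := {x | ∃ hx : x ∈ H, ∀ d ∈ D ^ m, d (ι (cl ⟨x, hx⟩)) = 0}
      mul_mem' := by
        rintro a b ⟨ha, ha'⟩ ⟨hb, hb'⟩
        refine ⟨H.mul_mem ha hb, fun d hd => ?_⟩
        have : (⟨a * b, H.mul_mem ha hb⟩ : H) = ⟨a, ha⟩ * ⟨b, hb⟩ := rfl
        rw [this, hcl, map_add, map_add, ha' d hd, hb' d hd, add_zero]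
      one_mem' := by
        refine ⟨H.one_mem, fun d hd => ?_⟩
        have : cl ⟨1, H.one_mem⟩ = 0 := rfl
        rw [this, map_zero, map_zero]
      inv_mem' := by
        rintro a ⟨ha, ha'⟩
        refine ⟨H.inv_mem ha, fun d hd => ?_⟩
        have : (⟨a⁻¹, H.inv_mem ha⟩ : H) = (⟨a, ha⟩)⁻¹ := rfl
        rw [this, hcli, map_neg, map_neg, ha' d hd, neg_zero] }
  refine ⟨Module.End ℚ (ℚ ⊗[ℤ] V), inferInstance, inferInstance, ρ, P, ?_, ?_, ?_, ?_, ?_⟩
  · intro g
    have : ρ g - 1 = β (c g - 1) := by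
      rw [map_sub, map_one]; rfl
    rw [this, ← map_pow, hpow, map_zero]
  · intro h hh
    have : c h = 1 := by
      apply LinearMap.ext
      intro v
      obtain ⟨x, rfl⟩ := hcsurj v
      rw [hc, Module.End.one_apply]
      have h5 : ((MulAut.conjNormal h x : H) : H ⧸ K) = (x : H ⧸ K) := by
        rw [QuotientGroup.eq, Subgroup.mem_subgroupOf]
        have := hab h⁻¹ (H.inv_mem hh) x x.2
        simpa [mul_assoc] using this
      exact h5
    change β (c h) = 1
    rw [this, map_one]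
  · rintro x ⟨hx, hx'⟩
    have h6 := hx' 1 (by
      have h9 : D ^ 0 = 1 := pow_zero D
      rw [h9]; exact Submodule.one_le.1 le_rfl)
    exact hinj ⟨x, hx⟩ h6
  · rintro m x ⟨hx, hx'⟩ g
    have hxg : ⁅x, g⁆ ∈ H := by
      rw [commutatorElement_def]
      have := H.mul_mem hx ((inferInstance : H.Normal).conj_mem _ (H.inv_mem hx) g)
      simpa [mul_assoc] using this
    refine ⟨hxg, fun d hd => ?_⟩
    have h7 : (⟨⁅x, g⁆, hxg⟩ : H) = ⟨x, hx⟩ * (MulAut.conjNormal g ⟨x, hx⟩)⁻¹ := by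
      apply Subtype.ext
      rw [Subgroup.coe_mul, Subgroup.coe_inv, MulAut.conjNormal_apply]
      change ⁅x, g⁆ = x * (g * x * g⁻¹)⁻¹
      rw [commutatorElement_def]
      simp [mul_assoc]
    rw [h7, hcl, hcli, ← hc, map_add, map_neg, ← hρ]
    have h8 := hx' (d * (ρ g - 1)) (by
      have h9 : D ^ (m + 1) = D ^ m * D := pow_succ D m
      rw [h9]
      exact Submodule.mul_mem_mul hd (Submodule.subset_span ⟨g, rfl⟩))
    rw [Module.End.mul_apply, LinearMap.sub_apply, Module.End.one_apply, map_sub] at h8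
    rw [map_add, map_neg]
    rw [sub_eq_zero] at h8
    rw [h8, add_neg_cancel]
  · intro s hs x hx
    refine ⟨hx, fun d hd => ?_⟩
    rw [hs, Submodule.mem_bot] at hd
    rw [hd, LinearMap.zero_apply]

end Rep

/-- Let `G` be a finitely generated `n`-Engel group, `H` normal with `G ⧸ H` nilpotent, `H1 ≤ H`
normal in `G` with `H ⧸ H1` torsion-free abelian (stated elementwise).  Then `G ⧸ H1` is
nilpotent. -/
theorem nilpotent_quotient {n : ℕ} {G : Type} [Group G] (hfg : Group.FG G) (hE : Engel n G)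
    (H H1 : Subgroup G) [H.Normal] [H1.Normal] (hle : H1 ≤ H) [hnil : Group.IsNilpotent (G ⧸ H)]
    (hab : ∀ x ∈ H, ∀ y ∈ H, x⁻¹ * y⁻¹ * x * y ∈ H1)
    (htf : ∀ x ∈ H, ∀ k : ℕ, 0 < k → x ^ k ∈ H1 → x ∈ H1) :
    Group.IsNilpotent (G ⧸ H1) := by
  obtain ⟨B, _, _, ρ, P, h1, h2, h3, h4, h5⟩ := exists_rep hE H H1 hle hab htf
  obtain ⟨s, hs⟩ := augmentation_nilpotent hfg hE H inferInstance ρ h1 h2
  have hHP := h5 s hs
  obtain ⟨m, hm⟩ := Subgroup.nilpotent_iff_lowerCentralSeries.1 hnil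
  have hmap : ∀ (K : Subgroup G) [K.Normal] (k : ℕ),
      ((⊤ : Subgroup G).lowerCentralSeries k).map (QuotientGroup.mk' K) =
        (⊤ : Subgroup (G ⧸ K)).lowerCentralSeries k := by
    intro K _ k
    have h := Subgroup.map_lowerCentralSeries (S := (⊤ : Subgroup G)) (QuotientGroup.mk' K) k
    rwa [Subgroup.map_top_of_surjective _ (QuotientGroup.mk'_surjective K)] at h
  have hmH : (⊤ : Subgroup G).lowerCentralSeries m ≤ H := by
    intro x hx
    rw [← QuotientGroup.eq_one_iff, ← Subgroup.mem_bot, ← hm, ← hmap H]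
    exact Subgroup.mem_map_of_mem _ hx
  have key : ∀ i ≤ s, (⊤ : Subgroup G).lowerCentralSeries (m + i) ≤ P (s - i) := by
    intro i
    induction i with
    | zero => intro _; exact hmH.trans hHP
    | succ i ih =>
      intro hi
      rw [← add_assoc, Subgroup.lowerCentralSeries_succ, Subgroup.commutator_le]
      intro x hx g _
      have h6 := ih (by omega) hx
      have h7 : s - i = (s - (i + 1)) + 1 := by omega
      rw [h7] at h6
      exact h4 _ x h6 g
  rw [Subgroup.nilpotent_iff_lowerCentralSeries]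
  refine ⟨m + s, ?_⟩
  rw [← hmap H1, eq_bot_iff]
  rintro _ ⟨x, hx, rfl⟩
  rw [Subgroup.mem_bot]
  refine (QuotientGroup.eq_one_iff x).2 (h3 ?_)
  have := key s le_rfl hx
  rwa [Nat.sub_self] at this

end Pool.Agent.Lib.MP_7ac902_al.Z
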