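import Pool.Agent.Lib.MP_7ac902_al.Z.Main
import Pool.Agent.Lib.MP_7ac902_al.Z.TfNil
import Pool.Agent.Lib.MP_7ac902_al.Z.Unip
import Pool.Agent.Lib.MP_7ac902_al.Indicable

set_option autoImplicit false

namespace Pool.Agent.Lib.MP_7ac902_al.Z

/-- The normal subgroups with torsion-free nilpotent quotient. -/
private def NN (G : Type) [Group G] : Set (Subgroup G) :=
  {K | ∃ _ : K.Normal, TF (G ⧸ K) ∧ Group.IsNilpotent (G ⧸ K)}

private theorem lcs_le {n N : ℕ} (hP : NilPair n N) {G : Type} [Group G] (hE : Engel n G)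
    (K : Subgroup G) (hK : K ∈ NN G) : (⊤ : Subgroup G).lowerCentralSeries (2 * N) ≤ K := by
  obtain ⟨hn, htf, hnil⟩ := hK
  have h := lowerCentralSeries_eq_bot hP (G := G ⧸ K) htf
    (hE.of_surjective (QuotientGroup.mk' K) (QuotientGroup.mk'_surjective K))
  intro x hx
  have h1 : QuotientGroup.mk' K x ∈ (⊤ : Subgroup (G ⧸ K)).lowerCentralSeries (2 * N) := by
    have h2 := Subgroup.map_lowerCentralSeries (S := (⊤ : Subgroup G)) (QuotientGroup.mk' K) (2 * N)
    rw [Subgroup.map_top_of_surjective _ (QuotientGroup.mk'_surjective K)] at h2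
    rw [← h2]
    exact Subgroup.mem_map_of_mem _ hx
  rw [h, Subgroup.mem_bot] at h1
  exact (QuotientGroup.eq_one_iff x).1 h1

private theorem tf_quot {G : Type} [Group G] (K : Subgroup G) [K.Normal] :
    TF (G ⧸ K) ↔ ∀ (x : G) (k : ℕ), 0 < k → x ^ k ∈ K → x ∈ K := by
  constructor
  · intro h x k hk hx
    rw [← QuotientGroup.eq_one_iff] at hx ⊢
    exact h _ k hk (by simpa using hx)
  · intro h g k hk hg
    induction g using QuotientGroup.induction_on with
    | H x =>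
      rw [← QuotientGroup.mk_pow, QuotientGroup.eq_one_iff] at hg
      rw [QuotientGroup.eq_one_iff]
      exact h x k hk hg

/-- Finitely generated locally indicable torsion-free `n`-Engel groups are nilpotent of class at most
`2 N`. -/
theorem fg_case {n N : ℕ} (hP : NilPair n N) {G : Type} [Group G] (hfg : Group.FG G)
    (hE : Engel n G)
    (hind : ∀ H : Subgroup G, H.FG → H ≠ ⊥ → ∃ φ : H →* Multiplicative ℤ, Function.Surjective φ) :
    (⊤ : Subgroup G).lowerCentralSeries (2 * N) = ⊥ := by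
  classical
  set H : Subgroup G := sInf (NN G) with hHdef
  have hle : (⊤ : Subgroup G).lowerCentralSeries (2 * N) ≤ H :=
    le_sInf fun K hK => lcs_le hP hE K hK
  have hHn : H.Normal := by
    rw [hHdef]
    refine ⟨fun x hx g => ?_⟩
    rw [Subgroup.mem_sInf] at hx ⊢
    intro K hK
    exact hK.choose.conj_mem x (hx K hK) g
  have htfH : ∀ (x : G) (k : ℕ), 0 < k → x ^ k ∈ H → x ∈ H := by
    intro x k hk hx
    rw [hHdef, Subgroup.mem_sInf] at hx ⊢
    intro K hK
    have hKm := hx K hK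
    obtain ⟨hn, htf, -⟩ := hK
    exact (tf_quot K).1 htf x k hk hKm
  have hnilH : Group.IsNilpotent (G ⧸ H) := by
    rw [Subgroup.nilpotent_iff_lowerCentralSeries]
    refine ⟨2 * N, ?_⟩
    have h2 := Subgroup.map_lowerCentralSeries (S := (⊤ : Subgroup G)) (QuotientGroup.mk' H) (2 * N)
    rw [Subgroup.map_top_of_surjective _ (QuotientGroup.mk'_surjective H)] at h2
    rw [← h2, eq_bot_iff]
    rintro _ ⟨x, hx, rfl⟩
    rw [Subgroup.mem_bot]
    exact (QuotientGroup.eq_one_iff x).2 (hle hx)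
  by_cases hbot : H = ⊥
  · rw [hbot] at hle
    exact le_bot_iff.1 hle
  exfalso
  have hHfg : H.FG := fg_of_solvable_quotient hfg hE H inferInstance
  obtain ⟨φ, hφ⟩ := hind H hHfg hbot
  -- the intersection of all kernels
  let H1 : Subgroup G :=
    { carrier := {x | ∃ hx : x ∈ H, ∀ ψ : H →* Multiplicative ℤ, ψ ⟨x, hx⟩ = 1}
      mul_mem' := by
        rintro a b ⟨ha, ha'⟩ ⟨hb, hb'⟩
        refine ⟨H.mul_mem ha hb, fun ψ => ?_⟩
        have : (⟨a * b, H.mul_mem ha hb⟩ : H) = ⟨a, ha⟩ * ⟨b, hb⟩ := rfl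
        rw [this, map_mul, ha', hb', one_mul]
      one_mem' := ⟨H.one_mem, fun ψ => map_one ψ⟩
      inv_mem' := by
        rintro a ⟨ha, ha'⟩
        refine ⟨H.inv_mem ha, fun ψ => ?_⟩
        have : (⟨a⁻¹, H.inv_mem ha⟩ : H) = (⟨a, ha⟩)⁻¹ := rfl
        rw [this, map_inv, ha', inv_one] }
  have hmem : ∀ x : G, x ∈ H1 ↔ ∃ hx : x ∈ H, ∀ ψ : H →* Multiplicative ℤ, ψ ⟨x, hx⟩ = 1 :=
    fun x => Iff.rfl
  have hH1 : H1 ≤ H := fun x hx => hx.1
  have hH1n : H1.Normal := by
    refine ⟨fun x hx g => ?_⟩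
    obtain ⟨hx, hx'⟩ := (hmem x).1 hx
    refine (hmem _).2 ⟨hHn.conj_mem x hx g, fun ψ => ?_⟩
    have := hx' (ψ.comp (MulAut.conjNormal g : MulAut H).toMonoidHom)
    rw [← this, MonoidHom.comp_apply]
    congr 1
  have hab : ∀ x ∈ H, ∀ y ∈ H, x⁻¹ * y⁻¹ * x * y ∈ H1 := by
    intro x hx y hy
    refine (hmem _).2 ⟨H.mul_mem (H.mul_mem (H.mul_mem (H.inv_mem hx) (H.inv_mem hy)) hx) hy,
      fun ψ => ?_⟩
    have : (⟨x⁻¹ * y⁻¹ * x * y, H.mul_mem (H.mul_mem (H.mul_mem (H.inv_mem hx) (H.inv_mem hy)) hx)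
      hy⟩ : H) = (⟨x, hx⟩)⁻¹ * (⟨y, hy⟩)⁻¹ * ⟨x, hx⟩ * ⟨y, hy⟩ := rfl
    rw [this]
    simp only [map_mul, map_inv]
    rw [mul_assoc, mul_assoc, mul_left_comm (ψ ⟨y, hy⟩)⁻¹]
    simp
  have htf1 : ∀ x ∈ H, ∀ k : ℕ, 0 < k → x ^ k ∈ H1 → x ∈ H1 := by
    intro x hx k hk hxk
    obtain ⟨hx1, hx2⟩ := (hmem _).1 hxk
    refine (hmem _).2 ⟨hx, fun ψ => ?_⟩
    have h1 := hx2 ψ
    have h2 : (⟨x ^ k, hx1⟩ : H) = (⟨x, hx⟩ : H) ^ k := rfl
    rw [h2, map_pow] at h1
    have h3 : k • Multiplicative.toAdd (ψ ⟨x, hx⟩) = 0 := by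
      rw [← toAdd_pow, h1, toAdd_one]
    rcases smul_eq_zero.1 h3 with h4 | h4
    · omega
    · exact toAdd_eq_zero.1 h4
  have hnil1 : Group.IsNilpotent (G ⧸ H1) := nilpotent_quotient hfg hE H H1 hH1 hab htf1
  have hH1N : H1 ∈ NN G := by
    refine ⟨hH1n, (tf_quot H1).2 fun x k hk hx => ?_, hnil1⟩
    exact htf1 x (htfH x k hk (hH1 hx)) k hk hx
  have hHH1 : H ≤ H1 := sInf_le hH1N
  obtain ⟨x, hx⟩ := hφ (Multiplicative.ofAdd 1)
  obtain ⟨hx1, hx2⟩ := (hmem _).1 (hHH1 x.2)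
  have h3 := hx2 φ
  have h4 : (⟨x.1, hx1⟩ : H) = x := rfl
  rw [h4, hx] at h3
  exact absurd (ofAdd_eq_one.1 h3) one_ne_zero

/-- Elements of the lower central series lie in the lower central series of a finitely generated
subgroup. -/
private theorem exists_fg {G : Type} [Group G] (m : ℕ) :
    ∀ x ∈ (⊤ : Subgroup G).lowerCentralSeries m, ∃ S : Subgroup G, S.FG ∧
      x ∈ S.lowerCentralSeries m := by
  induction m with
  | zero =>
    intro x _
    refine ⟨Subgroup.closure {x}, ⟨{x}, by simp⟩, ?_⟩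
    exact Subgroup.subset_closure rfl
  | succ m ih =>
    intro x hx
    rw [Subgroup.lowerCentralSeries_succ] at hx
    induction hx using Subgroup.closure_induction with
    | mem x hx =>
      obtain ⟨p, hp, q, -, rfl⟩ := hx
      obtain ⟨S, hS, hpS⟩ := ih p hp
      refine ⟨S ⊔ Subgroup.closure {q}, hS.sup ⟨{q}, by simp⟩, ?_⟩
      rw [Subgroup.lowerCentralSeries_succ]
      apply Subgroup.subset_closure
      exact ⟨p, Subgroup.lowerCentralSeries_mono m le_sup_left hpS, q,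
        (le_sup_right : Subgroup.closure {q} ≤ _) (Subgroup.subset_closure rfl), rfl⟩
    | one => exact ⟨⊥, ⟨∅, by simp⟩, Subgroup.one_mem _⟩
    | mul x y _ _ hx hy =>
      obtain ⟨S, hS, hxS⟩ := hx
      obtain ⟨T, hT, hyT⟩ := hy
      exact ⟨S ⊔ T, hS.sup hT, Subgroup.mul_mem _ (Subgroup.lowerCentralSeries_mono _ le_sup_left hxS)
        (Subgroup.lowerCentralSeries_mono _ le_sup_right hyT)⟩
    | inv x _ hx =>
      obtain ⟨S, hS, hxS⟩ := hx
      exact ⟨S, hS, Subgroup.inv_mem _ hxS⟩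

/-- Right-orderable `n`-Engel groups are nilpotent. -/
theorem isNilpotent_of_rightOrder {n : ℕ} {G : Type} [Group G]
    (hG : ∃ lo : LinearOrder G, ∀ a b c : G, lo.le a b → lo.le (a * c) (b * c))
    (hE : Engel n G) : Group.IsNilpotent G := by
  obtain ⟨N, hP⟩ := exists_nilPair n
  obtain ⟨lo, hlo⟩ := hG
  have hsub : ∀ S : Subgroup G, S.FG → (⊤ : Subgroup S).lowerCentralSeries (2 * N) = ⊥ := by
    intro S hS
    have hSfg : Group.FG S := (Group.fg_iff_subgroup_fg S).2 hS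
    have hES : Engel n S := hE.of_injective S.subtype S.subtype_injective
    refine fg_case hP hSfg hES ?_
    intro H hH hHne
    have hHfg : Group.FG H := (Group.fg_iff_subgroup_fg H).2 hH
    have hEH : Engel n H := hES.of_injective H.subtype H.subtype_injective
    let f : H → G := fun x => ((x : S) : G)
    have hf : Function.Injective f := fun a b hab => Subtype.ext (Subtype.ext hab)
    let loH : LinearOrder H := LinearOrder.lift' f hf
    refine exists_hom_of_rightOrder (G := H) (fun a b c hab => ?_) hEH hHfg ?_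
    · exact hlo (f a) (f b) (f c) hab
    · by_contra hcon
      push Not at hcon
      apply hHne
      rw [eq_bot_iff]
      intro x hx
      have := hcon ⟨x, hx⟩
      rw [Subgroup.mem_bot]
      exact congrArg Subtype.val this
  rw [Subgroup.nilpotent_iff_lowerCentralSeries]
  refine ⟨2 * N, ?_⟩
  rw [eq_bot_iff]
  intro x hx
  obtain ⟨S, hS, hxS⟩ := exists_fg (2 * N) x hx
  have h1 := hsub S hS
  have h2 := Subgroup.top_subtype_lowerCentralSeries S (2 * N)
  rw [h1] at h2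
  rw [← h2] at hxS
  simpa using hxS

end Pool.Agent.Lib.MP_7ac902_al.Z
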