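import Pool.Agent.Lib.MP_7ac902_al.Z.Ext

set_option autoImplicit false

namespace Pool.Agent.Lib.MP_7ac902_al.Z

open Finset TensorProduct

variable {R : Type} [Ring R] [Algebra ℚ R]

/-- The even generators `l_p ⊗ 1` and the odd generators `η_q = ∑_{χ p = q} v_p ⊗ ξ_p`. -/
noncomputable def gen {M i c : ℕ} (l : Fin i → R) (v : Fin M → R) (χ : Fin M → Fin c) :
    Fin i ⊕ Fin c → R ⊗[ℚ] Lam M :=
  Sum.elim (fun p => l p ⊗ₜ[ℚ] 1)
    (fun q => ∑ p ∈ univ.filter (fun p => χ p = q),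
      v p ⊗ₜ[ℚ] ExteriorAlgebra.ι ℚ (Pi.single p (1 : ℚ)))

end Pool.Agent.Lib.MP_7ac902_al.Z
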