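import Pool.Agent.Lib.MP_7ac902_al.Z.Defs

set_option autoImplicit false

namespace Pool.Agent.Lib.MP_7ac902_al.Z

open Finset Polynomial

section GrA

variable {B : Type*} [Ring B] [Algebra ℚ B]

private theorem gr_prod_mem (D : Submodule ℚ B) {n : ℕ} (x : Fin n → B) (e : Fin n → ℕ)
    (h : ∀ i, x i ∈ D ^ e i) : (List.ofFn x).prod ∈ D ^ (∑ i, e i) := by
  induction n with
  | zero =>
    simp only [List.ofFn_zero, List.prod_nil, univ_eq_empty, sum_empty, pow_zero]
    exact Submodule.one_le.1 le_rfl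
  | succ n ih =>
    rw [List.ofFn_succ, List.prod_cons, Fin.sum_univ_succ, pow_add]
    exact Submodule.mul_mem_mul (h 0) (ih _ _ fun i => h i.succ)

private theorem gr_anti {D : Submodule ℚ B} (hD : D * D ≤ D) {a b : ℕ} (ha : 1 ≤ a)
    (hab : a ≤ b) : D ^ b ≤ D ^ a := by
  induction b, hab using Nat.le_induction with
  | base => exact le_rfl
  | succ b hb ih =>
    refine le_trans ?_ ih
    obtain ⟨m, rfl⟩ : ∃ m, b = m + 1 := ⟨b - 1, by omega⟩
    rw [pow_succ, pow_succ, mul_assoc]
    exact mul_le_mul' le_rfl hD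

/-- the alternating sum over the supersets of a set -/
private theorem gr_alt_sum {j : ℕ} (U : Finset (Fin j)) :
    ∑ S : Finset (Fin j), (if U ⊆ S then (-1 : ℤ) ^ #S else 0) =
      if U = univ then (-1 : ℤ) ^ j else 0 := by
  rw [← Finset.sum_filter]
  have h1 : ∑ S ∈ univ.filter (fun S => U ⊆ S), (-1 : ℤ) ^ #S =
      ∑ V ∈ (Uᶜ).powerset, (-1 : ℤ) ^ #U * (-1 : ℤ) ^ #V := by
    refine Finset.sum_bij' (fun S _ => S \ U) (fun V _ => U ∪ V) ?_ ?_ ?_ ?_ ?_
    · intro S _
      rw [mem_powerset]
      intro x hx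
      rw [mem_sdiff] at hx
      rw [mem_compl]
      exact hx.2
    · intro V _
      simp
    · intro S hS
      rw [mem_filter] at hS
      exact union_sdiff_of_subset hS.2
    · intro V hV
      rw [mem_powerset] at hV
      rw [union_sdiff_left]
      rw [Finset.sdiff_eq_self_iff_disjoint]
      rw [disjoint_left]
      intro x hx hxU
      exact (mem_compl.1 (hV hx)) hxU
    · intro S hS
      rw [mem_filter] at hS
      rw [← pow_add, ← card_union_of_disjoint disjoint_sdiff, union_sdiff_of_subset hS.2]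
  rw [h1, ← Finset.mul_sum, sum_powerset_neg_one_pow_card]
  by_cases hU : U = univ
  · subst hU
    simp
  · rw [if_neg hU, if_neg (by rwa [compl_eq_empty_iff]), mul_zero]

/-- product over the subset `T` of the `u m` -/
private def grv {j : ℕ} (u : Fin j → B) (T : Finset (Fin j)) : B :=
  (List.ofFn fun m => if m ∈ T then u m else 1).prod

private def grw {j : ℕ} (u : Fin j → B) (T : Finset (Fin j)) : B :=
  if T = ∅ then 0 else grv u T

private theorem gr_expand {j : ℕ} (u : Fin j → B) (S : Finset (Fin j)) :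
    (List.ofFn fun m => if m ∈ S then 1 + u m else 1).prod - 1 =
      ∑ T : Finset (Fin j), if T ⊆ S then grw u T else 0 := by
  have h0 : (fun m => if m ∈ S then 1 + u m else 1) =
      (fun m => if m ∈ S then u m else 0) + (fun _ => (1 : B)) := by
    funext m
    simp only [Pi.add_apply]
    split_ifs
    · rw [add_comm]
    · rw [zero_add]
  have h1 : (List.ofFn fun m => if m ∈ S then 1 + u m else 1).prod =
      ∑ T : Finset (Fin j), if T ⊆ S then grv u T else 0 := by
    rw [h0]
    have h2 := (MultilinearMap.mkPiAlgebraFin ℚ j B).map_add_univ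
      (fun m => if m ∈ S then u m else 0) (fun _ => (1 : B))
    simp only [MultilinearMap.mkPiAlgebraFin_apply] at h2
    rw [h2]
    refine Finset.sum_congr rfl fun T _ => ?_
    split_ifs with hTS
    · unfold grv
      congr 1
      congr 1
      funext m
      by_cases hm : m ∈ T
      · rw [Finset.piecewise_eq_of_mem _ _ _ hm, if_pos hm, if_pos (hTS hm)]
      · rw [Finset.piecewise_eq_of_notMem _ _ _ hm, if_neg hm]
    · rw [Finset.not_subset] at hTS
      obtain ⟨m, hm, hmS⟩ := hTS
      apply List.prod_eq_zero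
      rw [List.mem_ofFn]
      refine ⟨m, ?_⟩
      rw [Finset.piecewise_eq_of_mem _ _ _ hm, if_neg hmS]
  rw [h1]
  have h3 : ∀ T : Finset (Fin j), (if T ⊆ S then grv u T else 0) =
      (if T ⊆ S then grw u T else 0) + (if T = ∅ then 1 else 0) := by
    intro T
    unfold grw
    by_cases hT : T = ∅
    · subst hT
      have : grv u ∅ = 1 := by
        unfold grv
        simp
      simp [this]
    · simp [hT]
  rw [Finset.sum_congr rfl fun T _ => h3 T, Finset.sum_add_distrib]
  simp

private theorem gr_key_zero {j : ℕ} (u : Fin j → B)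
    (hpow : ∀ S : Finset (Fin j),
      ((List.ofFn fun m => if m ∈ S then 1 + u m else 1).prod - 1) ^ j = 0) :
    ∑ r ∈ univ.filter (fun r : Fin j → Finset (Fin j) => univ.biUnion r = univ),
      (List.ofFn fun k => grw u (r k)).prod = 0 := by
  have h2 : ∀ S : Finset (Fin j), ∑ r : Fin j → Finset (Fin j),
      (if univ.biUnion r ⊆ S then (List.ofFn fun k => grw u (r k)).prod else 0) = 0 := by
    intro S
    have h3 := hpow S
    rw [gr_expand, ← MultilinearMap.mkPiAlgebraFin_apply_const (R := ℚ), MultilinearMap.map_sum]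
      at h3
    refine Eq.trans ?_ h3
    refine Finset.sum_congr rfl fun r _ => ?_
    rw [MultilinearMap.mkPiAlgebraFin_apply]
    split_ifs with hr
    · rw [Finset.biUnion_subset] at hr
      congr 1
      congr 1
      funext k
      rw [if_pos (hr k (mem_univ k))]
    · rw [Finset.biUnion_subset] at hr
      push Not at hr
      obtain ⟨k, -, hk⟩ := hr
      symm
      apply List.prod_eq_zero
      rw [List.mem_ofFn]
      exact ⟨k, by rw [if_neg hk]⟩
  have h4 : ∑ S : Finset (Fin j), ((-1 : ℤ) ^ #S) • ∑ r : Fin j → Finset (Fin j),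
      (if univ.biUnion r ⊆ S then (List.ofFn fun k => grw u (r k)).prod else 0) = 0 := by
    refine Finset.sum_eq_zero fun S _ => ?_
    rw [h2 S, smul_zero]
  have h5 : ∑ S : Finset (Fin j), ((-1 : ℤ) ^ #S) • ∑ r : Fin j → Finset (Fin j),
      (if univ.biUnion r ⊆ S then (List.ofFn fun k => grw u (r k)).prod else 0) =
      ∑ r : Fin j → Finset (Fin j), (if univ.biUnion r = univ then (-1 : ℤ) ^ j else 0) •
        (List.ofFn fun k => grw u (r k)).prod := by
    simp only [Finset.smul_sum]
    rw [Finset.sum_comm]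
    refine Finset.sum_congr rfl fun r _ => ?_
    rw [← gr_alt_sum, Finset.sum_smul]
    refine Finset.sum_congr rfl fun S _ => ?_
    split_ifs
    · rfl
    · rw [smul_zero, zero_smul]
  rw [h5] at h4
  rw [Finset.sum_filter]
  have h6 : ∑ r : Fin j → Finset (Fin j), (if univ.biUnion r = univ then (-1 : ℤ) ^ j else 0) •
        (List.ofFn fun k => grw u (r k)).prod = ((-1 : ℤ) ^ j) • ∑ r : Fin j → Finset (Fin j),
        (if univ.biUnion r = univ then (List.ofFn fun k => grw u (r k)).prod else 0) := by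
    rw [Finset.smul_sum]
    refine Finset.sum_congr rfl fun r _ => ?_
    split_ifs
    · rfl
    · rw [smul_zero, zero_smul]
  rw [h6] at h4
  rcases neg_one_pow_eq_or ℤ j with h7 | h7
  · rw [h7, one_smul] at h4
    exact h4
  · rw [h7, neg_smul, one_smul, neg_eq_zero] at h4
    exact h4

/-- the symmetrized product lies one step deeper in the filtration -/
private theorem gr_key {j : ℕ} {D : Submodule ℚ B} (hD : D * D ≤ D) (u : Fin j → B)
    (e : Fin j → ℕ) (he : ∀ k, 1 ≤ e k) (hu : ∀ k, u k ∈ D ^ e k)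
    (hpow : ∀ S : Finset (Fin j),
      ((List.ofFn fun m => if m ∈ S then 1 + u m else 1).prod - 1) ^ j = 0) :
    ∑ σ : Equiv.Perm (Fin j), (List.ofFn fun k => u (σ k)).prod ∈ D ^ (∑ k, e k + 1) := by
  classical
  have h0 := gr_key_zero u hpow
  set A := univ.filter (fun r : Fin j → Finset (Fin j) => univ.biUnion r = univ) with hA
  set f : Equiv.Perm (Fin j) → (Fin j → Finset (Fin j)) := fun σ k => {σ k} with hf
  have hfinj : Function.Injective f := by
    intro σ τ hst
    ext k
    have := congrFun hst k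
    simp only [hf, Finset.singleton_inj] at this
    rw [this]
  set I := (univ : Finset (Equiv.Perm (Fin j))).image f with hI
  have hIA : I ⊆ A := by
    intro r hr
    rw [hI, mem_image] at hr
    obtain ⟨σ, -, rfl⟩ := hr
    rw [hA, mem_filter]
    refine ⟨mem_univ _, ?_⟩
    rw [eq_univ_iff_forall]
    intro m
    rw [mem_biUnion]
    exact ⟨σ.symm m, mem_univ _, by simp [hf]⟩
  have hsingle : ∀ σ : Equiv.Perm (Fin j), (List.ofFn fun k => grw u (f σ k)).prod =
      (List.ofFn fun k => u (σ k)).prod := by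
    intro σ
    congr 1
    congr 1
    funext k
    unfold grw grv
    rw [if_neg (by simp [hf])]
    have h1 : (fun m => if m ∈ f σ k then u m else 1) =
        Function.update (fun _ => (1 : B)) (σ k) (u (σ k)) := by
      funext m
      by_cases hm : m = σ k
      · subst hm
        simp [hf]
      · rw [Function.update_of_ne hm, if_neg (by simpa [hf] using hm)]
    rw [h1, List.ofFn_eq_map, (List.nodup_finRange j).map_update,
      if_pos (List.mem_finRange _), List.prod_set]
    simp
  rw [← Finset.sum_sdiff hIA, hI, Finset.sum_image fun _ _ _ _ h => hfinj h, ← hI] at h0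
  rw [Finset.sum_congr rfl fun σ _ => hsingle σ] at h0
  rw [eq_neg_of_add_eq_zero_right h0]
  apply Submodule.neg_mem
  apply Submodule.sum_mem
  intro r hr
  rw [mem_sdiff] at hr
  obtain ⟨hrA, hrI⟩ := hr
  rw [hA, mem_filter] at hrA
  have hcov := hrA.2
  by_cases hemp : ∃ k, r k = ∅
  · obtain ⟨k, hk⟩ := hemp
    have : (List.ofFn fun k => grw u (r k)).prod = 0 := by
      apply List.prod_eq_zero
      rw [List.mem_ofFn]
      exact ⟨k, by unfold grw; rw [if_pos hk]⟩
    rw [this]
    exact Submodule.zero_mem _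
  push Not at hemp
  have hmem : (List.ofFn fun k => grw u (r k)).prod ∈
      D ^ (∑ k, ∑ m, if m ∈ r k then e m else 0) := by
    apply gr_prod_mem
    intro k
    unfold grw grv
    rw [if_neg (Finset.nonempty_iff_ne_empty.1 (hemp k))]
    apply gr_prod_mem
    intro m
    split_ifs
    · exact hu m
    · rw [pow_zero]
      exact Submodule.one_le.1 le_rfl
  refine gr_anti hD (by omega) ?_ hmem
  -- some `r k` has at least two elements
  have hcard : j + 1 ≤ ∑ k, #(r k) := by
    have h1 : ∀ k, 1 ≤ #(r k) := fun k => Finset.card_pos.2 (hemp k)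
    by_contra hcon
    have h2 : ∀ k, #(r k) = 1 := by
      intro k
      by_contra hk
      have h3 : ∑ k : Fin j, 1 < ∑ k, #(r k) :=
        Finset.sum_lt_sum (fun k _ => h1 k) ⟨k, mem_univ k, by have := h1 k; omega⟩
      simp at h3
      omega
    have h4 : ∀ k, ∃ m, r k = {m} := fun k => Finset.card_eq_one.1 (h2 k)
    choose t ht using h4
    have hsurj : Function.Surjective t := by
      intro m
      have h5 : m ∈ univ.biUnion r := by rw [hcov]; exact mem_univ m
      rw [mem_biUnion] at h5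
      obtain ⟨k, -, hk⟩ := h5
      rw [ht k, mem_singleton] at hk
      exact ⟨k, hk.symm⟩
    apply hrI
    rw [hI, mem_image]
    refine ⟨Equiv.ofBijective t (Finite.surjective_iff_bijective.1 hsurj), mem_univ _, ?_⟩
    funext k
    simp only [hf]
    rw [Equiv.ofBijective_apply, ← ht k]
  have h6 : ∑ k, ∑ m, (if m ∈ r k then e m else 0) =
      ∑ k, #(r k) + ∑ k, ∑ m, (if m ∈ r k then e m - 1 else 0) := by
    rw [← Finset.sum_add_distrib]
    refine Finset.sum_congr rfl fun k _ => ?_
    rw [Finset.card_eq_sum_ones, ← Finset.sum_filter, ← Finset.sum_filter]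
    have h7 : univ.filter (fun m => m ∈ r k) = r k := by ext; simp
    rw [h7, ← Finset.sum_add_distrib]
    refine Finset.sum_congr rfl fun m _ => ?_
    have := he m
    omega
  have h8 : ∑ m, (e m - 1) ≤ ∑ k, ∑ m, (if m ∈ r k then e m - 1 else 0) := by
    rw [Finset.sum_comm]
    refine Finset.sum_le_sum fun m _ => ?_
    have h5 : m ∈ univ.biUnion r := by rw [hcov]; exact mem_univ m
    rw [mem_biUnion] at h5
    obtain ⟨k, -, hk⟩ := h5
    have h9 := Finset.single_le_sum (f := fun k => if m ∈ r k then e m - 1 else 0)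
      (fun _ _ => Nat.zero_le _) (mem_univ k)
    simp only [if_pos hk] at h9
    exact h9
  have h10 : ∑ k, e k = j + ∑ m, (e m - 1) := by
    have h11 : ∑ k, e k = ∑ k : Fin j, (1 + (e k - 1)) := by
      refine Finset.sum_congr rfl fun m _ => ?_
      have := he m
      omega
    rw [h11, Finset.sum_add_distrib]
    simp
  rw [h6, h10]
  omega

end GrA

/-- `P(j)` modulo an ideal -/
private theorem gr_nilPair_mod {j N : ℕ} (hP : NilPair j N) {A : Type} [Ring A] [Algebra ℚ A]
    (I : Ideal A) [I.IsTwoSided] (L : Submodule ℚ A)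
    (hL : ∀ x ∈ L, ∀ y ∈ L, ∃ z ∈ L, x * y - y * x - z ∈ I)
    (hidx : ∀ z ∈ L, z ^ j ∈ I) : ∀ w ∈ L ^ N, w ∈ I := by
  set π := Ideal.Quotient.mkₐ ℚ I with hπ
  have h1 : (L.map π.toLinearMap) ^ N = ⊥ := by
    apply hP
    · rintro _ ⟨x, hx, rfl⟩ _ ⟨y, hy, rfl⟩
      obtain ⟨z, hz, hxyz⟩ := hL x hx y hy
      refine ⟨z, hz, ?_⟩
      have h2 : π (x * y - y * x - z) = 0 := Ideal.Quotient.eq_zero_iff_mem.2 hxyz
      rw [map_sub, sub_eq_zero, map_sub, map_mul, map_mul] at h2
      exact h2.symm
    · rintro _ ⟨z, hz, rfl⟩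
      have h2 : π (z ^ j) = 0 := Ideal.Quotient.eq_zero_iff_mem.2 (hidx z hz)
      rw [map_pow] at h2
      exact h2
  intro w hw
  have h2 : π w ∈ (L.map π.toLinearMap) ^ N := by
    rw [← Submodule.map_pow]
    exact ⟨w, hw, rfl⟩
  rw [h1, Submodule.mem_bot] at h2
  exact Ideal.Quotient.eq_zero_iff_mem.1 h2

section Rees

variable {B : Type} [Ring B] [Algebra ℚ B]

/-- the Rees ring of the powers of `D` -/
private def rees (D : Submodule ℚ B) : Subalgebra ℚ B[X] where
  carrier := {p | ∀ i, p.coeff i ∈ D ^ i}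
  mul_mem' := by
    intro p q hp hq i
    rw [coeff_mul]
    apply Submodule.sum_mem
    intro x hx
    rw [HasAntidiagonal.mem_antidiagonal] at hx
    rw [← hx, pow_add]
    exact Submodule.mul_mem_mul (hp _) (hq _)
  add_mem' := by
    intro p q hp hq i
    rw [coeff_add]
    exact Submodule.add_mem _ (hp i) (hq i)
  algebraMap_mem' := by
    intro r i
    rw [Polynomial.algebraMap_apply, coeff_C]
    split_ifs with hi
    · subst hi
      rw [pow_zero]
      exact Submodule.algebraMap_mem r
    · exact Submodule.zero_mem _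

private theorem mem_rees {D : Submodule ℚ B} {p : B[X]} : p ∈ rees D ↔ ∀ i, p.coeff i ∈ D ^ i :=
  Iff.rfl

/-- the ideal of the Rees ring whose quotient is the graded ring -/
private def reesI (D : Submodule ℚ B) : Ideal (rees D) where
  carrier := {p | ∀ i, (p : B[X]).coeff i ∈ D ^ (i + 1)}
  add_mem' := by
    intro p q hp hq i
    have : ((p + q : rees D) : B[X]) = (p : B[X]) + (q : B[X]) := rfl
    rw [this, coeff_add]
    exact Submodule.add_mem _ (hp i) (hq i)
  zero_mem' := by
    intro i
    have : ((0 : rees D) : B[X]) = 0 := rfl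
    rw [this, coeff_zero]
    exact Submodule.zero_mem _
  smul_mem' := by
    intro p q hq i
    have : ((p • q : rees D) : B[X]) = (p : B[X]) * (q : B[X]) := rfl
    rw [this, coeff_mul]
    apply Submodule.sum_mem
    intro x hx
    rw [HasAntidiagonal.mem_antidiagonal] at hx
    rw [← hx, add_assoc, pow_add]
    exact Submodule.mul_mem_mul (p.2 _) (hq _)

private theorem mem_reesI {D : Submodule ℚ B} {p : rees D} :
    p ∈ reesI D ↔ ∀ i, (p : B[X]).coeff i ∈ D ^ (i + 1) := Iff.rfl

private instance reesI_twoSided (D : Submodule ℚ B) : (reesI D).IsTwoSided where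
  mul_mem_of_left := by
    intro p q hp
    rw [mem_reesI] at hp ⊢
    intro i
    have : ((p * q : rees D) : B[X]) = (p : B[X]) * (q : B[X]) := rfl
    rw [this, coeff_mul]
    apply Submodule.sum_mem
    intro x hx
    rw [HasAntidiagonal.mem_antidiagonal] at hx
    have h1 : i + 1 = (x.1 + 1) + x.2 := by omega
    rw [h1, pow_add]
    exact Submodule.mul_mem_mul (hp _) (q.2 _)

private theorem monomial_mem_rees {D : Submodule ℚ B} {i : ℕ} {x : B} (hx : x ∈ D ^ i) :
    monomial i x ∈ rees D := by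
  intro k
  rw [coeff_monomial]
  split_ifs with h
  · rw [← h]; exact hx
  · exact Submodule.zero_mem _

private theorem mem_reesI_of_eq_monomial {D : Submodule ℚ B} {p : rees D} {i : ℕ} {x : B}
    (hp : (p : B[X]) = monomial i x) (hx : x ∈ D ^ (i + 1)) : p ∈ reesI D := by
  intro k
  rw [hp, coeff_monomial]
  split_ifs with h
  · rw [← h]; exact hx
  · exact Submodule.zero_mem _

private theorem reesI_smul {D : Submodule ℚ B} (r : ℚ) {p : rees D} (hp : p ∈ reesI D) :
    r • p ∈ reesI D := by
  intro k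
  have : ((r • p : rees D) : B[X]) = r • (p : B[X]) := rfl
  rw [this, coeff_smul]
  exact Submodule.smul_mem _ _ (hp k)

private theorem prod_monomial {n : ℕ} (e : Fin n → ℕ) (x : Fin n → B) :
    (List.ofFn fun k => monomial (e k) (x k)).prod = monomial (∑ k, e k) (List.ofFn x).prod := by
  induction n with
  | zero => simp
  | succ n ih =>
    rw [List.ofFn_succ, List.prod_cons, ih, monomial_mul_monomial, Fin.sum_univ_succ,
      List.ofFn_succ, List.prod_cons]

variable {G : Type*} [Group G] (ρ : G →* B)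

/-- the span of the classes of `ρ g - 1` -/
private noncomputable def reesL (D : Submodule ℚ B) : Submodule ℚ (rees D) :=
  Submodule.span ℚ {p | ∃ (i : ℕ) (g : G), 1 ≤ i ∧ ρ g - 1 ∈ D ^ i ∧
    (p : B[X]) = monomial i (ρ g - 1)}

private theorem gr_comm {D : Submodule ℚ B} (hD : D * D ≤ D) (hmem : ∀ g, ρ g - 1 ∈ D) {g h : G}
    {i m : ℕ} (hi : 1 ≤ i) (hg : ρ g - 1 ∈ D ^ i) (hh : ρ h - 1 ∈ D ^ m) :
    ρ (g * h * (h * g)⁻¹) - 1 ∈ D ^ (i + m) ∧
    (ρ g - 1) * (ρ h - 1) - (ρ h - 1) * (ρ g - 1) - (ρ (g * h * (h * g)⁻¹) - 1) ∈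
      D ^ (i + m + 1) := by
  have e1 : (ρ g - 1) * (ρ h - 1) - (ρ h - 1) * (ρ g - 1) = ρ g * ρ h - ρ h * ρ g := by
    noncomm_ring
  have e2 : ρ (g * h * (h * g)⁻¹) - 1 = (ρ g * ρ h - ρ h * ρ g) * (ρ ((h * g)⁻¹) - 1) +
      (ρ g * ρ h - ρ h * ρ g) := by
    have : ρ h * ρ g * ρ ((h * g)⁻¹) = 1 := by
      rw [← map_mul, ← map_mul, mul_inv_cancel, map_one]
    rw [mul_sub, sub_mul, this, map_mul, map_mul]
    noncomm_ring
  have h1 : ρ g * ρ h - ρ h * ρ g ∈ D ^ (i + m) := by
    rw [← e1]
    apply Submodule.sub_mem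
    · rw [pow_add]
      exact Submodule.mul_mem_mul hg hh
    · rw [add_comm i m, pow_add]
      exact Submodule.mul_mem_mul hh hg
  have h2 : ∀ x ∈ D ^ (i + m), ∀ k : G, x * (ρ k - 1) ∈ D ^ (i + m + 1) := by
    intro x hx k
    rw [pow_succ]
    exact Submodule.mul_mem_mul hx (hmem k)
  have h3 : ρ (g * h * (h * g)⁻¹) - 1 ∈ D ^ (i + m) := by
    rw [e2]
    apply Submodule.add_mem _ _ h1
    exact gr_anti hD (by omega) (Nat.le_succ _) (h2 _ h1 _)
  refine ⟨h3, ?_⟩
  have e3 : (ρ g - 1) * (ρ h - 1) - (ρ h - 1) * (ρ g - 1) - (ρ (g * h * (h * g)⁻¹) - 1) =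
      (ρ (g * h * (h * g)⁻¹) - 1) * (ρ (h * g) - 1) := by
    have : ρ (g * h * (h * g)⁻¹) * ρ (h * g) = ρ g * ρ h := by
      rw [← map_mul, inv_mul_cancel_right, map_mul]
    rw [e1, sub_mul, mul_sub, this, map_mul ρ h g]
    noncomm_ring
  rw [e3]
  exact h2 _ h3 _

private theorem reesL_comm {D : Submodule ℚ B} (hD : D * D ≤ D) (hmem : ∀ g, ρ g - 1 ∈ D) :
    ∀ x ∈ reesL ρ D, ∀ y ∈ reesL ρ D, ∃ z ∈ reesL ρ D, x * y - y * x - z ∈ reesI D := by
  intro x hx
  refine Submodule.span_induction ?_ ?_ ?_ ?_ hx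
  · rintro p ⟨i, g, hi, hg, hp⟩ y hy
    refine Submodule.span_induction ?_ ?_ ?_ ?_ hy
    · rintro q ⟨m, h, hm, hh, hq⟩
      obtain ⟨h1, h2⟩ := gr_comm ρ hD hmem hi hg hh
      refine ⟨⟨monomial (i + m) (ρ (g * h * (h * g)⁻¹) - 1), monomial_mem_rees h1⟩,
        Submodule.subset_span ⟨i + m, _, by omega, h1, rfl⟩, ?_⟩
      refine mem_reesI_of_eq_monomial (i := i + m) ?_ h2
      show (p : B[X]) * (q : B[X]) - (q : B[X]) * (p : B[X]) - monomial (i + m) _ = _
      rw [hp, hq, monomial_mul_monomial, monomial_mul_monomial, add_comm m i, ← map_sub, ← map_sub]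
    · refine ⟨0, Submodule.zero_mem _, ?_⟩
      have : p * 0 - 0 * p - 0 = 0 := by simp
      rw [this]
      exact Ideal.zero_mem _
    · rintro y y' - - ⟨z, hz, h1⟩ ⟨z', hz', h1'⟩
      refine ⟨z + z', Submodule.add_mem _ hz hz', ?_⟩
      have : p * (y + y') - (y + y') * p - (z + z') =
        (p * y - y * p - z) + (p * y' - y' * p - z') := by noncomm_ring
      rw [this]
      exact Ideal.add_mem _ h1 h1'
    · rintro r y - ⟨z, hz, h1⟩
      refine ⟨r • z, Submodule.smul_mem _ _ hz, ?_⟩
      have : p * (r • y) - (r • y) * p - r • z = r • (p * y - y * p - z) := by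
        rw [mul_smul_comm, smul_mul_assoc, ← smul_sub, ← smul_sub]
      rw [this]
      exact reesI_smul r h1
  · intro y _
    refine ⟨0, Submodule.zero_mem _, ?_⟩
    have : 0 * y - y * 0 - 0 = 0 := by simp
    rw [this]
    exact Ideal.zero_mem _
  · rintro x x' - - h h' y hy
    obtain ⟨z, hz, h1⟩ := h y hy
    obtain ⟨z', hz', h1'⟩ := h' y hy
    refine ⟨z + z', Submodule.add_mem _ hz hz', ?_⟩
    have : (x + x') * y - y * (x + x') - (z + z') =
        (x * y - y * x - z) + (x' * y - y * x' - z') := by noncomm_ring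
    rw [this]
    exact Ideal.add_mem _ h1 h1'
  · rintro r x - h y hy
    obtain ⟨z, hz, h1⟩ := h y hy
    refine ⟨r • z, Submodule.smul_mem _ _ hz, ?_⟩
    have : (r • x) * y - y * (r • x) - r • z = r • (x * y - y * x - z) := by
      rw [mul_smul_comm, smul_mul_assoc, ← smul_sub, ← smul_sub]
    rw [this]
    exact reesI_smul r h1

private theorem reesL_index {D : Submodule ℚ B} (hD : D * D ≤ D) {j : ℕ}
    (hρ : ∀ g, (ρ g - 1) ^ j = 0) : ∀ z ∈ reesL ρ D, z ^ j ∈ reesI D := by
  intro z hz
  unfold reesL at hz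
  rw [Submodule.mem_span_set'] at hz
  obtain ⟨n, c, t, rfl⟩ := hz
  choose i g hi hg hp using fun k => (t k).2
  -- the symmetrized product of generators
  have hsym : ∀ r : Fin j → Fin n,
      ∑ σ : Equiv.Perm (Fin j), (List.ofFn fun k => (t (r (σ k)) : rees D)).prod ∈ reesI D := by
    intro r
    have h1 := gr_key hD (fun k => ρ (g (r k)) - 1) (fun k => i (r k)) (fun k => hi _)
      (fun k => hg _) (by
        intro S
        have h2 : (fun m => if m ∈ S then 1 + (ρ (g (r m)) - 1) else 1) =
            fun m => ρ (if m ∈ S then g (r m) else 1) := by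
          funext m
          split_ifs
          · rw [add_sub_cancel]
          · rw [map_one]
        have h3 : (List.ofFn fun m => ρ (if m ∈ S then g (r m) else 1)).prod =
            ρ (List.ofFn fun m => if m ∈ S then g (r m) else 1).prod := by
          rw [map_list_prod, List.map_ofFn]
          rfl
        rw [h2, h3]
        exact hρ _)
    refine mem_reesI_of_eq_monomial (i := ∑ k, i (r k)) ?_ h1
    rw [map_sum]
    have h4 : ((∑ σ : Equiv.Perm (Fin j), (List.ofFn fun k => (t (r (σ k)) : rees D)).prod :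
        rees D) : B[X]) = ∑ σ : Equiv.Perm (Fin j),
          (((List.ofFn fun k => (t (r (σ k)) : rees D)).prod : rees D) : B[X]) :=
      map_sum (rees D).val _ _
    rw [h4]
    refine Finset.sum_congr rfl fun σ _ => ?_
    have h5 : (((List.ofFn fun k => (t (r (σ k)) : rees D)).prod : rees D) : B[X]) =
        (List.ofFn fun k => ((t (r (σ k)) : rees D) : B[X])).prod := by
      have := map_list_prod (rees D).val (List.ofFn fun k => (t (r (σ k)) : rees D))
      rw [List.map_ofFn] at this
      exact this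
    rw [h5]
    simp only [hp]
    rw [prod_monomial, Equiv.sum_comp σ fun k => i (r k)]
  have h1 : ∑ σ : Equiv.Perm (Fin j), (∑ k, c k • (t k : rees D)) ^ j =
      ∑ r : Fin j → Fin n, (∏ k, c (r k)) •
        ∑ σ : Equiv.Perm (Fin j), (List.ofFn fun k => (t (r (σ k)) : rees D)).prod := by
    simp only [Finset.smul_sum]
    rw [Finset.sum_comm]
    refine Finset.sum_congr rfl fun σ _ => ?_
    have h2 : (∑ k, c k • (t k : rees D)) ^ j = ∑ r : Fin j → Fin n,
        (∏ k, c (r k)) • (List.ofFn fun k => (t (r k) : rees D)).prod := by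
      rw [← MultilinearMap.mkPiAlgebraFin_apply_const (R := ℚ), MultilinearMap.map_sum]
      refine Finset.sum_congr rfl fun r _ => ?_
      rw [MultilinearMap.map_smul_univ (MultilinearMap.mkPiAlgebraFin ℚ j (rees D))
        (fun k => c (r k)) (fun k => (t (r k) : rees D)), MultilinearMap.mkPiAlgebraFin_apply]
    rw [h2]
    rw [← Equiv.sum_comp (Equiv.arrowCongr σ.symm (Equiv.refl (Fin n)))]
    refine Finset.sum_congr rfl fun r _ => ?_
    show (∏ k, c (r (σ k))) • (List.ofFn fun k => (t (r (σ k)) : rees D)).prod = _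
    rw [Equiv.prod_comp σ fun k => c (r k)]
  have h2 : ∑ _σ : Equiv.Perm (Fin j), (∑ k, c k • (t k : rees D)) ^ j ∈ reesI D := by
    rw [h1]
    exact Ideal.sum_mem _ fun r _ => reesI_smul _ (hsym r)
  rw [Finset.sum_const, Finset.card_univ, Fintype.card_perm, Fintype.card_fin] at h2
  have h3 := reesI_smul (1 / (Nat.factorial j : ℚ)) h2
  rw [← Nat.cast_smul_eq_nsmul ℚ, smul_smul] at h3
  have h4 : (1 / (Nat.factorial j : ℚ)) * (Nat.factorial j : ℚ) = 1 := by
    have : (Nat.factorial j : ℚ) ≠ 0 := by exact_mod_cast Nat.factorial_ne_zero j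
    field_simp
  rw [h4, one_smul] at h3
  exact h3

end Rees

/-- Group version: a group of unipotent elements of index `j` whose augmentation space `D` is
nilpotent satisfies `D ^ N = 0` with the bound `N` of `P(j)`. -/
theorem unipotent_nil {j N : ℕ} (hP : NilPair j N) {G : Type*} [Group G] {B : Type} [Ring B]
    [Algebra ℚ B] (ρ : G →* B) (hρ : ∀ g, (ρ g - 1) ^ j = 0)
    (hs : ∃ s, (Submodule.span ℚ (Set.range fun g => ρ g - 1)) ^ s = ⊥) :
    (Submodule.span ℚ (Set.range fun g => ρ g - 1)) ^ N = ⊥ := by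
  obtain ⟨s, hs⟩ := hs
  set D := Submodule.span ℚ (Set.range fun g => ρ g - 1) with hDdef
  have hmem : ∀ g, ρ g - 1 ∈ D := fun g => Submodule.subset_span ⟨g, rfl⟩
  have hD : D * D ≤ D := by
    rw [hDdef, Submodule.span_mul_span, Submodule.span_le]
    rintro _ ⟨_, ⟨g, rfl⟩, _, ⟨h, rfl⟩, rfl⟩
    have h1 : (ρ g - 1) * (ρ h - 1) = (ρ (g * h) - 1) - (ρ g - 1) - (ρ h - 1) := by
      rw [map_mul]
      noncomm_ring
    simp only
    rw [h1]
    exact Submodule.sub_mem _ (Submodule.sub_mem _ (hmem _) (hmem _)) (hmem _)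
  have hnil := gr_nilPair_mod hP (reesI D) (reesL ρ D) (reesL_comm ρ hD hmem)
    (reesL_index ρ hD hρ)
  -- lift of elements of `D ^ n`
  have hlift : ∀ n : ℕ, ∀ w ∈ D ^ n, ∃ p ∈ (reesL ρ D) ^ n, ((p : rees D) : B[X]) = monomial n w := by
    intro n
    induction n with
    | zero =>
      intro w hw
      rw [pow_zero, Submodule.mem_one] at hw
      obtain ⟨r, rfl⟩ := hw
      refine ⟨algebraMap ℚ _ r, ?_, ?_⟩
      · rw [pow_zero]
        exact Submodule.algebraMap_mem r
      · rfl
    | succ n ih =>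
      intro w hw
      rw [pow_succ] at hw
      refine Submodule.mul_induction_on hw ?_ ?_
      · intro a ha b hb
        obtain ⟨p, hp, hpa⟩ := ih a ha
        have h1 : ∃ q ∈ reesL ρ D, ((q : rees D) : B[X]) = monomial 1 b := by
          refine Submodule.span_induction ?_ ?_ ?_ ?_ hb
          · rintro _ ⟨g, rfl⟩
            refine ⟨⟨monomial 1 (ρ g - 1), monomial_mem_rees (by rw [pow_one]; exact hmem g)⟩,
              Submodule.subset_span ⟨1, g, le_rfl, by rw [pow_one]; exact hmem g, rfl⟩, rfl⟩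
          · exact ⟨0, Submodule.zero_mem _, by simp⟩
          · rintro x y - - ⟨q, hq, hqx⟩ ⟨q', hq', hqy⟩
            refine ⟨q + q', Submodule.add_mem _ hq hq', ?_⟩
            show (q : B[X]) + (q' : B[X]) = _
            rw [hqx, hqy, map_add]
          · rintro r x - ⟨q, hq, hqx⟩
            refine ⟨r • q, Submodule.smul_mem _ _ hq, ?_⟩
            show r • (q : B[X]) = _
            rw [hqx, smul_monomial]
        obtain ⟨q, hq, hqb⟩ := h1
        refine ⟨p * q, ?_, ?_⟩
        · rw [pow_succ]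
          exact Submodule.mul_mem_mul hp hq
        · show (p : B[X]) * (q : B[X]) = _
          rw [hpa, hqb, monomial_mul_monomial]
      · rintro x y ⟨p, hp, hpx⟩ ⟨q, hq, hqy⟩
        refine ⟨p + q, Submodule.add_mem _ hp hq, ?_⟩
        show (p : B[X]) + (q : B[X]) = _
        rw [hpx, hqy, map_add]
  have hstep : D ^ N ≤ D ^ (N + 1) := by
    intro w hw
    obtain ⟨p, hp, hpw⟩ := hlift N w hw
    have h1 := hnil p hp N
    rw [hpw, coeff_monomial, if_pos rfl] at h1
    exact h1
  have hall : ∀ k, D ^ N ≤ D ^ (N + k) := by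
    intro k
    induction k with
    | zero => exact le_rfl
    | succ k ih =>
      refine ih.trans ?_
      rw [pow_add, ← add_assoc, pow_succ, ]
      calc D ^ N * D ^ k ≤ D ^ (N + 1) * D ^ k := mul_le_mul' hstep le_rfl
        _ = D ^ (N + k) * D := by rw [← pow_add, ← pow_succ]; congr 1; omega
  rw [eq_bot_iff]
  refine (hall s).trans ?_
  rw [pow_add, hs, Submodule.mul_bot]

end Pool.Agent.Lib.MP_7ac902_al.Z
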