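import Pool.Agent.Lib.MP_7ac902_al.Z.TDefs

set_option autoImplicit false

namespace Pool.Agent.Lib.MP_7ac902_al.Z

namespace TEProp

/-- The two-sided ideal generated by `a`, as a `ℚ`-subspace. -/
private def idl (a : FF) : Submodule ℚ FF := ⊤ * Submodule.span ℚ {a} * ⊤

private theorem top_mul_top : (⊤ : Submodule ℚ FF) * ⊤ = ⊤ := by
  apply le_antisymm le_top
  intro x _
  have := Submodule.mul_mem_mul (M := (⊤ : Submodule ℚ FF)) (N := ⊤)
    (Submodule.mem_top (x := x)) (Submodule.mem_top (x := (1 : FF)))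
  rwa [mul_one] at this

private theorem top_mul_idl (a : FF) : ⊤ * idl a ≤ idl a := by
  unfold idl
  rw [← mul_assoc, ← mul_assoc, top_mul_top]

private theorem idl_mul_top (a : FF) : idl a * ⊤ ≤ idl a := by
  unfold idl
  rw [mul_assoc, top_mul_top]

private theorem mul_mem_idl (a x y : FF) : x * a * y ∈ idl a :=
  Submodule.mul_mem_mul (Submodule.mul_mem_mul Submodule.mem_top
    (Submodule.mem_span_singleton_self a)) Submodule.mem_top

private theorem idl_le {a : FF} {S : Submodule ℚ FF} (h : ∀ x y, x * a * y ∈ S) : idl a ≤ S := by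
  unfold idl
  rw [Submodule.mul_le]
  intro m hm y _
  have : (⊤ : Submodule ℚ FF) * Submodule.span ℚ {a} ≤
      S.comap (LinearMap.mulRight ℚ y) := by
    rw [Submodule.mul_le]
    intro x _ n hn
    rw [Submodule.mem_span_singleton] at hn
    obtain ⟨c, rfl⟩ := hn
    simp only [Submodule.mem_comap, LinearMap.mulRight_apply, Algebra.mul_smul_comm,
      Algebra.smul_mul_assoc]
    exact S.smul_mem _ (h x y)
  exact this hm

private theorem pow_left (I : Submodule ℚ FF) (hI : ⊤ * I ≤ I) (n : ℕ) (K : Submodule ℚ FF) :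
    K * I ^ (n + 1) ≤ I ^ (n + 1) := by
  calc K * I ^ (n + 1) = K * I * I ^ n := by rw [pow_succ', mul_assoc]
    _ ≤ I * I ^ n := mul_le_mul' ((mul_le_mul' le_top le_rfl).trans hI) le_rfl
    _ = I ^ (n + 1) := (pow_succ' _ _).symm

private theorem pow_right (I : Submodule ℚ FF) (hI : I * ⊤ ≤ I) (n : ℕ) (K : Submodule ℚ FF) :
    I ^ (n + 1) * K ≤ I ^ (n + 1) := by
  calc I ^ (n + 1) * K = I ^ n * (I * K) := by rw [pow_succ, mul_assoc]
    _ ≤ I ^ n * I := mul_le_mul' le_rfl ((mul_le_mul' le_rfl le_top).trans hI)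
    _ = I ^ (n + 1) := (pow_succ _ _).symm

private theorem sup_pow (I J : Submodule ℚ FF) (hI : ⊤ * I ≤ I) (hJ : ⊤ * J ≤ J)
    (hI' : I * ⊤ ≤ I) (hJ' : J * ⊤ ≤ J) :
    ∀ s m n : ℕ, m + n = s → (I ⊔ J) ^ (s + 1) ≤ I ^ (m + 1) ⊔ J ^ (n + 1) := by
  intro s
  induction s with
  | zero =>
    intro m n h
    obtain rfl : m = 0 := by omega
    obtain rfl : n = 0 := by omega
    simp
  | succ s ih =>
    intro m n h
    rw [pow_succ', Submodule.sup_mul]
    apply sup_le
    · rcases m with _ | m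
      · refine le_trans ?_ le_sup_left
        calc I * (I ⊔ J) ^ (s + 1) ≤ I * ⊤ := mul_le_mul' le_rfl le_top
          _ ≤ I := hI'
          _ = I ^ (0 + 1) := by simp
      · calc I * (I ⊔ J) ^ (s + 1) ≤ I * (I ^ (m + 1) ⊔ J ^ (n + 1)) :=
              mul_le_mul' le_rfl (ih m n (by omega))
          _ = I * I ^ (m + 1) ⊔ I * J ^ (n + 1) := Submodule.mul_sup _ _ _
          _ ≤ I ^ (m + 1 + 1) ⊔ J ^ (n + 1) :=
              sup_le_sup (pow_succ' I (m + 1)).ge (pow_left J hJ n I)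
    · rcases n with _ | n
      · refine le_trans ?_ le_sup_right
        calc J * (I ⊔ J) ^ (s + 1) ≤ J * ⊤ := mul_le_mul' le_rfl le_top
          _ ≤ J := hJ'
          _ = J ^ (0 + 1) := by simp
      · calc J * (I ⊔ J) ^ (s + 1) ≤ J * (I ^ (m + 1) ⊔ J ^ (n + 1)) :=
              mul_le_mul' le_rfl (ih m n (by omega))
          _ = J * I ^ (m + 1) ⊔ J * J ^ (n + 1) := Submodule.mul_sup _ _ _
          _ ≤ I ^ (m + 1) ⊔ J ^ (n + 1 + 1) :=
              sup_le_sup (pow_left I hI m J) (pow_succ' J (n + 1)).ge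

private theorem idl_add_le (a b : FF) : idl (a + b) ≤ idl a ⊔ idl b := by
  apply idl_le
  intro x y
  rw [mul_add, add_mul]
  exact Submodule.add_mem_sup (mul_mem_idl a x y) (mul_mem_idl b x y)

private theorem idl_smul_le (r : ℚ) (a : FF) : idl (r • a) ≤ idl a := by
  apply idl_le
  intro x y
  rw [Algebra.mul_smul_comm, Algebra.smul_mul_assoc]
  exact Submodule.smul_mem _ _ (mul_mem_idl a x y)

private theorem idl_mul_left_le (b a : FF) : idl (b * a) ≤ idl a := by
  apply idl_le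
  intro x y
  rw [← mul_assoc]
  exact mul_mem_idl a (x * b) y

private theorem idl_mul_right_le (a b : FF) : idl (a * b) ≤ idl a := by
  apply idl_le
  intro x y
  rw [← mul_assoc, mul_assoc (x * a) b y]
  exact mul_mem_idl a x (b * y)

private theorem lift_lift (u v : ℕ → FF) (f : FF) :
    FreeAlgebra.lift ℚ u (FreeAlgebra.lift ℚ v f) =
      FreeAlgebra.lift ℚ (fun i => FreeAlgebra.lift ℚ u (v i)) f := by
  have : ((FreeAlgebra.lift ℚ u).comp (FreeAlgebra.lift ℚ v)) =
      FreeAlgebra.lift ℚ (fun i => FreeAlgebra.lift ℚ u (v i)) := by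
    apply FreeAlgebra.hom_ext
    funext i
    simp
  exact congrArg (fun h => h f) this

private theorem exists_dep (g : FF) : ∃ r : ℕ, ∀ u v : ℕ → FF, (∀ i, i < r → u i = v i) →
    FreeAlgebra.lift ℚ u g = FreeAlgebra.lift ℚ v g := by
  induction g using FreeAlgebra.induction with
  | grade0 r => exact ⟨0, fun u v _ => by simp⟩
  | grade1 x => exact ⟨x + 1, fun u v h => by simpa using h x (by omega)⟩
  | mul a b ha hb =>
    obtain ⟨r, hr⟩ := ha
    obtain ⟨s, hs⟩ := hb
    refine ⟨max r s, fun u v h => ?_⟩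
    rw [map_mul, map_mul, hr u v fun i hi => h i (lt_of_lt_of_le hi (le_max_left _ _)),
      hs u v fun i hi => h i (lt_of_lt_of_le hi (le_max_right _ _))]
  | add a b ha hb =>
    obtain ⟨r, hr⟩ := ha
    obtain ⟨s, hs⟩ := hb
    refine ⟨max r s, fun u v h => ?_⟩
    rw [map_add, map_add, hr u v fun i hi => h i (lt_of_lt_of_le hi (le_max_left _ _)),
      hs u v fun i hi => h i (lt_of_lt_of_le hi (le_max_right _ _))]

/-- The key substitution argument: `g F g ⊆ T` implies `φ_u(g) F φ_u(g) ⊆ T`. -/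
private theorem subst_sandwich {T : Submodule ℚ FF} (hT : IsTIdeal T) {g : FF}
    (hgg : ∀ w, g * w * g ∈ T) (u : ℕ → FF) (hu : ∀ i, u i ∈ LL) (c : FF) :
    FreeAlgebra.lift ℚ u g * c * FreeAlgebra.lift ℚ u g ∈ T := by
  obtain ⟨r, hr⟩ := exists_dep g
  set w : FF := FreeAlgebra.lift ℚ (fun i => xx (i + r)) c with hw
  set u' : ℕ → FF := fun i => if i < r then u i else xx (i - r) with hu'
  have hu'L : ∀ i, u' i ∈ LL := by
    intro i
    simp only [hu']
    split_ifs
    · exact hu i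
    · exact xx_mem _
  have h1 : FreeAlgebra.lift ℚ u' g = FreeAlgebra.lift ℚ u g :=
    hr u' u fun i hi => by simp [hu', hi]
  have h2 : FreeAlgebra.lift ℚ u' w = c := by
    rw [hw, lift_lift]
    have : (fun i => FreeAlgebra.lift ℚ u' (xx (i + r))) = FreeAlgebra.ι ℚ := by
      funext i
      simp [hu', xx]
    rw [this]
    have h3 : FreeAlgebra.lift ℚ (FreeAlgebra.ι ℚ : ℕ → FF) = AlgHom.id ℚ FF := by
      apply FreeAlgebra.hom_ext
      funext i
      simp
    rw [h3]
    rfl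
  have h4 := hT.subst u' hu'L _ (hgg w)
  rwa [map_mul, map_mul, h1, h2] at h4

/-- The `T`-ideal `T'`. -/
private def TT {T : Submodule ℚ FF} (_hT : IsTIdeal T) : Submodule ℚ FF where
  carrier := {f | ∃ n : ℕ, ∀ u : ℕ → FF, (∀ i, u i ∈ LL) →
    idl (FreeAlgebra.lift ℚ u f) ^ (n + 1) ≤ T}
  zero_mem' := by
    refine ⟨0, fun u _ => ?_⟩
    rw [map_zero, zero_add, pow_one]
    apply idl_le
    intro x y
    simp
  add_mem' := by
    rintro a b ⟨m, hm⟩ ⟨n, hn⟩
    refine ⟨m + n, fun u hu => ?_⟩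
    rw [map_add]
    refine (pow_le_pow_left' (idl_add_le _ _) _).trans ?_
    refine (sup_pow _ _ (top_mul_idl _) (top_mul_idl _) (idl_mul_top _) (idl_mul_top _)
      (m + n) m n rfl).trans (sup_le (hm u hu) (hn u hu))
  smul_mem' := by
    rintro r a ⟨m, hm⟩
    refine ⟨m, fun u hu => ?_⟩
    rw [map_smul]
    exact (pow_le_pow_left' (idl_smul_le _ _) _).trans (hm u hu)

private theorem TT_tIdeal {T : Submodule ℚ FF} (hT : IsTIdeal T) : IsTIdeal (TT hT) where
  mul_left := by
    rintro a f ⟨m, hm⟩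
    refine ⟨m, fun u hu => ?_⟩
    rw [map_mul]
    exact (pow_le_pow_left' (idl_mul_left_le _ _) _).trans (hm u hu)
  mul_right := by
    rintro a f ⟨m, hm⟩
    refine ⟨m, fun u hu => ?_⟩
    rw [map_mul]
    exact (pow_le_pow_left' (idl_mul_right_le _ _) _).trans (hm u hu)
  subst := by
    rintro v hv f ⟨m, hm⟩
    refine ⟨m, fun u hu => ?_⟩
    rw [lift_lift]
    exact hm _ fun i => lift_mem LL_lie u hu (hv i)

private theorem le_TT {T : Submodule ℚ FF} (hT : IsTIdeal T) : T ≤ TT hT := by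
  intro f hf
  refine ⟨0, fun u hu => ?_⟩
  rw [zero_add, pow_one]
  apply idl_le
  intro x y
  exact hT.mul_right _ _ (hT.mul_left _ _ (hT.subst u hu f hf))

private theorem mem_TT_of_sandwich {T : Submodule ℚ FF} (hT : IsTIdeal T) {g : FF}
    (hgg : ∀ w, g * w * g ∈ T) : g ∈ TT hT := by
  refine ⟨1, fun u hu => ?_⟩
  have hkey := subst_sandwich hT hgg u hu
  set a := FreeAlgebra.lift ℚ u g with ha
  rw [pow_succ, pow_one, Submodule.mul_le]
  intro p hp q hq
  have h1 : idl a ≤ T.comap (LinearMap.mulLeft ℚ p) := by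
    apply idl_le
    intro x y
    simp only [Submodule.mem_comap, LinearMap.mulLeft_apply]
    have h2 : idl a ≤ T.comap (LinearMap.mulRight ℚ (x * a * y)) := by
      apply idl_le
      intro x' y'
      simp only [Submodule.mem_comap, LinearMap.mulRight_apply]
      have h3 := hT.mul_right y _ (hT.mul_left x' _ (hkey (y' * x)))
      have h4 : x' * a * y' * (x * a * y) = x' * (a * (y' * x) * a) * y := by
        noncomm_ring
      rw [h4]
      exact h3
    exact h2 hp
  exact h1 hq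

private theorem prod_mem_pow {a : FF} : ∀ (n : ℕ) (c : Fin n → FF),
    (List.ofFn fun t : Fin n => a * c t).prod ∈ idl a ^ n := by
  intro n
  induction n with
  | zero =>
    intro c
    simp only [List.ofFn_zero, List.prod_nil, pow_zero]
    exact Submodule.one_le.mp le_rfl
  | succ n ih =>
    intro c
    rw [List.ofFn_succ, List.prod_cons, pow_succ']
    apply Submodule.mul_mem_mul
    · have := mul_mem_idl a 1 (c 0)
      rwa [one_mul] at this
    · exact ih fun t => c t.succ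

end TEProp

open TEProp in
/-- The `T`-ideal `T' = {f : ∃ n, ∀ u, (F φ_u(f) F)^n ⊆ T}` contains some monomial
`x₀ ⋯ x_{k-1}`. -/
theorem exists_uniform_exponent {j : ℕ} {T : Submodule ℚ FF} (hT : Good j T)
    (hmax : ∀ T', Good j T' → T ≤ T' → T' = T) {g : FF} (hg : g ∉ T) (hgg : ∀ w, g * w * g ∈ T) :
    ∃ k n, ∀ u : ℕ → FF, (∀ i, u i ∈ LL) → ∀ c : Fin n → FF,
      (List.ofFn fun t : Fin n => (List.ofFn fun i : Fin k => u i).prod * c t).prod ∈ T := by
  have h1 : ¬ ∀ N, (List.ofFn fun i : Fin N => xx i).prod ∉ TT hT.toIsTIdeal := by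
    intro hN
    have hgood : Good j (TT hT.toIsTIdeal) :=
      { toIsTIdeal := TT_tIdeal hT.toIsTIdeal
        pow_mem := fun z hz => le_TT hT.toIsTIdeal (hT.pow_mem z hz)
        not_mem := hN }
    have h2 := hmax _ hgood (le_TT hT.toIsTIdeal)
    apply hg
    rw [← h2]
    exact mem_TT_of_sandwich hT.toIsTIdeal hgg
  push Not at h1
  obtain ⟨k, n, hn⟩ := h1
  refine ⟨k, n + 1, fun u hu c => hn u hu ?_⟩
  have h3 : FreeAlgebra.lift ℚ u (List.ofFn fun i : Fin k => xx i).prod =
      (List.ofFn fun i : Fin k => u i).prod := by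
    rw [map_list_prod, List.map_ofFn]
    congr 2
    funext i
    simp [xx]
  rw [h3]
  exact prod_mem_pow (n + 1) c

end Pool.Agent.Lib.MP_7ac902_al.Z
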