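import Pool.Agent.Lib.MP_7ac902_al.Z.TDefs

set_option autoImplicit false

namespace Pool.Agent.Lib.MP_7ac902_al.Z

/-- Two-sided ideals of `FF`, as subspaces. -/
structure IsTwo (Q : Submodule ℚ FF) : Prop where
  mul_left : ∀ a, ∀ f ∈ Q, a * f ∈ Q
  mul_right : ∀ a, ∀ f ∈ Q, f * a ∈ Q

/-- The ideal with the given carrier. -/
def IsTwo.toIdeal {Q : Submodule ℚ FF} (h : IsTwo Q) : Ideal FF where
  carrier := Q
  add_mem' := fun {_ _} ha hb => Q.add_mem ha hb
  zero_mem' := Q.zero_mem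
  smul_mem' := fun c x hx => h.mul_left c x hx

theorem IsTwo.mem_toIdeal {Q : Submodule ℚ FF} (h : IsTwo Q) {x : FF} :
    x ∈ h.toIdeal ↔ x ∈ Q := Iff.rfl

instance IsTwo.twoSided {Q : Submodule ℚ FF} (h : IsTwo Q) : h.toIdeal.IsTwoSided :=
  ⟨fun {a} b ha => h.mul_right b a ha⟩

/-- The quotient map. -/
noncomputable def IsTwo.qm {Q : Submodule ℚ FF} (h : IsTwo Q) : FF →ₐ[ℚ] FF ⧸ h.toIdeal :=
  Ideal.Quotient.mkₐ ℚ h.toIdeal

theorem IsTwo.qm_surj {Q : Submodule ℚ FF} (h : IsTwo Q) : Function.Surjective h.qm :=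
  Ideal.Quotient.mkₐ_surjective ℚ h.toIdeal

theorem IsTwo.qm_eq_zero {Q : Submodule ℚ FF} (h : IsTwo Q) (x : FF) : h.qm x = 0 ↔ x ∈ Q := by
  have : h.qm x = Ideal.Quotient.mk h.toIdeal x := rfl
  rw [this, Ideal.Quotient.eq_zero_iff_mem]
  exact h.mem_toIdeal

/-- The image of `LL` is Lie closed. -/
theorem IsTwo.map_lie {Q : Submodule ℚ FF} (h : IsTwo Q) :
    LieClosed (LL.map h.qm.toLinearMap) := by
  rintro _ ⟨x, hx, rfl⟩ _ ⟨y, hy, rfl⟩
  refine ⟨x * y - y * x, LL_lie x hx y hy, ?_⟩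
  simp only [AlgHom.toLinearMap_apply, map_sub, map_mul]

/-- The image of `LL` has index `j` if `Q` contains the `j`-th powers. -/
theorem IsTwo.map_index {Q : Submodule ℚ FF} (h : IsTwo Q) {j : ℕ} (hj : ∀ z ∈ LL, z ^ j ∈ Q) :
    Index (LL.map h.qm.toLinearMap) j := by
  rintro _ ⟨x, hx, rfl⟩
  rw [AlgHom.toLinearMap_apply, ← map_pow, h.qm_eq_zero]
  exact hj x hx

/-- The image of `LL` generates the quotient. -/
theorem IsTwo.map_adjoin {Q : Submodule ℚ FF} (h : IsTwo Q) :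
    Algebra.adjoin ℚ ((LL.map h.qm.toLinearMap : Submodule ℚ (FF ⧸ h.toIdeal)) :
      Set (FF ⧸ h.toIdeal)) = ⊤ := by
  rw [eq_top_iff]
  rintro x -
  obtain ⟨y, rfl⟩ := h.qm_surj x
  have hy : y ∈ Algebra.adjoin ℚ (Set.range (FreeAlgebra.ι ℚ : ℕ → FF)) := by
    rw [FreeAlgebra.adjoin_range_ι]
    exact Algebra.mem_top
  have h1 : h.qm y ∈ (Algebra.adjoin ℚ (Set.range (FreeAlgebra.ι ℚ : ℕ → FF))).map h.qm :=
    ⟨y, hy, rfl⟩
  rw [AlgHom.map_adjoin] at h1
  refine Algebra.adjoin_mono ?_ h1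
  rintro _ ⟨_, ⟨i, rfl⟩, rfl⟩
  exact ⟨xx i, xx_mem i, rfl⟩

/-- The two-sided ideal generated by `Q` and `s`. -/
def addIdeal (Q : Submodule ℚ FF) (s : FF) : Submodule ℚ FF :=
  Q ⊔ Submodule.span ℚ {x | ∃ a b : FF, x = a * s * b}

theorem addIdeal_two {Q : Submodule ℚ FF} (h : IsTwo Q) (s : FF) : IsTwo (addIdeal Q s) := by
  constructor
  · intro a f hf
    have hle : addIdeal Q s ≤ (addIdeal Q s).comap (LinearMap.mulLeft ℚ a) := by
      refine sup_le ?_ ?_
      · intro q hq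
        exact Submodule.mem_sup_left (h.mul_left a q hq)
      · rw [Submodule.span_le]
        rintro _ ⟨c, b, rfl⟩
        refine Submodule.mem_sup_right (Submodule.subset_span ⟨a * c, b, ?_⟩)
        simp only [LinearMap.mulLeft_apply, mul_assoc]
    exact hle hf
  · intro a f hf
    have hle : addIdeal Q s ≤ (addIdeal Q s).comap (LinearMap.mulRight ℚ a) := by
      refine sup_le ?_ ?_
      · intro q hq
        exact Submodule.mem_sup_left (h.mul_right a q hq)
      · rw [Submodule.span_le]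
        rintro _ ⟨c, b, rfl⟩
        refine Submodule.mem_sup_right (Submodule.subset_span ⟨c, b * a, ?_⟩)
        simp only [LinearMap.mulRight_apply, mul_assoc]
    exact hle hf

theorem le_addIdeal (Q : Submodule ℚ FF) (s : FF) : Q ≤ addIdeal Q s := le_sup_left

theorem mem_addIdeal (Q : Submodule ℚ FF) (s : FF) : s ∈ addIdeal Q s :=
  Submodule.mem_sup_right (Submodule.subset_span ⟨1, 1, by rw [one_mul, mul_one]⟩)

/-- If `s FF u ≤ Q` then `(Q + (s)) FF (Q + (u)) ≤ Q`. -/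
theorem addIdeal_mul {Q : Submodule ℚ FF} (h : IsTwo Q) {s u : FF}
    (hsu : ∀ a, s * a * u ∈ Q) {p q : FF} (hp : p ∈ addIdeal Q s) (hq : q ∈ addIdeal Q u) (w : FF) :
    p * w * q ∈ Q := by
  have h1 : ∀ p' ∈ Submodule.span ℚ {x | ∃ a b : FF, x = a * s * b},
      ∀ q' ∈ Submodule.span ℚ {x | ∃ a b : FF, x = a * u * b}, p' * w * q' ∈ Q := by
    intro p' hp' q' hq'
    induction hp' using Submodule.span_induction with
    | mem x hx =>
      obtain ⟨a, b, rfl⟩ := hx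
      induction hq' using Submodule.span_induction with
      | mem y hy =>
        obtain ⟨c, d, rfl⟩ := hy
        have : a * s * b * w * (c * u * d) = a * (s * (b * w * c) * u) * d := by
          simp only [mul_assoc]
        rw [this]
        exact h.mul_right d _ (h.mul_left a _ (hsu _))
      | zero => rw [mul_zero]; exact Q.zero_mem
      | add y z _ _ hy hz => rw [mul_add]; exact Q.add_mem hy hz
      | smul r y _ hy => rw [mul_smul_comm]; exact Q.smul_mem r hy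
    | zero => rw [zero_mul, zero_mul]; exact Q.zero_mem
    | add y z _ _ hy hz => rw [add_mul, add_mul]; exact Q.add_mem hy hz
    | smul r y _ hy => rw [smul_mul_assoc, smul_mul_assoc]; exact Q.smul_mem r hy
  obtain ⟨p1, hp1, p2, hp2, rfl⟩ := Submodule.mem_sup.mp hp
  obtain ⟨q1, hq1, q2, hq2, rfl⟩ := Submodule.mem_sup.mp hq
  have : (p1 + p2) * w * (q1 + q2) = p1 * (w * (q1 + q2)) + (p2 * w) * q1 + p2 * w * q2 := by
    simp only [mul_add, add_mul, mul_assoc]
    abel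
  rw [this]
  exact Q.add_mem (Q.add_mem (h.mul_right _ _ hp1) (h.mul_left _ _ hq1)) (h1 _ hp2 _ hq2)

/-- If there are no prime pairs of index `j`, then `FF ⧸ T` is not semiprime. -/
theorem exists_not_semiprime {j : ℕ} {T : Submodule ℚ FF} (hT : Good j T)
    (hprime : ∀ (A : Type) [Ring A] [Algebra ℚ A] (L : Submodule ℚ A), LieClosed L → Index L j →
      Algebra.adjoin ℚ (L : Set A) = ⊤ → (∀ s u : A, (∀ a, s * a * u = 0) → s = 0 ∨ u = 0) →
      L = ⊥) :
    ∃ g, g ∉ T ∧ ∀ w, g * w * g ∈ T := by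
  by_contra hcon
  push Not at hcon
  choose! w hw using hcon
  -- the sequence `g`
  let g : ℕ → FF := fun m => Nat.rec (xx 0) (fun _ x => x * w x * x) m
  have g_succ : ∀ m, g (m + 1) = g m * w (g m) * g m := fun m => rfl
  have hg : ∀ m, g m ∉ T := by
    intro m
    induction m with
    | zero =>
      have h1 := hT.not_mem 1
      have h2 : (List.ofFn fun i : Fin 1 => xx i).prod = g 0 := by
        simp [g]
      rwa [h2] at h1
    | succ m ih =>
      rw [g_succ]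
      exact hw _ ih
  -- a maximal ideal that contains `T` and avoids the sequence
  obtain ⟨Q, hTQ, hQmax⟩ := zorn_le_nonempty₀
    {Q : Submodule ℚ FF | IsTwo Q ∧ T ≤ Q ∧ ∀ m, g m ∉ Q} (by
      intro c hc hchain y hy
      have hne : c.Nonempty := ⟨y, hy⟩
      have hdir : DirectedOn (· ≤ ·) c := hchain.directedOn
      refine ⟨sSup c, ⟨⟨?_, ?_⟩, ?_, ?_⟩, fun z hz => le_sSup hz⟩
      · intro a f hf
        rw [Submodule.mem_sSup_of_directed hne hdir] at hf ⊢
        obtain ⟨P, hP, hfP⟩ := hf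
        exact ⟨P, hP, (hc hP).1.mul_left a f hfP⟩
      · intro a f hf
        rw [Submodule.mem_sSup_of_directed hne hdir] at hf ⊢
        obtain ⟨P, hP, hfP⟩ := hf
        exact ⟨P, hP, (hc hP).1.mul_right a f hfP⟩
      · exact (hc hy).2.1.trans (le_sSup hy)
      · intro m hm
        rw [Submodule.mem_sSup_of_directed hne hdir] at hm
        obtain ⟨P, hP, hfP⟩ := hm
        exact (hc hP).2.2 m hfP) T ⟨⟨hT.mul_left, hT.mul_right⟩, le_rfl, hg⟩
  obtain ⟨⟨hQ2, -, hgQ⟩, hmax⟩ := hQmax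
  -- every strictly larger ideal contains some `g m`
  have hbig : ∀ s, s ∉ Q → ∃ m, g m ∈ addIdeal Q s := by
    intro s hs
    by_contra hno
    push Not at hno
    have hle := hmax (y := addIdeal Q s)
      ⟨addIdeal_two hQ2 s, hTQ.trans (le_addIdeal Q s), hno⟩ (le_addIdeal Q s)
    exact hs (hle (mem_addIdeal Q s))
  have hup : ∀ P : Submodule ℚ FF, IsTwo P → ∀ m k, g m ∈ P → g (m + k) ∈ P := by
    intro P hP m k hm
    induction k with
    | zero => exact hm
    | succ k ih =>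
      rw [← add_assoc, g_succ]
      exact hP.mul_left _ _ ih
  have hpr : ∀ s u : FF ⧸ hQ2.toIdeal, (∀ a, s * a * u = 0) → s = 0 ∨ u = 0 := by
    intro s u hsu
    obtain ⟨s, rfl⟩ := hQ2.qm_surj s
    obtain ⟨u, rfl⟩ := hQ2.qm_surj u
    rw [hQ2.qm_eq_zero, hQ2.qm_eq_zero]
    by_contra hcon
    push Not at hcon
    obtain ⟨m1, hm1⟩ := hbig s hcon.1
    obtain ⟨m2, hm2⟩ := hbig u hcon.2
    have h1 : g (m1 + m2) ∈ addIdeal Q s := hup _ (addIdeal_two hQ2 s) m1 m2 hm1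
    have h2 : g (m1 + m2) ∈ addIdeal Q u := by
      rw [add_comm]
      exact hup _ (addIdeal_two hQ2 u) m2 m1 hm2
    have h3 : ∀ a, s * a * u ∈ Q := by
      intro a
      rw [← hQ2.qm_eq_zero, map_mul, map_mul]
      exact hsu _
    have h4 := addIdeal_mul hQ2 h3 h1 h2 (w (g (m1 + m2)))
    rw [← g_succ] at h4
    exact hgQ (m1 + m2 + 1) h4
  have hbot := hprime (FF ⧸ hQ2.toIdeal) (LL.map hQ2.qm.toLinearMap) hQ2.map_lie
    (hQ2.map_index (fun z hz => hTQ (hT.pow_mem z hz))) hQ2.map_adjoin hpr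
  have hx : hQ2.qm (xx 0) ∈ LL.map hQ2.qm.toLinearMap := ⟨xx 0, xx_mem 0, rfl⟩
  rw [hbot, Submodule.mem_bot, hQ2.qm_eq_zero] at hx
  exact hgQ 0 hx

end Pool.Agent.Lib.MP_7ac902_al.Z
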