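import Pool.Agent.Lib.MP_7ac902_al.Z.TZorn
import Pool.Agent.Lib.MP_7ac902_al.Z.TPrime
import Pool.Agent.Lib.MP_7ac902_al.Z.TEProp

set_option autoImplicit false

namespace Pool.Agent.Lib.MP_7ac902_al.Z

/-- A `T`-ideal as an ideal of the ring `FF`. -/
def tidIdeal {T : Submodule ℚ FF} (hT : IsTIdeal T) : Ideal FF where
  carrier := T
  add_mem' := fun ha hb => T.add_mem ha hb
  zero_mem' := T.zero_mem
  smul_mem' := fun a f hf => hT.mul_left a f hf

theorem mem_tidIdeal {T : Submodule ℚ FF} (hT : IsTIdeal T) {f : FF} :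
    f ∈ tidIdeal hT ↔ f ∈ T := Iff.rfl

instance tidIdeal_isTwoSided {T : Submodule ℚ FF} (hT : IsTIdeal T) : (tidIdeal hT).IsTwoSided :=
  ⟨fun b hb => hT.mul_right b _ hb⟩

/-- If `P(j)` fails and there are no prime pairs of index `j`, then there is a pair of index `j`
that is not nilpotent but satisfies some `E(k)`. -/
theorem exists_pair_eProp {j : ℕ} (hno : ∀ N, ¬ NilPair j N)
    (hprime : ∀ (A : Type) [Ring A] [Algebra ℚ A] (L : Submodule ℚ A), LieClosed L → Index L j →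
      Algebra.adjoin ℚ (L : Set A) = ⊤ → (∀ s u : A, (∀ a, s * a * u = 0) → s = 0 ∨ u = 0) →
      L = ⊥) :
    ∃ (R : Type) (_ : Ring R) (_ : Algebra ℚ R) (L : Submodule ℚ R), LieClosed L ∧ Index L j ∧
      Algebra.adjoin ℚ (L : Set R) = ⊤ ∧ (∃ k n, EProp L k n) ∧ ∀ N, L ^ N ≠ ⊥ := by
  obtain ⟨T, hT, hmax⟩ := exists_maximal_good hno
  obtain ⟨g, hg, hgg⟩ := exists_not_semiprime hT hprime
  obtain ⟨k, n, hkn⟩ := exists_uniform_exponent hT hmax hg hgg
  set I : Ideal FF := tidIdeal hT.toIsTIdeal with hI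
  set π : FF →ₐ[ℚ] (FF ⧸ I) := Ideal.Quotient.mkₐ ℚ I with hπ
  have hsurj : Function.Surjective π := Ideal.Quotient.mkₐ_surjective ℚ I
  have hzero : ∀ f : FF, π f = 0 ↔ f ∈ T := by
    intro f
    rw [hπ, Ideal.Quotient.mkₐ_eq_mk, Ideal.Quotient.eq_zero_iff_mem]
    exact Iff.rfl
  refine ⟨FF ⧸ I, inferInstance, inferInstance, LL.map π.toLinearMap, ?_, ?_, ?_, ⟨k, n, ?_⟩, ?_⟩
  · rintro _ ⟨x, hx, rfl⟩ _ ⟨y, hy, rfl⟩
    exact ⟨x * y - y * x, LL_lie x hx y hy, by simp⟩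
  · rintro _ ⟨z, hz, rfl⟩
    change π z ^ j = 0
    rw [← map_pow, hzero]
    exact hT.pow_mem z hz
  · rw [eq_top_iff]
    have h1 : (Algebra.adjoin ℚ (Set.range (FreeAlgebra.ι ℚ : ℕ → FF))).map π = ⊤ := by
      rw [FreeAlgebra.adjoin_range_ι, Algebra.map_top, AlgHom.range_eq_top]
      exact hsurj
    rw [← h1, AlgHom.map_adjoin]
    apply Algebra.adjoin_mono
    rintro _ ⟨_, ⟨i, rfl⟩, rfl⟩
    exact ⟨xx i, xx_mem i, rfl⟩
  · intro l hl c
    choose u0 hu0 hu0' using hl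
    choose c' hc' using fun t => hsurj (c t)
    set u : ℕ → FF := fun i => if hi : i < k then u0 ⟨i, hi⟩ else 0 with hu
    have huL : ∀ i, u i ∈ LL := by
      intro i
      simp only [hu]
      split_ifs with hi
      · exact hu0 _
      · exact LL.zero_mem
    have h1 := hkn u huL c'
    rw [← hzero, map_list_prod, List.map_ofFn] at h1
    rw [← h1]
    congr 1
    congr 1
    funext t
    simp only [Function.comp_apply, map_mul, map_list_prod, List.map_ofFn, hc']
    congr 1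
    congr 1
    congr 1
    funext i
    simp only [Function.comp_apply, hu, Fin.is_lt, dite_true]
    exact (hu0' i).symm
  · intro N hN
    refine hT.not_mem N ?_
    rw [← hzero]
    have h1 : π (List.ofFn fun i : Fin N => xx i).prod ∈ (LL.map π.toLinearMap) ^ N := by
      rw [map_list_prod, List.map_ofFn, Submodule.pow_eq_span_pow_set]
      refine Submodule.subset_span (Set.mem_pow.2 ⟨fun i => ⟨π (xx i), ⟨xx i, xx_mem i, rfl⟩⟩, ?_⟩)
      rfl
    rw [hN] at h1
    exact (Submodule.mem_bot _).1 h1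

end Pool.Agent.Lib.MP_7ac902_al.Z
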