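import Pool.Agent.Lib.MP_7ac902_al.Z.StepA
import Pool.Agent.Lib.MP_7ac902_al.Z.Col
import Pool.Agent.Lib.MP_7ac902_al.Z.EStep
import Pool.Agent.Lib.MP_7ac902_al.Z.EFinal
import Pool.Agent.Lib.MP_7ac902_al.Z.TId

set_option autoImplicit false

namespace Pool.Agent.Lib.MP_7ac902_al.Z

theorem NilAt.succ {A : Type*} [Ring A] {a : A} {n : ℕ} (h : NilAt a n) : NilAt a (n + 1) := by
  intro c
  rw [List.ofFn_succ, List.prod_cons, h (fun i => c i.succ), mul_zero]

theorem EProp.succ_exp {A : Type*} [Ring A] [Algebra ℚ A] {L : Submodule ℚ A} {k n : ℕ}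
    (h : EProp L k n) : EProp L k (n + 1) := fun l hl => (h l hl).succ

theorem EProp.succ_len {A : Type*} [Ring A] [Algebra ℚ A] {L : Submodule ℚ A} {k n : ℕ}
    (h : EProp L k n) : EProp L (k + 1) n := by
  intro l hl c
  have h1 := h (fun i => l i.castSucc) (fun i => hl _) (fun i => l (Fin.last k) * c i)
  rw [← h1]
  congr 1
  apply congrArg
  funext i
  rw [List.ofFn_succ', List.concat_eq_append, List.prod_append, List.prod_singleton, mul_assoc]

/-- **Zelmanov's theorem for pairs.**  For every `j` there is `N` such that in every pair of index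
`j` over `ℚ` all products of `N` elements of `L` vanish. -/
theorem exists_nilPair (j : ℕ) : ∃ N, NilPair j N := by
  induction j with
  | zero =>
    refine ⟨1, fun A _ _ L _ hidx => ?_⟩
    rw [pow_one, eq_bot_iff]
    intro z hz
    have h := hidx 0 L.zero_mem
    rw [pow_zero] at h
    rw [Submodule.mem_bot]
    calc z = 1 * z := (one_mul z).symm
      _ = 0 := by rw [h, zero_mul]
  | succ j ih =>
    obtain ⟨N, hN⟩ := ih
    rcases Nat.eq_zero_or_pos j with rfl | hj
    · refine ⟨1, fun A _ _ L _ hidx => ?_⟩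
      rw [pow_one, eq_bot_iff]
      intro z hz
      have h := hidx z hz
      rw [zero_add, pow_one] at h
      rw [h]
      exact Submodule.zero_mem _
    · by_contra hcon
      push Not at hcon
      obtain ⟨R, _, _, L, hL, hidx, hgen, ⟨k, n, hE⟩, hnil⟩ :=
        exists_pair_eProp (j := j + 1) hcon (fun A _ _ L hL hidx hgen hpr =>
          no_prime_pair (j := j + 1) (N := N) (by omega) (by simpa using hN) A L hL hidx hgen hpr)
      -- descend from `E(k + 1)` to `E(1)`
      have desc : ∀ i : ℕ, (∃ n, EProp L (i + 1) n) → ∃ n, EProp L 1 n := by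
        intro i
        induction i with
        | zero => exact fun h => h
        | succ i ihi =>
          rintro ⟨m, hm⟩
          apply ihi
          obtain ⟨N1, hN1⟩ := colHyp L hL hidx hE (i + 1) ((j + 1 - 1) * (m + 1 - 1))
          exact ⟨N1, eStep (j := j + 1) (n := m + 1) (by omega) (by omega) (by omega) L hL hidx hgen
            hm.succ_exp hN1⟩
      obtain ⟨m, hm⟩ := desc k ⟨n, hE.succ_len⟩
      obtain ⟨N1, hN1⟩ := colHyp L hL hidx hE 0 (m + 1 - 1)
      exact hnil N1 (eFinal (n := m + 1) (by omega) L hm.succ_exp hN1)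

end Pool.Agent.Lib.MP_7ac902_al.Z
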