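import Pool.Agent.Lib.MP_7ac902_al.Z.RightNil

set_option autoImplicit false

namespace Pool.Agent.Lib.MP_7ac902_al.Z

/-- The normalizer of `K^s = {u ∈ L : s u = 0}` grows: there is `v ∈ L \ K^s` with
`[v, K^s] ⊆ K^s`. -/
theorem exists_normalizing {j N : ℕ} (hj : 2 ≤ j) (hP : NilPair (j - 1) N) {A : Type} [Ring A]
    [Algebra ℚ A] (L : Submodule ℚ A) (hL : LieClosed L) (hidx : Index L j) (s : A)
    (hne : ∃ x ∈ L, s * x ≠ 0) :
    ∃ v ∈ L, s * v ≠ 0 ∧ ∀ u ∈ L, s * u = 0 → s * (v * u - u * v) = 0 := by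
  by_contra hcon
  push Not at hcon
  obtain ⟨x, hx, hsx⟩ := hne
  have key : ∀ m : ℕ, ∃ l : List A, l.length = m ∧ (∀ u ∈ l, u ∈ L ∧ s * u = 0) ∧
      ∃ v ∈ L, s * v ≠ 0 ∧ s * v = s * x * l.prod := by
    intro m
    induction m with
    | zero => exact ⟨[], rfl, by simp, x, hx, hsx, by simp⟩
    | succ m ih =>
      obtain ⟨l, hlen, hl, v, hv, hsv, hprod⟩ := ih
      obtain ⟨u, hu, hsu, hne⟩ := hcon v hv hsv
      refine ⟨l ++ [u], by simp [hlen], ?_, v * u - u * v, hL v hv u hu, hne, ?_⟩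
      · intro w hw
        rw [List.mem_append, List.mem_singleton] at hw
        rcases hw with hw | rfl
        · exact hl w hw
        · exact ⟨hu, hsu⟩
      · rw [mul_sub, ← mul_assoc, ← mul_assoc, hsu, zero_mul, sub_zero, hprod,
          List.prod_append, List.prod_singleton, mul_assoc (s * x)]
  obtain ⟨l, hlen, hl, v, hv, hsv, hprod⟩ := key N
  subst hlen
  have h := right_nil hj hP L hL hidx s x hx (fun i => l.get i)
    (fun i => (hl _ (l.get_mem i)).1) (fun i => (hl _ (l.get_mem i)).2)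
  rw [List.ofFn_get, ← hprod] at h
  exact hsv h

end Pool.Agent.Lib.MP_7ac902_al.Z
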