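import Pool.Agent.Lib.MP_7ac902_al.Z.Defs

set_option autoImplicit false

namespace Pool.Agent.Lib.MP_7ac902_al.Z

open Finset

private lemma polar_sum_sign {α : Type*} [DecidableEq α] (S R : Finset α) :
    ∑ U ∈ S.powerset, (if R ⊆ U then (-1 : ℤ) ^ #U else 0) =
      if R = S then (-1 : ℤ) ^ #S else 0 := by
  by_cases hRS : R ⊆ S
  · have h1 : ∑ U ∈ S.powerset, (if R ⊆ U then (-1 : ℤ) ^ #U else 0) =
        ∑ V ∈ (S \ R).powerset, (-1 : ℤ) ^ #R * (-1 : ℤ) ^ #V := by
      rw [← Finset.sum_filter]
      refine Finset.sum_bij' (fun U _ => U \ R) (fun V _ => R ∪ V) ?_ ?_ ?_ ?_ ?_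
      · intro U hU
        rw [mem_filter, mem_powerset] at hU
        rw [mem_powerset]
        exact Finset.sdiff_subset_sdiff hU.1 le_rfl
      · intro V hV
        rw [mem_powerset] at hV
        rw [mem_filter, mem_powerset]
        exact ⟨Finset.union_subset hRS (hV.trans Finset.sdiff_subset), Finset.subset_union_left⟩
      · intro U hU
        rw [mem_filter, mem_powerset] at hU
        exact Finset.union_sdiff_of_subset hU.2
      · intro V hV
        rw [mem_powerset] at hV
        have : Disjoint R V := by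
          rw [Finset.disjoint_left]
          intro a ha hV'
          exact (Finset.mem_sdiff.1 (hV hV')).2 ha
        exact Finset.union_sdiff_cancel_left this
      · intro U hU
        rw [mem_filter, mem_powerset] at hU
        rw [← pow_add, Finset.card_sdiff_of_subset hU.2]
        congr 1
        have := Finset.card_le_card hU.2
        omega
    rw [h1, ← Finset.mul_sum, Finset.sum_powerset_neg_one_pow_card]
    by_cases h : R = S
    · subst h
      simp
    · have h2 : S \ R ≠ ∅ := by
        intro h3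
        exact h (Finset.Subset.antisymm hRS (Finset.sdiff_eq_empty_iff_subset.1 h3))
      rw [if_neg h2, if_neg h, mul_zero]
  · have h : R ≠ S := by
      rintro rfl
      exact hRS le_rfl
    rw [if_neg h]
    refine Finset.sum_eq_zero fun U hU => ?_
    rw [mem_powerset] at hU
    rw [if_neg fun h' => hRS (h'.trans hU)]

/-- Polarization: a multilinear map that vanishes whenever its entries at `S` are equal has
vanishing symmetrization over `S`. -/
theorem polarization {M : ℕ} {E W : Type*} [AddCommGroup E] [Module ℚ E] [AddCommGroup W]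
    [Module ℚ W] (f : MultilinearMap ℚ (fun _ : Fin M => E) W) (P : Submodule ℚ E)
    (S : Finset (Fin M)) (w : Fin M → E) (hw : ∀ p, w p ∈ P)
    (h : ∀ v ∈ P, f (fun p => if p ∈ S then v else w p) = 0) :
    ∑ τ ∈ suppPerm S, f (w ∘ τ) = 0 := by
  classical
  have h2 : ∀ U : Finset (Fin M), f (fun p => if p ∈ S then ∑ j ∈ U, w j else w p) =
      ∑ r : Fin M → Fin M, if (∀ p ∉ S, r p = p) ∧ S.image r ⊆ U then f (w ∘ r) else 0 := by
    intro U
    have h3 := f.map_sum_finset (fun (_ : Fin M) (j : Fin M) => w j)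
      (fun p => if p ∈ S then U else {p})
    have h4 : (fun p => if p ∈ S then ∑ j ∈ U, w j else w p) =
        fun p => ∑ j ∈ (if p ∈ S then U else {p}), w j := by
      funext p
      split_ifs
      · rfl
      · rw [Finset.sum_singleton]
    rw [h4, h3, ← Finset.sum_filter]
    refine Finset.sum_congr ?_ fun _ _ => rfl
    ext r
    simp only [Fintype.mem_piFinset, mem_filter, mem_univ, true_and]
    constructor
    · intro hr
      refine ⟨fun p hp => ?_, fun q hq => ?_⟩
      · have := hr p
        rw [if_neg hp, mem_singleton] at this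
        exact this
      · obtain ⟨p, hp, rfl⟩ := Finset.mem_image.1 hq
        have := hr p
        rwa [if_pos hp] at this
    · rintro ⟨hr1, hr2⟩ p
      split_ifs with hp
      · exact hr2 (Finset.mem_image_of_mem _ hp)
      · rw [mem_singleton]
        exact hr1 p hp
  have h5 : ∑ U ∈ S.powerset, ((-1 : ℤ) ^ #U) •
      f (fun p => if p ∈ S then ∑ j ∈ U, w j else w p) = 0 := by
    refine Finset.sum_eq_zero fun U _ => ?_
    rw [h _ (P.sum_mem fun j _ => hw j), smul_zero]
  simp only [h2, Finset.smul_sum] at h5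
  rw [Finset.sum_comm] at h5
  have h6 : ∀ r : Fin M → Fin M, (∑ U ∈ S.powerset, ((-1 : ℤ) ^ #U) •
      (if (∀ p ∉ S, r p = p) ∧ S.image r ⊆ U then f (w ∘ r) else 0)) =
      if (∀ p ∉ S, r p = p) ∧ S.image r = S then ((-1 : ℤ) ^ #S) • f (w ∘ r) else 0 := by
    intro r
    by_cases hr : ∀ p ∉ S, r p = p
    · have h7 : ∀ U ∈ S.powerset, ((-1 : ℤ) ^ #U) •
          (if (∀ p ∉ S, r p = p) ∧ S.image r ⊆ U then f (w ∘ r) else 0) =
          (if S.image r ⊆ U then (-1 : ℤ) ^ #U else 0) • f (w ∘ r) := by
        intro U _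
        by_cases hU : S.image r ⊆ U
        · rw [if_pos ⟨hr, hU⟩, if_pos hU]
        · rw [if_neg fun h => hU h.2, if_neg hU, smul_zero, zero_smul]
      rw [Finset.sum_congr rfl h7, ← Finset.sum_smul, polar_sum_sign]
      by_cases hS : S.image r = S
      · rw [if_pos hS, if_pos ⟨hr, hS⟩]
      · rw [if_neg hS, if_neg fun h => hS h.2, zero_smul]
    · rw [if_neg fun h => hr h.1]
      refine Finset.sum_eq_zero fun U _ => ?_
      rw [if_neg fun h => hr h.1, smul_zero]
  rw [Finset.sum_congr rfl fun r _ => h6 r, ← Finset.sum_filter, ← Finset.smul_sum] at h5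
  have h8 : ∑ r ∈ univ.filter (fun r : Fin M → Fin M => (∀ p ∉ S, r p = p) ∧ S.image r = S),
      f (w ∘ r) = 0 := by
    have h9 : ((-1 : ℤ) ^ #S) • (((-1 : ℤ) ^ #S) •
        ∑ r ∈ univ.filter (fun r : Fin M → Fin M => (∀ p ∉ S, r p = p) ∧ S.image r = S),
          f (w ∘ r)) = 0 := by
      rw [h5, smul_zero]
    rwa [smul_smul, ← pow_add, Even.neg_one_pow ⟨_, rfl⟩, one_smul] at h9
  rw [← h8]
  refine Finset.sum_bij (fun τ _ => (τ : Fin M → Fin M)) ?_ ?_ ?_ ?_
  · intro τ hτ
    rw [suppPerm, mem_filter] at hτ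
    rw [mem_filter]
    refine ⟨mem_univ _, hτ.2, ?_⟩
    refine Finset.eq_of_subset_of_card_le ?_ ?_
    · intro q hq
      obtain ⟨p, hp, rfl⟩ := Finset.mem_image.1 hq
      by_contra hn
      have := hτ.2 _ hn
      exact hn (by rw [τ.injective this]; exact hp)
    · rw [Finset.card_image_of_injective _ τ.injective]
  · intro τ _ τ' _ h
    exact Equiv.coe_fn_injective h
  · intro r hr
    rw [mem_filter] at hr
    have hsurj : Function.Surjective r := by
      intro q
      by_cases hq : q ∈ S
      · have : q ∈ S.image r := by rw [hr.2.2]; exact hq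
        obtain ⟨p, _, hp⟩ := Finset.mem_image.1 this
        exact ⟨p, hp⟩
      · exact ⟨q, hr.2.1 q hq⟩
    refine ⟨Equiv.ofBijective r ⟨Finite.injective_iff_surjective.2 hsurj, hsurj⟩, ?_, rfl⟩
    rw [suppPerm, mem_filter]
    exact ⟨mem_univ _, hr.2.1⟩
  · intro τ _
    rfl

variable {A : Type*} [Ring A] [Algebra ℚ A]

/-- In a pair of index `j` the symmetrized products of `j` elements vanish. -/
theorem sum_perm_prod {j : ℕ} (L : Submodule ℚ A) (hidx : Index L j) (z : Fin j → A)
    (hz : ∀ i, z i ∈ L) : ∑ σ : Equiv.Perm (Fin j), (List.ofFn (z ∘ σ)).prod = 0 := by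
  have h := polarization (MultilinearMap.mkPiAlgebraFin ℚ j A) L univ z hz (by
    intro v hv
    simp only [mem_univ, if_true]
    rw [MultilinearMap.mkPiAlgebraFin_apply_const]
    exact hidx v hv)
  have h1 : suppPerm (univ : Finset (Fin j)) = univ := by
    ext τ
    simp [suppPerm]
  rw [h1] at h
  simpa only [MultilinearMap.mkPiAlgebraFin_apply] using h

/-- `alt a` as a multilinear map. -/
theorem exists_alt_multilinear {M : ℕ} (a : Fin (M + 1) → A) :
    ∃ f : MultilinearMap ℚ (fun _ : Fin M => A) A, ∀ w, f w = alt a w := by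
  refine ⟨(LinearMap.mulLeft ℚ (a 0)).compMultilinearMap
    ((MultilinearMap.mkPiAlgebraFin ℚ M A).compLinearMap
      fun t => LinearMap.mulRight ℚ (a t.succ)), fun w => ?_⟩
  simp [alt]

/-- The row condition for `alt a`, in symmetrized form. -/
theorem sum_suppPerm_alt {M : ℕ} (L : Submodule ℚ A) (a : Fin (M + 1) → A) (S : Finset (Fin M))
    (w : Fin M → A) (hw : ∀ p, w p ∈ L)
    (h : ∀ v ∈ L, alt a (fun p => if p ∈ S then v else w p) = 0) :
    ∑ τ ∈ suppPerm S, alt a (w ∘ τ) = 0 := by
  obtain ⟨f, hf⟩ := exists_alt_multilinear a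
  simp only [← hf] at h ⊢
  exact polarization f L S w hw h

end Pool.Agent.Lib.MP_7ac902_al.Z
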