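import Pool.Agent.Lib.MP_7ac902_al.Z.GrpDefs

set_option autoImplicit false

namespace Pool.Agent.Lib.MP_7ac902_al.Z

namespace RestrAux

/-- If `t H t⁻¹ ≤ H` and `t⁻¹ H t ≤ H`, then integer powers of `t` normalize `H`. -/
theorem zpow_conj_mem {G : Type*} [Group G] (H : Subgroup G) (t : G)
    (h1 : ∀ h ∈ H, t * h * t⁻¹ ∈ H) (h2 : ∀ h ∈ H, t⁻¹ * h * t ∈ H) (a : ℤ) :
    ∀ h ∈ H, t ^ a * h * (t ^ a)⁻¹ ∈ H := by
  induction a using Int.induction_on with
  | zero => intro h hh; simpa using hh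
  | succ i ih =>
    intro h hh
    have := h1 _ (ih h hh)
    have e : t ^ ((i : ℤ) + 1) * h * (t ^ ((i : ℤ) + 1))⁻¹
        = t * (t ^ (i : ℤ) * h * (t ^ (i : ℤ))⁻¹) * t⁻¹ := by
      rw [add_comm, zpow_add, zpow_one]; group
    rw [e]; exact this
  | pred i ih =>
    intro h hh
    have := h2 _ (ih h hh)
    have e : t ^ (-(i : ℤ) - 1) * h * (t ^ (-(i : ℤ) - 1))⁻¹
        = t⁻¹ * (t ^ (-(i : ℤ)) * h * (t ^ (-(i : ℤ)))⁻¹) * t := by
      have : -(i : ℤ) - 1 = -1 + -(i : ℤ) := by ring
      rw [this, zpow_add, zpow_neg_one]; group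
    rw [e]; exact this

/-- Elements of `H ⊔ ⟨t⟩` are `h * t ^ a` when `t` normalizes `H`. -/
theorem mem_sup_zpowers {G : Type*} [Group G] (H : Subgroup G) (t : G)
    (h1 : ∀ h ∈ H, t * h * t⁻¹ ∈ H) (h2 : ∀ h ∈ H, t⁻¹ * h * t ∈ H)
    (g : G) (hg : g ∈ H ⊔ Subgroup.zpowers t) : ∃ h ∈ H, ∃ a : ℤ, g = h * t ^ a := by
  let P : Subgroup G :=
    { carrier := {g | ∃ h ∈ H, ∃ a : ℤ, g = h * t ^ a}
      mul_mem' := by
        rintro _ _ ⟨h, hh, a, rfl⟩ ⟨k, hk, b, rfl⟩
        refine ⟨h * (t ^ a * k * (t ^ a)⁻¹), H.mul_mem hh (zpow_conj_mem H t h1 h2 a k hk),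
          a + b, ?_⟩
        rw [zpow_add]; group
      one_mem' := ⟨1, H.one_mem, 0, by simp⟩
      inv_mem' := by
        rintro _ ⟨h, hh, a, rfl⟩
        refine ⟨t ^ (-a) * h⁻¹ * (t ^ (-a))⁻¹,
          zpow_conj_mem H t h1 h2 (-a) _ (H.inv_mem hh), -a, ?_⟩
        group }
  have hP : H ⊔ Subgroup.zpowers t ≤ P := by
    refine sup_le (fun h hh => ⟨h, hh, 0, by simp⟩) ?_
    rw [Subgroup.zpowers_le]
    exact ⟨1, H.one_mem, 1, by simp⟩
  exact hP hg

/-- The iterated commutators `[x, t, …, t]`. -/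
def sq {G : Type*} [Group G] (x t : G) (k : ℕ) : G := (fun z : G => z⁻¹ * t⁻¹ * z * t)^[k] x

theorem sq_zero {G : Type*} [Group G] (x t : G) : sq x t 0 = x := rfl

theorem sq_succ {G : Type*} [Group G] (x t : G) (k : ℕ) :
    sq x t (k + 1) = (sq x t k)⁻¹ * t⁻¹ * sq x t k * t := by
  unfold sq
  rw [Function.iterate_succ_apply']

theorem sq_eq_one {n : ℕ} {G : Type*} [Group G] (hE : Engel n G) (x t : G) (j : ℕ) :
    sq x t (n + j) = 1 := by
  induction j with
  | zero => exact hE x t
  | succ j ih => rw [← add_assoc, sq_succ, ih]; simp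

/-- The subgroup generated by `[x, t, …, t]`. -/
def Ysub {G : Type*} [Group G] (n : ℕ) (x t : G) : Subgroup G :=
  Subgroup.closure (sq x t '' Set.Iio n)

theorem Ysub_fg {G : Type*} [Group G] (n : ℕ) (x t : G) : (Ysub n x t).FG := by
  rw [Subgroup.fg_iff]
  exact ⟨_, rfl, (Set.finite_Iio n).image _⟩

theorem sq_mem_Ysub {n : ℕ} {G : Type*} [Group G] (hE : Engel n G) (x t : G) (k : ℕ) :
    sq x t k ∈ Ysub n x t := by
  by_cases hk : k < n
  · exact Subgroup.subset_closure ⟨k, hk, rfl⟩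
  · obtain ⟨j, rfl⟩ := Nat.exists_eq_add_of_le (not_lt.1 hk)
    rw [sq_eq_one hE]; exact Subgroup.one_mem _

theorem Ysub_conj1 {n : ℕ} {G : Type*} [Group G] (hE : Engel n G) (x t : G) (k : ℕ) :
    t⁻¹ * sq x t k * t ∈ Ysub n x t := by
  have e : t⁻¹ * sq x t k * t = sq x t k * sq x t (k + 1) := by
    rw [sq_succ]; group
  rw [e]
  exact Subgroup.mul_mem _ (sq_mem_Ysub hE x t k) (sq_mem_Ysub hE x t _)

theorem Ysub_conj2 {n : ℕ} {G : Type*} [Group G] (hE : Engel n G) (x t : G) (j k : ℕ)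
    (hjk : n ≤ j + k) : t * sq x t k * t⁻¹ ∈ Ysub n x t := by
  induction j generalizing k with
  | zero =>
    obtain ⟨i, rfl⟩ := Nat.exists_eq_add_of_le (by simpa using hjk : n ≤ k)
    rw [sq_eq_one hE]
    simp
  | succ j ih =>
    have h := ih (k + 1) (by omega)
    have e : t * sq x t k * t⁻¹ = sq x t k * (t * sq x t (k + 1) * t⁻¹)⁻¹ := by
      rw [sq_succ]; group
    rw [e]
    exact Subgroup.mul_mem _ (sq_mem_Ysub hE x t k) (Subgroup.inv_mem _ h)

theorem conj_mem_of_gens {G : Type*} [Group G] (S : Set G) (t : G)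
    (h : ∀ s ∈ S, t * s * t⁻¹ ∈ Subgroup.closure S) :
    ∀ y ∈ Subgroup.closure S, t * y * t⁻¹ ∈ Subgroup.closure S := by
  have : Subgroup.closure S ≤ (Subgroup.closure S).comap (MulAut.conj t).toMonoidHom := by
    rw [Subgroup.closure_le]
    intro s hs
    simpa using h s hs
  intro y hy
  simpa using this hy

/-- Subgroup form of the cyclic case. -/
theorem fg_of_sup_zpowers {n : ℕ} {G : Type*} [Group G] (hE : Engel n G)
    (K H : Subgroup G) (t : G) (hK : K.FG) (hKt : K = H ⊔ Subgroup.zpowers t)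
    (h1 : ∀ h ∈ H, t * h * t⁻¹ ∈ H) (h2 : ∀ h ∈ H, t⁻¹ * h * t ∈ H) : H.FG := by
  classical
  obtain ⟨S, hS, hSfin⟩ := (Subgroup.fg_iff K).1 hK
  have hdec : ∀ s ∈ S, ∃ h ∈ H, ∃ a : ℤ, s = h * t ^ a := by
    intro s hs
    apply mem_sup_zpowers H t h1 h2
    rw [← hKt, ← hS]
    exact Subgroup.subset_closure hs
  -- the finitely generated subgroup `N`
  choose! f hf a ha using hdec
  let T : Set G := ⋃ s ∈ S, sq (f s) t '' Set.Iio n
  have hTfin : T.Finite := hSfin.biUnion (fun s _ => (Set.finite_Iio n).image _)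
  let N : Subgroup G := Subgroup.closure T
  have hNfg : N.FG := (Subgroup.fg_iff N).2 ⟨T, rfl, hTfin⟩
  have hYN : ∀ s ∈ S, Ysub n (f s) t ≤ N := by
    intro s hs
    exact Subgroup.closure_mono (Set.subset_biUnion_of_mem (u := fun s => sq (f s) t '' Set.Iio n) hs)
  have hN1 : ∀ y ∈ N, t * y * t⁻¹ ∈ N := by
    apply conj_mem_of_gens
    intro y hy
    simp only [T, Set.mem_iUnion, Set.mem_image] at hy
    obtain ⟨s, hs, k, -, rfl⟩ := hy
    exact hYN s hs (Ysub_conj2 hE (f s) t n k (by omega))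
  have hN2 : ∀ y ∈ N, t⁻¹ * y * t ∈ N := by
    have := conj_mem_of_gens T t⁻¹ (by
      intro y hy
      simp only [T, Set.mem_iUnion, Set.mem_image] at hy
      obtain ⟨s, hs, k, -, rfl⟩ := hy
      rw [inv_inv]
      exact hYN s hs (Ysub_conj1 hE (f s) t k))
    intro y hy
    simpa using this y hy
  have hsqH : ∀ s ∈ S, ∀ k, sq (f s) t k ∈ H := by
    intro s hs k
    induction k with
    | zero => exact hf s hs
    | succ k ih =>
      rw [sq_succ]
      have := H.mul_mem (H.inv_mem ih) (h2 _ ih)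
      simpa [mul_assoc] using this
  have hNH : N ≤ H := by
    show Subgroup.closure T ≤ H
    rw [Subgroup.closure_le]
    intro y hy
    simp only [T, Set.mem_iUnion, Set.mem_image] at hy
    obtain ⟨s, hs, k, -, rfl⟩ := hy
    exact hsqH s hs k
  have hKN : K ≤ N ⊔ Subgroup.zpowers t := by
    rw [← hS, Subgroup.closure_le]
    intro s hs
    show s ∈ N ⊔ Subgroup.zpowers t
    rw [ha s hs]
    apply Subgroup.mul_mem
    · exact (le_sup_left : N ≤ N ⊔ Subgroup.zpowers t) (hYN s hs (sq_mem_Ysub hE (f s) t 0))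
    · exact (le_sup_right : Subgroup.zpowers t ≤ N ⊔ Subgroup.zpowers t)
        (Subgroup.zpow_mem _ (Subgroup.mem_zpowers t) _)
  have hcyc : (H ⊓ Subgroup.zpowers t).FG := by
    have e : H ⊓ Subgroup.zpowers t
        = ((H.subgroupOf (Subgroup.zpowers t))).map (Subgroup.zpowers t).subtype := by
      rw [Subgroup.subgroupOf_map_subtype]
    rw [e]
    have : (H.subgroupOf (Subgroup.zpowers t)).FG := by
      have hc : IsCyclic (H.subgroupOf (Subgroup.zpowers t)) := Subgroup.isCyclic _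
      obtain ⟨g, hg⟩ := hc
      rw [Subgroup.fg_iff]
      refine ⟨{(g : Subgroup.zpowers t)}, ?_, Set.finite_singleton _⟩
      apply le_antisymm
      · rw [Subgroup.closure_le, Set.singleton_subset_iff]; exact g.2
      · intro x hx
        obtain ⟨m, hm⟩ := hg ⟨x, hx⟩
        rw [Subgroup.mem_closure_singleton]
        refine ⟨m, ?_⟩
        have := congrArg (Subtype.val) hm
        simpa using this
    obtain ⟨U, hU⟩ := this
    rw [← hU, MonoidHom.map_closure, Subgroup.fg_iff]
    exact ⟨_, rfl, (Finset.finite_toSet U).image _⟩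
  have hH : H = N ⊔ (H ⊓ Subgroup.zpowers t) := by
    apply le_antisymm
    · intro h hh
      have hhK : h ∈ N ⊔ Subgroup.zpowers t := by
        apply hKN
        rw [hKt]
        exact (le_sup_left : H ≤ H ⊔ Subgroup.zpowers t) hh
      obtain ⟨y, hy, b, rfl⟩ := mem_sup_zpowers N t hN1 hN2 h hhK
      apply Subgroup.mul_mem
      · exact (le_sup_left : N ≤ N ⊔ (H ⊓ Subgroup.zpowers t)) hy
      · refine (le_sup_right : (H ⊓ Subgroup.zpowers t) ≤ N ⊔ (H ⊓ Subgroup.zpowers t)) ⟨?_, ?_⟩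
        · have := H.mul_mem (H.inv_mem (hNH hy)) hh
          simpa using this
        · exact Subgroup.zpow_mem _ (Subgroup.mem_zpowers t) _
    · exact sup_le hNH inf_le_left
  rw [hH]
  exact hNfg.sup hcyc

/-- Abelian steps. -/
theorem fg_of_comm_step {n : ℕ} {G : Type*} [Group G] (hE : Engel n G) (T : Finset G)
    (K H : Subgroup G) (hK : K.FG) (hKT : K = H ⊔ Subgroup.closure (T : Set G))
    (hcomm : ∀ x ∈ K, ∀ y ∈ K, x * y * x⁻¹ * y⁻¹ ∈ H) : H.FG := by
  classical
  induction T using Finset.induction_on generalizing K with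
  | empty =>
    simp at hKT
    rwa [← hKT]
  | insert t T' _ ih =>
    have htK : t ∈ K := by
      rw [hKT]
      exact (le_sup_right : Subgroup.closure _ ≤ H ⊔ _) (Subgroup.subset_closure (by simp))
    have hHK : H ≤ K := by rw [hKT]; exact le_sup_left
    set K' := H ⊔ Subgroup.closure (T' : Set G) with hK'
    have hHK' : H ≤ K' := le_sup_left
    have hKK' : K = K' ⊔ Subgroup.zpowers t := by
      rw [hKT, hK', Finset.coe_insert, Set.insert_eq, Subgroup.closure_union,
        ← Subgroup.zpowers_eq_closure]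
      rw [sup_assoc, sup_comm (Subgroup.closure _) (Subgroup.zpowers t)]
    have hK'K : K' ≤ K := by rw [hKK']; exact le_sup_left
    have hK'fg : K'.FG := by
      apply fg_of_sup_zpowers hE K K' t hK hKK'
      · intro h hh
        have := K'.mul_mem (hHK' (hcomm t htK h (hK'K hh))) hh
        simpa [mul_assoc] using this
      · intro h hh
        have := K'.mul_mem (hHK' (hcomm t⁻¹ (K.inv_mem htK) h (hK'K hh))) hh
        simpa [mul_assoc] using this
    exact ih K' hK'fg hK' (fun x hx y hy => hcomm x (hK'K hx) y (hK'K hy))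

end RestrAux

open RestrAux in
/-- In an `n`-Engel group the normal closure of `x` under `⟨t⟩` is finitely generated; hence a normal
subgroup with cyclic quotient in a finitely generated `n`-Engel group is finitely generated. -/
theorem fg_of_cyclic_quotient {n : ℕ} {G : Type*} [Group G] (hfg : Group.FG G) (hE : Engel n G)
    (H : Subgroup G) [H.Normal] (hs : IsCyclic (G ⧸ H)) : H.FG := by
  obtain ⟨q, hq⟩ := hs
  obtain ⟨t, rfl⟩ := QuotientGroup.mk_surjective q
  apply fg_of_sup_zpowers hE ⊤ H t (Group.fg_def.1 hfg)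
  · symm
    rw [eq_top_iff]
    intro g _
    obtain ⟨m, hm⟩ := hq (g : G ⧸ H)
    have : g * (t ^ m)⁻¹ ∈ H := by
      rw [← QuotientGroup.eq_one_iff]
      simp only [QuotientGroup.mk_mul, QuotientGroup.mk_inv, QuotientGroup.mk_zpow]
      simp only at hm
      rw [hm]; simp
    have e : g = (g * (t ^ m)⁻¹) * t ^ m := by group
    rw [e]
    apply Subgroup.mul_mem
    · exact (le_sup_left : H ≤ H ⊔ Subgroup.zpowers t) this
    · exact (le_sup_right : Subgroup.zpowers t ≤ H ⊔ Subgroup.zpowers t)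
        (Subgroup.zpow_mem _ (Subgroup.mem_zpowers t) _)
  · intro h hh
    exact Subgroup.Normal.conj_mem inferInstance h hh t
  · intro h hh
    have := Subgroup.Normal.conj_mem (inferInstance : H.Normal) h hh t⁻¹
    simpa using this

open RestrAux in
/-- A normal subgroup with solvable quotient in a finitely generated `n`-Engel group is finitely
generated. -/
theorem fg_of_solvable_quotient {n : ℕ} {G : Type*} [Group G] (hfg : Group.FG G) (hE : Engel n G)
    (H : Subgroup G) [H.Normal] (hs : Group.IsSolvable (G ⧸ H)) : H.FG := by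
  classical
  let D : ℕ → Subgroup G := fun i => (derivedSeries (G ⧸ H) i).comap (QuotientGroup.mk' H)
  have hD : ∀ i, (D i).FG := by
    intro i
    induction i with
    | zero =>
      have : D 0 = ⊤ := by simp [D]
      rw [this]; exact Group.fg_def.1 hfg
    | succ i ih =>
      obtain ⟨T, hT⟩ := ih
      have hle : D (i + 1) ≤ D i := Subgroup.comap_mono (derivedSeries_antitone _ (Nat.le_succ i))
      apply fg_of_comm_step hE T (D i) (D (i + 1)) ⟨T, hT⟩
      · rw [hT]
        exact (sup_eq_right.2 hle).symm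
      · intro x hx y hy
        simp only [D, Subgroup.mem_comap, derivedSeries_succ] at hx hy ⊢
        have := Subgroup.commutator_mem_commutator hx hy
        rw [commutatorElement_def] at this
        simpa using this
  obtain ⟨m, hm⟩ := hs.solvable
  have : D m = H := by
    simp only [D, hm]
    rw [MonoidHom.comap_bot]
    exact QuotientGroup.ker_mk' H
  rw [← this]; exact hD m

end Pool.Agent.Lib.MP_7ac902_al.Z
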