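import Pool.Agent.Lib.MP_7ac902_al.Z.Polar

set_option autoImplicit false

namespace Pool.Agent.Lib.MP_7ac902_al.Z

/-- products of elements of `L` lie in the powers of `L` -/
private lemma rn_prod_mem_pow {B : Type*} [Ring B] [Algebra ℚ B] (L : Submodule ℚ B)
    (l : List B) (hl : ∀ b ∈ l, b ∈ L) : l.prod ∈ L ^ l.length := by
  induction l with
  | nil => simp [Submodule.one_le.1 le_rfl]
  | cons b l ih =>
    rw [List.prod_cons, List.length_cons, pow_succ']
    exact Submodule.mul_mem_mul (hl b (by simp)) (ih fun c hc => hl c (by simp [hc]))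

/-- In a pair of index `d` given by a linear map whose range is closed under commutators,
all products of `N` elements vanish. -/
private lemma rn_abs {d N : ℕ} (hP : NilPair d N) {K B : Type} [AddCommGroup K] [Module ℚ K]
    [Ring B] [Algebra ℚ B] (φ : K →ₗ[ℚ] B) (hbr : ∀ v w, ∃ t, φ t = φ v * φ w - φ w * φ v)
    (hnil : ∀ v, φ v ^ d = 0) (l : List K) (hl : l.length = N) : (l.map φ).reverse.prod = 0 := by
  have h1 : (LinearMap.range φ) ^ N = ⊥ := by
    refine hP B (LinearMap.range φ) ?_ ?_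
    · rintro _ ⟨v, rfl⟩ _ ⟨w, rfl⟩
      obtain ⟨t, ht⟩ := hbr v w
      exact ⟨t, ht⟩
    · rintro _ ⟨v, rfl⟩
      exact hnil v
  have h2 := rn_prod_mem_pow (LinearMap.range φ) (l.map φ).reverse (by
    intro b hb
    rw [List.mem_reverse, List.mem_map] at hb
    obtain ⟨v, -, rfl⟩ := hb
    exact ⟨v, rfl⟩)
  rw [List.length_reverse, List.length_map, hl, h1, Submodule.mem_bot] at h2
  exact h2

/-- The annihilator `K^s = {u ∈ L : s u = 0}` as a subspace. -/
private def rn_K {A : Type*} [Ring A] [Algebra ℚ A] (L : Submodule ℚ A) (s : A) :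
    Submodule ℚ A where
  carrier := {u | u ∈ L ∧ s * u = 0}
  zero_mem' := ⟨L.zero_mem, mul_zero s⟩
  add_mem' := by
    rintro a b ⟨ha, ha'⟩ ⟨hb, hb'⟩
    exact ⟨L.add_mem ha hb, by rw [mul_add, ha', hb', add_zero]⟩
  smul_mem' := by
    rintro c a ⟨ha, ha'⟩
    exact ⟨L.smul_mem c ha, by rw [mul_smul_comm, ha', smul_zero]⟩

private lemma rn_mem_K {A : Type*} [Ring A] [Algebra ℚ A] {L : Submodule ℚ A} {s u : A} :
    u ∈ rn_K L s ↔ u ∈ L ∧ s * u = 0 := Iff.rfl

/-- Step (1) for one element. -/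
private lemma rn_one {j : ℕ} {A : Type*} [Ring A] [Algebra ℚ A] (L : Submodule ℚ A)
    (hidx : Index L (j + 1)) (s x u : A) (hx : x ∈ L) (hu : u ∈ L) (hsu : s * u = 0) :
    s * x * u ^ j = 0 := by
  classical
  obtain ⟨z, hz⟩ : ∃ z : Fin (j + 1) → A, z = fun i => if i = 0 then x else u := ⟨_, rfl⟩
  have h1 := sum_perm_prod L hidx z (by
    intro i
    rw [hz]
    dsimp only
    split_ifs
    · exact hx
    · exact hu)
  have h2 : ∀ σ : Equiv.Perm (Fin (j + 1)), s * (List.ofFn (z ∘ σ)).prod =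
      if σ 0 = 0 then s * x * u ^ j else 0 := by
    intro σ
    rw [List.ofFn_succ, List.prod_cons, ← mul_assoc]
    by_cases hσ : σ 0 = 0
    · rw [if_pos hσ]
      have h3 : (fun i : Fin j => (z ∘ σ) i.succ) = fun _ => u := by
        funext i
        have h4 : σ i.succ ≠ 0 := by
          intro h5
          have := σ.injective (h5.trans hσ.symm)
          exact absurd this (Fin.succ_ne_zero i)
        rw [hz]
        simp only [Function.comp_apply]
        rw [if_neg h4]
      rw [h3, List.ofFn_const, List.prod_replicate]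
      congr 2
      rw [hz]
      simp only [Function.comp_apply]
      rw [if_pos hσ]
    · rw [if_neg hσ]
      have h3 : (z ∘ σ) 0 = u := by
        rw [hz]
        simp only [Function.comp_apply]
        rw [if_neg hσ]
      rw [h3, hsu, zero_mul]
  have h3 : ∑ σ : Equiv.Perm (Fin (j + 1)), (if σ 0 = 0 then s * x * u ^ j else 0) = 0 := by
    rw [← Finset.sum_congr rfl fun σ _ => h2 σ, ← Finset.mul_sum, h1, mul_zero]
  rw [← Finset.sum_filter, Finset.sum_const, ← Nat.cast_smul_eq_nsmul ℚ] at h3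
  have h4 : ((Finset.univ.filter fun σ : Equiv.Perm (Fin (j + 1)) => σ 0 = 0).card : ℚ) ≠ 0 := by
    rw [Nat.cast_ne_zero, Finset.card_ne_zero]
    exact ⟨1, by simp⟩
  exact (smul_eq_zero.1 h3).resolve_left h4

/-- If `P(j-1)` holds with bound `N`, `x ∈ L` and the `u i ∈ L` are annihilated by `s` on the left,
then `s x u₀ ⋯ u_{N-1} = 0`. -/
theorem right_nil {j N : ℕ} (hj : 2 ≤ j) (hP : NilPair (j - 1) N) {A : Type} [Ring A]
    [Algebra ℚ A] (L : Submodule ℚ A) (hL : LieClosed L) (hidx : Index L j) (s x : A) (hx : x ∈ L)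
    (u : Fin N → A) (hu : ∀ i, u i ∈ L) (hsu : ∀ i, s * u i = 0) :
    s * x * (List.ofFn u).prod = 0 := by
  obtain ⟨d, rfl⟩ : ∃ d, j = d + 1 := ⟨j - 1, by omega⟩
  rw [Nat.add_sub_cancel] at hP
  -- the module `s L`
  obtain ⟨P, hPdef⟩ : ∃ P : Submodule ℚ A, P = L.map (LinearMap.mulLeft ℚ s) := ⟨_, rfl⟩
  have hPmem : ∀ y, y ∈ P ↔ ∃ z ∈ L, s * z = y := by
    intro y
    rw [hPdef, Submodule.mem_map]
    rfl
  have hstab : ∀ v ∈ rn_K L s, ∀ y ∈ P, y * v ∈ P := by
    intro v hv y hy
    obtain ⟨z, hz, rfl⟩ := (hPmem y).1 hy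
    refine (hPmem _).2 ⟨z * v - v * z, hL z hz v hv.1, ?_⟩
    rw [mul_sub, ← mul_assoc, ← mul_assoc, hv.2, zero_mul, sub_zero]
  -- the action of `K` on `s L` on the right
  obtain ⟨ρ, hρ⟩ : ∃ ρ : rn_K L s →ₗ[ℚ] Module.End ℚ P, ∀ (v : rn_K L s) (y : P),
      ((ρ v y : P) : A) = (y : A) * (v : A) := by
    refine ⟨{ toFun := fun v => { toFun := fun y => ⟨(y : A) * (v : A), hstab v v.2 y y.2⟩,
                                  map_add' := ?_, map_smul' := ?_ },
              map_add' := ?_, map_smul' := ?_ }, fun v y => rfl⟩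
    · intro y y'
      ext
      simp [add_mul]
    · intro c y
      ext
      simp
    · intro v v'
      ext y
      simp [mul_add]
    · intro c v
      ext y
      simp
  have hpow : ∀ (v : rn_K L s) (m : ℕ) (y : P), ((((ρ v) ^ m) y : P) : A) =
      (y : A) * (v : A) ^ m := by
    intro v m
    induction m with
    | zero => intro y; simp
    | succ m ih =>
      intro y
      rw [pow_succ, Module.End.mul_apply, ih, hρ, mul_assoc, ← pow_succ']
  -- the product
  have h2 : ∀ (l : List (rn_K L s)) (y : P),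
      ((((l.map ρ).reverse.prod y : P)) : A) =
        (y : A) * (l.map fun v : rn_K L s => (v : A)).prod := by
    intro l
    induction l with
    | nil => intro y; simp
    | cons v l ih =>
      intro y
      rw [List.map_cons, List.map_cons, List.prod_cons, List.reverse_cons, List.prod_append,
        List.prod_singleton, Module.End.mul_apply, ih, hρ, mul_assoc]
  obtain ⟨u', hu'⟩ : ∃ u' : Fin N → rn_K L s, ∀ i, (u' i : A) = u i :=
    ⟨fun i => ⟨u i, hu i, hsu i⟩, fun i => rfl⟩
  have h3 : ((List.ofFn u').map ρ).reverse.prod = 0 := by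
    refine rn_abs (B := Module.End ℚ P) hP ρ ?_ ?_ (List.ofFn u') (List.length_ofFn)
    · intro v w
      refine ⟨⟨(w : A) * v - v * w, hL _ w.2.1 _ v.2.1, ?_⟩, ?_⟩
      · rw [mul_sub, ← mul_assoc, ← mul_assoc, v.2.2, w.2.2, zero_mul, zero_mul, sub_zero]
      · ext y
        rw [hρ, LinearMap.sub_apply, Module.End.mul_apply, Module.End.mul_apply,
          Submodule.coe_sub, hρ, hρ, hρ, hρ, mul_sub, mul_assoc, mul_assoc]
    · intro v
      ext y
      obtain ⟨z, hz, hzy⟩ := (hPmem y).1 y.2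
      rw [hpow, ← hzy, rn_one L hidx s z v hz v.2.1 v.2.2]
      rfl
  have h4 := h2 (List.ofFn u') ⟨s * x, (hPmem _).2 ⟨x, hx, rfl⟩⟩
  have h6 : ((List.ofFn u').map fun v : rn_K L s => (v : A)) = List.ofFn u := by
    rw [List.map_ofFn]
    congr 1
    funext i
    exact hu' i
  rw [h3, h6] at h4
  simpa using h4.symm

end Pool.Agent.Lib.MP_7ac902_al.Z
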