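import Pool.Agent.Lib.MP_7ac902_al.Z.Normalizing
import Pool.Agent.Lib.MP_7ac902_al.Z.AnnNil

set_option autoImplicit false

namespace Pool.Agent.Lib.MP_7ac902_al.Z

section StepAAux

variable {A : Type*} [Ring A] [Algebra ℚ A]

/-- `K^s = {u ∈ L : s u = 0}`. -/
private def annK (L : Submodule ℚ A) (s : A) : Submodule ℚ A :=
  L ⊓ LinearMap.ker (LinearMap.mulLeft ℚ s)

private lemma mem_annK (L : Submodule ℚ A) (s u : A) : u ∈ annK L s ↔ u ∈ L ∧ s * u = 0 := by
  simp [annK]

private lemma list_prod_mem_pow (K : Submodule ℚ A) :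
    ∀ l : List A, (∀ x ∈ l, x ∈ K) → l.prod ∈ K ^ l.length := by
  intro l
  induction l with
  | nil => intro _; simp [Submodule.one_le.mp le_rfl]
  | cons a l ih =>
    intro h
    rw [List.prod_cons, List.length_cons, pow_succ']
    exact Submodule.mul_mem_mul (h a (by simp)) (ih fun x hx => h x (by simp [hx]))

private lemma exists_upper {c : Set (Submodule ℚ A)} (hc : IsChain (· ≤ ·) c)
    (hne : c.Nonempty) :
    ∀ l : List A, (∀ x ∈ l, ∃ K ∈ c, x ∈ K) → ∃ K ∈ c, ∀ x ∈ l, x ∈ K := by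
  intro l
  induction l with
  | nil => intro _; obtain ⟨K, hK⟩ := hne; exact ⟨K, hK, by simp⟩
  | cons a l ih =>
    intro h
    obtain ⟨K₁, hK₁, h₁⟩ := ih fun x hx => h x (by simp [hx])
    obtain ⟨K₂, hK₂, h₂⟩ := h a (by simp)
    rcases hc.total hK₁ hK₂ with hle | hle
    · refine ⟨K₂, hK₂, ?_⟩
      intro x hx
      rcases List.mem_cons.mp hx with rfl | hx
      · exact h₂
      · exact hle (h₁ x hx)
    · refine ⟨K₁, hK₁, ?_⟩
      intro x hx
      rcases List.mem_cons.mp hx with rfl | hx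
      · exact hle h₂
      · exact h₁ x hx

private lemma adjoin_left {L : Submodule ℚ A} (hgen : Algebra.adjoin ℚ (L : Set A) = ⊤) {s : A}
    (h : ∀ x ∈ L, s * x = 0) (a : A) : ∃ q : ℚ, s * a = q • s := by
  have ha : a ∈ Algebra.adjoin ℚ (L : Set A) := by rw [hgen]; trivial
  induction ha using Algebra.adjoin_induction with
  | mem x hx => exact ⟨0, by rw [h x hx, zero_smul]⟩
  | algebraMap r => exact ⟨r, by rw [← Algebra.commutes, Algebra.smul_def]⟩
  | add x y _ _ hx hy =>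
    obtain ⟨q, hq⟩ := hx
    obtain ⟨r, hr⟩ := hy
    exact ⟨q + r, by rw [mul_add, hq, hr, add_smul]⟩
  | mul x y _ _ hx hy =>
    obtain ⟨q, hq⟩ := hx
    obtain ⟨r, hr⟩ := hy
    exact ⟨q * r, by rw [← mul_assoc, hq, smul_mul_assoc, hr, smul_smul]⟩

end StepAAux

/-- **Step A.**  `P(j-1)` implies that there is no nonzero prime pair of index `j`. -/
theorem no_prime_pair {j N : ℕ} (hj : 2 ≤ j) (hP : NilPair (j - 1) N) (A : Type) [Ring A]
    [Algebra ℚ A] (L : Submodule ℚ A) (hL : LieClosed L) (hidx : Index L j)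
    (hgen : Algebra.adjoin ℚ (L : Set A) = ⊤)
    (hprime : ∀ s u : A, (∀ a, s * a * u = 0) → s = 0 ∨ u = 0) : L = ⊥ := by
  classical
  by_contra hbot
  obtain ⟨x₀, hx₀, hx₀ne⟩ := (Submodule.ne_bot_iff L).mp hbot
  obtain ⟨m, hm⟩ := annihilator_nilpotent hj hP
  have h1 : (1 : A) ≠ 0 := by
    intro h
    exact hx₀ne (by rw [← mul_one x₀, h, mul_zero])
  have hpow : ∀ s : A, s ≠ 0 → annK L s ^ m = ⊥ := fun s hs =>
    hm L hL hidx hgen hprime s hs (annK L s) (mem_annK L s)
  -- Zorn's lemma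
  obtain ⟨K, -, hKmax⟩ := zorn_le_nonempty₀ {K : Submodule ℚ A | ∃ s : A, s ≠ 0 ∧ K = annK L s}
    (by
      intro c hcS hc y hy
      set P : ℕ → Prop := fun n => ∃ l : List A, l.length = n ∧ (∀ x ∈ l, ∃ K ∈ c, x ∈ K) ∧
        l.prod ≠ 0 with hPdef
      have hP0 : P 0 := ⟨[], rfl, by simp, by simpa using h1⟩
      have hPm : ¬ P m := by
        rintro ⟨l, hlen, hl, hne⟩
        obtain ⟨K, hKc, hK⟩ := exists_upper hc ⟨y, hy⟩ l hl
        obtain ⟨s, hs, rfl⟩ := hcS hKc
        have := list_prod_mem_pow _ l hK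
        rw [hlen, hpow s hs, Submodule.mem_bot] at this
        exact hne this
      set n := Nat.findGreatest P m with hn
      have hPn : P n := Nat.findGreatest_spec (P := P) (Nat.zero_le m) hP0
      have hnm : n < m := lt_of_le_of_ne (Nat.findGreatest_le m) (fun h => hPm (h ▸ hPn))
      have hPn1 : ¬ P (n + 1) := Nat.findGreatest_is_greatest (Nat.lt_succ_self _) hnm
      obtain ⟨l, hlen, hl, hne⟩ := hPn
      refine ⟨annK L l.prod, ⟨l.prod, hne, rfl⟩, ?_⟩
      intro z hz u hu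
      rw [mem_annK]
      obtain ⟨s, hs, rfl⟩ := hcS hz
      refine ⟨((mem_annK L s u).mp hu).1, ?_⟩
      by_contra hne'
      refine hPn1 ⟨l ++ [u], by simp [hlen], ?_, by simpa using hne'⟩
      intro x hx
      rcases List.mem_append.mp hx with hx | hx
      · exact hl x hx
      · rw [List.mem_singleton] at hx
        subst hx
        exact ⟨_, hz, hu⟩)
    (annK L 1) ⟨1, h1, rfl⟩
  obtain ⟨s, hs, hKs⟩ := hKmax.prop
  -- `K ≠ L`
  have hex : ∃ x ∈ L, s * x ≠ 0 := by
    by_contra hcon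
    push Not at hcon
    rcases hprime s x₀ (fun a => by
      obtain ⟨q, hq⟩ := adjoin_left hgen hcon a
      rw [hq, smul_mul_assoc, hcon x₀ hx₀, smul_zero]) with h | h
    · exact hs h
    · exact hx₀ne h
  obtain ⟨v, hv, hsv, hnorm⟩ := exists_normalizing hj hP L hL hidx s hex
  have hvj : s * v ^ j = 0 := by rw [hidx v hv, mul_zero]
  set i := Nat.findGreatest (fun i => s * v ^ i ≠ 0) j with hi
  have hPi : s * v ^ i ≠ 0 :=
    Nat.findGreatest_spec (P := fun i => s * v ^ i ≠ 0) (m := 1) (by omega) (by simpa using hsv)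
  have hij : i < j := lt_of_le_of_ne (Nat.findGreatest_le j) (fun h => hPi (h ▸ hvj))
  have hi1 : s * v ^ (i + 1) = 0 := by
    by_contra h
    exact Nat.findGreatest_is_greatest (P := fun i => s * v ^ i ≠ 0) (Nat.lt_succ_self _) hij h
  have key : ∀ k : ℕ, ∀ u ∈ L, s * u = 0 → s * v ^ k * u = 0 := by
    intro k
    induction k with
    | zero => intro u _ hu; simpa using hu
    | succ k ih =>
      intro u huL hu
      have h2 := ih (v * u - u * v) (hL v hv u huL) (hnorm u huL hu)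
      have h3 := ih u huL hu
      have : s * v ^ (k + 1) * u = s * v ^ k * (v * u - u * v) + s * v ^ k * u * v := by
        rw [pow_succ]; noncomm_ring
      rw [this, h2, h3, zero_mul, add_zero]
  have hle : K ≤ annK L (s * v ^ i) := by
    intro u hu
    rw [hKs, mem_annK] at hu
    rw [mem_annK]
    exact ⟨hu.1, key i u hu.1 hu.2⟩
  have hge : annK L (s * v ^ i) ≤ K := hKmax.le_of_ge ⟨_, hPi, rfl⟩ hle
  have hvK : v ∈ K := hge (by
    rw [mem_annK]
    exact ⟨hv, by rw [mul_assoc, ← pow_succ, hi1]⟩)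
  rw [hKs, mem_annK] at hvK
  exact hsv hvK.2

end Pool.Agent.Lib.MP_7ac902_al.Z
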