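import Pool.Agent.Lib.MP_7ac902_al.Z.Polar

set_option autoImplicit false

namespace Pool.Agent.Lib.MP_7ac902_al.Z

section Super

variable {A : Type*} [Ring A] [Algebra ℚ A]

/-- Powers of a supremum with a two-sided ideal. -/
theorem super_sup_pow_le (S T : Submodule ℚ A) (hl : ⊤ * T ≤ T) (hr : T * ⊤ ≤ T) (n : ℕ) :
    (S ⊔ T) ^ n ≤ S ^ n ⊔ T := by
  induction n with
  | zero => simp
  | succ n ih =>
    calc (S ⊔ T) ^ (n + 1) = (S ⊔ T) ^ n * (S ⊔ T) := pow_succ _ _
      _ ≤ (S ^ n ⊔ T) * (S ⊔ T) := mul_le_mul' ih le_rfl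
      _ ≤ S ^ (n + 1) ⊔ T := by
        rw [Submodule.sup_mul, Submodule.mul_sup, pow_succ]
        refine sup_le (sup_le le_sup_left ?_) ?_
        · exact le_trans (le_trans (mul_le_mul' le_top le_rfl) hl) le_sup_right
        · exact le_trans (le_trans (mul_le_mul' le_rfl le_top) hr) le_sup_right

/-- The two-sided ideal generated by a subspace. -/
def superT (P : Submodule ℚ A) : Submodule ℚ A := ⊤ * P * ⊤

theorem superT_left (P : Submodule ℚ A) : ⊤ * superT P ≤ superT P := by
  unfold superT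
  rw [← mul_assoc, ← mul_assoc]
  exact mul_le_mul' (mul_le_mul' le_top le_rfl) le_rfl

theorem superT_right (P : Submodule ℚ A) : superT P * ⊤ ≤ superT P := by
  unfold superT
  rw [mul_assoc]
  exact mul_le_mul' le_rfl le_top

theorem superT_mono {P Q : Submodule ℚ A} (h : P ≤ Q) : superT P ≤ superT Q :=
  mul_le_mul' (mul_le_mul' le_rfl h) le_rfl

theorem le_superT (P : Submodule ℚ A) : P ≤ superT P := by
  intro x hx
  have h := Submodule.mul_mem_mul (Submodule.mul_mem_mul (Submodule.mem_top (x := (1 : A))) hx)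
    (Submodule.mem_top (x := (1 : A)) (R := ℚ))
  simpa [superT] using h

theorem superT_sup (P Q : Submodule ℚ A) : superT (P ⊔ Q) = superT P ⊔ superT Q := by
  unfold superT
  rw [Submodule.mul_sup, Submodule.sup_mul]

theorem superT_nil_sup {P Q : Submodule ℚ A} (hP : ∃ n, superT P ^ n = ⊥)
    (hQ : ∃ n, superT Q ^ n = ⊥) : ∃ n, superT (P ⊔ Q) ^ n = ⊥ := by
  obtain ⟨n, hn⟩ := hP
  obtain ⟨m, hm⟩ := hQ
  refine ⟨n * m, ?_⟩
  rw [superT_sup, pow_mul, eq_bot_iff]
  have h1 : (superT P ⊔ superT Q) ^ n ≤ superT Q := by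
    refine (super_sup_pow_le _ _ (superT_left Q) (superT_right Q) n).trans ?_
    rw [hn]
    simp
  calc ((superT P ⊔ superT Q) ^ n) ^ m ≤ superT Q ^ m := pow_le_pow_left' h1 m
    _ = ⊥ := hm

theorem superT_nil_mono {P Q : Submodule ℚ A} (h : superT P ≤ superT Q)
    (hQ : ∃ n, superT Q ^ n = ⊥) : ∃ n, superT P ^ n = ⊥ := by
  obtain ⟨m, hm⟩ := hQ
  exact ⟨m, eq_bot_iff.2 ((pow_le_pow_left' h m).trans hm.le)⟩

/-- The nil elements form a two-sided ideal. -/
def superNN (A : Type*) [Ring A] [Algebra ℚ A] : Submodule ℚ A where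
  carrier := {a | ∃ n, superT (Submodule.span ℚ {a}) ^ n = ⊥}
  zero_mem' := ⟨1, by simp [superT]⟩
  add_mem' := by
    intro a b ha hb
    refine superT_nil_mono (superT_mono ?_) (superT_nil_sup ha hb)
    rw [Submodule.span_singleton_le_iff_mem]
    exact Submodule.add_mem_sup (Submodule.mem_span_singleton_self a)
      (Submodule.mem_span_singleton_self b)
  smul_mem' := by
    intro c a ha
    refine superT_nil_mono (superT_mono ?_) ha
    rw [Submodule.span_singleton_le_iff_mem]
    exact Submodule.smul_mem _ _ (Submodule.mem_span_singleton_self a)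

theorem mem_superNN {a : A} : a ∈ superNN A ↔ ∃ n, superT (Submodule.span ℚ {a}) ^ n = ⊥ :=
  Iff.rfl

theorem superNN_left : ⊤ * superNN A ≤ superNN A := by
  rw [Submodule.mul_le]
  intro m _ a ha
  refine superT_nil_mono ?_ ha
  have h1 : Submodule.span ℚ {m * a} ≤ superT (Submodule.span ℚ {a}) := by
    rw [Submodule.span_singleton_le_iff_mem]
    exact superT_left _ (Submodule.mul_mem_mul Submodule.mem_top
      (le_superT _ (Submodule.mem_span_singleton_self a)))
  calc superT (Submodule.span ℚ {m * a}) ≤ superT (superT (Submodule.span ℚ {a})) :=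
        superT_mono h1
    _ ≤ superT (Submodule.span ℚ {a}) * ⊤ := mul_le_mul' (superT_left _) le_rfl
    _ ≤ superT (Submodule.span ℚ {a}) := superT_right _

theorem superNN_right : superNN A * ⊤ ≤ superNN A := by
  rw [Submodule.mul_le]
  intro a ha m _
  refine superT_nil_mono ?_ ha
  have h1 : Submodule.span ℚ {a * m} ≤ superT (Submodule.span ℚ {a}) := by
    rw [Submodule.span_singleton_le_iff_mem]
    exact superT_right _ (Submodule.mul_mem_mul 
      (le_superT _ (Submodule.mem_span_singleton_self a)) Submodule.mem_top)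
  calc superT (Submodule.span ℚ {a * m}) ≤ superT (superT (Submodule.span ℚ {a})) :=
        superT_mono h1
    _ ≤ superT (Submodule.span ℚ {a}) * ⊤ := mul_le_mul' (superT_left _) le_rfl
    _ ≤ superT (Submodule.span ℚ {a}) := superT_right _

theorem superNN_of_nilAt {a : A} {n : ℕ} (h : NilAt a n) : a ∈ superNN A := by
  refine ⟨n, ?_⟩
  set J : Submodule ℚ A := Submodule.span ℚ {a} * ⊤ with hJ
  have hJmem : ∀ x ∈ J, ∃ c, a * c = x := by
    intro x hx
    refine Submodule.mul_induction_on hx ?_ ?_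
    · intro m hm c _
      obtain ⟨r, rfl⟩ := Submodule.mem_span_singleton.1 hm
      exact ⟨r • c, by simp⟩
    · rintro x y ⟨c, rfl⟩ ⟨d, rfl⟩
      exact ⟨c + d, by rw [mul_add]⟩
  have hJn : J ^ n = ⊥ := by
    rw [Submodule.pow_eq_span_pow_set, eq_bot_iff, Submodule.span_le]
    intro x hx
    obtain ⟨f, rfl⟩ := Set.mem_pow.1 hx
    choose c hc using fun i => hJmem (f i) (f i).2
    have : (fun i => ((f i : J) : A)) = fun i => a * c i := funext fun i => (hc i).symm
    simp only [this]
    exact h c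
  have hJr : J * ⊤ ≤ J := by
    rw [hJ, mul_assoc]
    exact mul_le_mul' le_rfl le_top
  have key : ∀ m : ℕ, (⊤ * J) ^ m ≤ ⊤ * J ^ m := by
    intro m
    induction m with
    | zero => rw [pow_zero, pow_zero, mul_one]; exact le_top
    | succ m ih =>
      calc (⊤ * J) ^ (m + 1) = (⊤ * J) * (⊤ * J) ^ m := pow_succ' _ _
        _ ≤ (⊤ * J) * (⊤ * J ^ m) := mul_le_mul' le_rfl ih
        _ = ⊤ * (J * ⊤) * J ^ m := by simp only [mul_assoc]
        _ ≤ ⊤ * J * J ^ m := mul_le_mul' (mul_le_mul' le_rfl hJr) le_rfl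
        _ = ⊤ * J ^ (m + 1) := by rw [pow_succ', mul_assoc]
  have h2 := key n
  rw [hJn, Submodule.mul_bot] at h2
  have h3 : superT (Submodule.span ℚ {a}) = ⊤ * J := by rw [hJ, superT, mul_assoc]
  rw [h3]
  exact eq_bot_iff.2 h2

theorem super_fg_nil (s : Finset A) (hs : ∀ a ∈ s, a ∈ superNN A) :
    ∃ n, superT (Submodule.span ℚ (s : Set A)) ^ n = ⊥ := by
  classical
  induction s using Finset.induction_on with
  | empty => exact ⟨1, by simp [superT]⟩
  | insert a s _ ih =>
    rw [Finset.coe_insert, Submodule.span_insert]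
    exact superT_nil_sup (hs a (Finset.mem_insert_self a s))
      (ih fun b hb => hs b (Finset.mem_insert_of_mem hb))

omit [Algebra ℚ A] in
/-- Swapping two neighbours in a product. -/
theorem super_prod_swap {m : ℕ} (u : Fin (m + 1) → A) (i : Fin m) :
    ∃ P Q : List A, (∀ x ∈ P, x ∈ Set.range u) ∧ (∀ x ∈ Q, x ∈ Set.range u) ∧
      (List.ofFn u).prod = P.prod * (u i.castSucc * u i.succ) * Q.prod ∧
      (List.ofFn (u ∘ Equiv.swap i.castSucc i.succ)).prod =
        P.prod * (u i.succ * u i.castSucc) * Q.prod := by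
  have hlen : ∀ v : Fin (m + 1) → A, (List.ofFn v).length = m + 1 := fun v => by simp
  have split : ∀ v : Fin (m + 1) → A, (List.ofFn v).prod =
      ((List.ofFn v).take i).prod * (v i.castSucc * v i.succ) * ((List.ofFn v).drop (i + 2)).prod := by
    intro v
    have h1 : (i : ℕ) < (List.ofFn v).length := by rw [hlen]; omega
    have h2 : (i : ℕ) + 1 < (List.ofFn v).length := by rw [hlen]; omega
    rw [← List.prod_take_mul_prod_drop (List.ofFn v) i, List.drop_eq_getElem_cons h1,
      List.drop_eq_getElem_cons h2]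
    simp only [List.prod_cons, List.getElem_ofFn, mul_assoc]
    rfl
  refine ⟨(List.ofFn u).take i, (List.ofFn u).drop (i + 2), ?_, ?_, split u, ?_⟩
  · intro x hx
    exact List.mem_ofFn.1 (List.mem_of_mem_take hx)
  · intro x hx
    exact List.mem_ofFn.1 (List.mem_of_mem_drop hx)
  · rw [split]
    have e1 : (List.ofFn (u ∘ Equiv.swap i.castSucc i.succ)).take i = (List.ofFn u).take i := by
      apply List.ext_getElem
      · simp
      · intro t h1 h2
        have ht : t < i := by
          have := h1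
          simp only [List.length_take, List.length_ofFn] at this
          omega
        simp only [List.getElem_take, List.getElem_ofFn, Function.comp]
        rw [Equiv.swap_apply_of_ne_of_ne]
        · intro h
          have := congrArg Fin.val h
          simp at this
          omega
        · intro h
          have := congrArg Fin.val h
          simp at this
          omega
    have e2 : (List.ofFn (u ∘ Equiv.swap i.castSucc i.succ)).drop (i + 2) =
        (List.ofFn u).drop (i + 2) := by
      apply List.ext_getElem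
      · simp
      · intro t h1 h2
        simp only [List.getElem_drop, List.getElem_ofFn, Function.comp]
        rw [Equiv.swap_apply_of_ne_of_ne]
        · intro h
          have := congrArg Fin.val h
          simp at this
          omega
        · intro h
          have := congrArg Fin.val h
          simp at this
          omega
    rw [e1, e2]
    simp

theorem super_prod_mem (W : Subalgebra ℚ A) (P : List A) (h : ∀ x ∈ P, x ∈ W) : P.prod ∈ W :=
  Subalgebra.list_prod_mem W h

/-- One step of the descent. -/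
theorem super_step (L0 D D' : Submodule ℚ A) (j : ℕ)
    (h00 : ∀ x ∈ L0, ∀ y ∈ L0, x * y - y * x ∈ L0)
    (hD : ∀ x ∈ D, ∀ y ∈ L0, x * y - y * x ∈ D')
    (hle : D' ≤ D)
    (h11 : ∀ x ∈ D, ∀ y ∈ D, x * y + y * x ∈ L0)
    (halt : ∀ y : Fin j → A, (∀ i, y i ∈ D) →
      ∑ σ : Equiv.Perm (Fin j), ((Equiv.Perm.sign σ : ℤ)) • (List.ofFn (y ∘ σ)).prod = 0)
    (q : ℕ) : (L0 ⊔ D) ^ (j * q) ≤ (L0 ⊔ D') ^ q * ⊤ := by
  set C := L0 ⊔ D with hC
  set C' := L0 ⊔ D' with hC'
  set W : Subalgebra ℚ A := Algebra.adjoin ℚ (C : Set A) with hW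
  set w : Submodule ℚ A := Subalgebra.toSubmodule W with hw
  have hCW : C ≤ w := fun x hx => Algebra.subset_adjoin hx
  have hC'C : C' ≤ C := sup_le_sup_left hle _
  have hL0C' : L0 ≤ C' := le_sup_left
  have hD'C' : D' ≤ C' := le_sup_right
  have hww : w * w ≤ w := by
    rw [Submodule.mul_le]
    intro a ha b hb
    exact W.mul_mem ha hb
  have h1w : (1 : A) ∈ w := W.one_mem
  have hC'V : C' ≤ C' * w := by
    intro x hx
    simpa using Submodule.mul_mem_mul hx h1w
  have hVw : (C' * w) * w ≤ C' * w := by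
    rw [mul_assoc]
    exact mul_le_mul' le_rfl hww
  -- commuting past `C'`
  have hcomm : ∀ x ∈ C, ∀ z ∈ C', x * z ∈ C' * w := by
    intro x hx z hz
    obtain ⟨x0, hx0, x1, hx1, rfl⟩ := Submodule.mem_sup.1 hx
    obtain ⟨z0, hz0, z1, hz1, rfl⟩ := Submodule.mem_sup.1 hz
    have a1 : z0 * x0 + (x0 * z0 - z0 * x0) ∈ C' * w :=
      add_mem (Submodule.mul_mem_mul (hL0C' hz0) (hCW (Submodule.mem_sup_left hx0)))
        (hC'V (hL0C' (h00 x0 hx0 z0 hz0)))
    have a2 : z1 * x0 - (z1 * x0 - x0 * z1) ∈ C' * w :=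
      sub_mem (Submodule.mul_mem_mul (hD'C' hz1) (hCW (Submodule.mem_sup_left hx0)))
        (hC'V (hD'C' (hD z1 (hle hz1) x0 hx0)))
    have a3 : z0 * x1 + (x1 * z0 - z0 * x1) ∈ C' * w :=
      add_mem (Submodule.mul_mem_mul (hL0C' hz0) (hCW (Submodule.mem_sup_right hx1)))
        (hC'V (hD'C' (hD x1 hx1 z0 hz0)))
    have a4 : -(z1 * x1) + (x1 * z1 + z1 * x1) ∈ C' * w :=
      add_mem (neg_mem (Submodule.mul_mem_mul (hD'C' hz1) (hCW (Submodule.mem_sup_right hx1))))
        (hC'V (hL0C' (h11 x1 hx1 z1 (hle hz1))))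
    have := add_mem (add_mem a1 a2) (add_mem a3 a4)
    convert this using 1
    noncomm_ring
  have hwC' : w * C' ≤ C' * w := by
    rw [Submodule.mul_le]
    intro x hx
    have hx' : x ∈ Algebra.adjoin ℚ (C : Set A) := hx
    induction hx' using Algebra.adjoin_induction with
    | mem x hxC => exact fun z hz => hcomm x hxC z hz
    | algebraMap r =>
      intro z hz
      rw [Algebra.algebraMap_eq_smul_one, smul_mul_assoc, one_mul]
      exact Submodule.smul_mem _ _ (hC'V hz)
    | add x y _ _ ihx ihy =>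
      intro z hz
      rw [add_mul]
      exact add_mem (ihx ‹_› z hz) (ihy ‹_› z hz)
    | mul x y hx1 hy1 ihx ihy =>
      intro z hz
      rw [mul_assoc]
      have h2 := ihy hy1 z hz
      refine Submodule.mul_induction_on (C := fun t => x * t ∈ C' * w) h2 ?_ ?_
      · intro m hm n hn
        rw [← mul_assoc]
        exact hVw (Submodule.mul_mem_mul (ihx hx1 m hm) hn)
      · intro a b ha hb
        rw [mul_add]
        exact add_mem ha hb
  have hwV : w * (C' * w) ≤ C' * w := by
    rw [← mul_assoc]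
    exact (mul_le_mul' hwC' le_rfl).trans hVw
  have habs : ∀ a ∈ w, ∀ v ∈ C' * w, ∀ b ∈ w, a * v * b ∈ C' * w := by
    intro a ha v hv b hb
    exact hVw (Submodule.mul_mem_mul (hwV (Submodule.mul_mem_mul ha hv)) hb)
  -- products of elements of `D`
  have hDprod : ∀ y : Fin j → A, (∀ i, y i ∈ D) → (List.ofFn y).prod ∈ C' * w := by
    intro y hy
    obtain _ | m := j
    · have h0 := halt y hy
      simp at h0
      have : (List.ofFn y).prod = 0 := by simp [h0]
      rw [this]
      exact zero_mem _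
    · let g : Equiv.Perm (Fin (m + 1)) → A := fun σ =>
        ((Equiv.Perm.sign σ : ℤ)) • (List.ofFn (y ∘ σ)).prod
      have hg : ∀ τ σ : Equiv.Perm (Fin (m + 1)), g (σ * τ) - g σ ∈ C' * w := by
        intro τ
        have hτ : τ ∈ Submonoid.closure (Set.range fun i : Fin m =>
            Equiv.swap i.castSucc i.succ) := by
          rw [Equiv.Perm.mclosure_swap_castSucc_succ]
          exact Submonoid.mem_top _
        induction hτ using Submonoid.closure_induction with
        | mem τ hτ =>
          obtain ⟨i, rfl⟩ := hτ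
          intro σ
          obtain ⟨P, Q, hP, hQ, e1, e2⟩ := super_prod_swap (y ∘ σ) i
          have hPw : P.prod ∈ w := super_prod_mem W P fun x hx => by
            obtain ⟨t, rfl⟩ := hP x hx
            exact hCW (Submodule.mem_sup_right (hy _))
          have hQw : Q.prod ∈ w := super_prod_mem W Q fun x hx => by
            obtain ⟨t, rfl⟩ := hQ x hx
            exact hCW (Submodule.mem_sup_right (hy _))
          have hne : i.castSucc ≠ i.succ := (Fin.castSucc_lt_succ).ne
          have e3 : g (σ * Equiv.swap i.castSucc i.succ) - g σ =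
              -(((Equiv.Perm.sign σ : ℤ)) • (P.prod * ((y (σ i.castSucc)) * (y (σ i.succ)) +
                (y (σ i.succ)) * (y (σ i.castSucc))) * Q.prod)) := by
            have e4 : y ∘ ⇑(σ * Equiv.swap i.castSucc i.succ) =
              (y ∘ σ) ∘ ⇑(Equiv.swap i.castSucc i.succ) := by
              rw [Equiv.Perm.coe_mul]; rfl
            simp only [g]
            rw [e4, e1, e2, Equiv.Perm.sign_mul, Equiv.Perm.sign_swap hne]
            simp only [Function.comp_apply, mul_neg, mul_one, Units.val_neg, neg_smul]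
            rw [mul_add, add_mul, smul_add]
            abel
          rw [e3]
          refine neg_mem (zsmul_mem (habs _ hPw _ ?_ _ hQw) _)
          exact hC'V (hL0C' (h11 _ (hy _) _ (hy _)))
        | one => intro σ; simp
        | mul a b _ _ iha ihb =>
          intro σ
          have h1 := iha σ
          have h2 := ihb (σ * a)
          rw [← mul_assoc]
          have := add_mem h2 h1
          simpa using this
      have hsum : ∑ σ : Equiv.Perm (Fin (m + 1)), (g σ - g 1) ∈ C' * w := by
        refine sum_mem fun σ _ => ?_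
        have := hg σ 1
        rwa [one_mul] at this
      rw [Finset.sum_sub_distrib] at hsum
      have h0 : ∑ σ : Equiv.Perm (Fin (m + 1)), g σ = 0 := halt y hy
      rw [h0, zero_sub, Finset.sum_const, Finset.card_univ, Fintype.card_perm,
        Fintype.card_fin] at hsum
      have h1 := neg_mem hsum
      rw [neg_neg, ← Nat.cast_smul_eq_nsmul ℚ] at h1
      have h2 : ((((m + 1).factorial : ℕ) : ℚ)) ≠ 0 := by positivity
      have h3 := (Submodule.smul_mem_iff _ h2).1 h1
      simpa [g] using h3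
  have hCj : C ^ j ≤ C' * w := by
    have e : C = Submodule.span ℚ ((L0 : Set A) ∪ (D : Set A)) := by
      rw [Submodule.span_union, Submodule.span_eq, Submodule.span_eq]
    rw [e, Submodule.span_pow, Submodule.span_le]
    intro x hx
    obtain ⟨f, rfl⟩ := Set.mem_pow.1 hx
    have hfC : ∀ i, ((f i : ((L0 : Set A) ∪ (D : Set A) : Set A)) : A) ∈ w := by
      intro i
      rcases (f i).2 with h | h
      · exact hCW (Submodule.mem_sup_left h)
      · exact hCW (Submodule.mem_sup_right h)
    by_cases hall : ∀ i, ((f i : ((L0 : Set A) ∪ (D : Set A) : Set A)) : A) ∈ D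
    · exact hDprod _ hall
    · push Not at hall
      obtain ⟨i, hi⟩ := hall
      have hi0 : ((f i : ((L0 : Set A) ∪ (D : Set A) : Set A)) : A) ∈ L0 := by
        rcases (f i).2 with h | h
        · exact h
        · exact absurd h hi
      have hmem : ((f i : ((L0 : Set A) ∪ (D : Set A) : Set A)) : A) ∈
          List.ofFn (fun i => ((f i : ((L0 : Set A) ∪ (D : Set A) : Set A)) : A)) :=
        List.mem_ofFn.2 ⟨i, rfl⟩
      obtain ⟨s, t, hst⟩ := List.append_of_mem hmem
      have hall' : ∀ z ∈ List.ofFn (fun i => ((f i : ((L0 : Set A) ∪ (D : Set A) : Set A)) : A)),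
          z ∈ W := by
        intro z hz
        obtain ⟨i, rfl⟩ := List.mem_ofFn.1 hz
        exact hfC i
      rw [hst] at hall'
      show (List.ofFn (fun i => ((f i : ((L0 : Set A) ∪ (D : Set A) : Set A)) : A))).prod ∈ _
      rw [hst, List.prod_append, List.prod_cons, ← mul_assoc]
      refine habs _ (super_prod_mem W s fun z hz => hall' z (by simp [hz])) _
        (hC'V (hL0C' hi0)) _ (super_prod_mem W t fun z hz => hall' z (by simp [hz]))
  have hpow : ∀ q : ℕ, C ^ (j * q) ≤ C' ^ q * w := by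
    intro q
    induction q with
    | zero =>
      simp only [mul_zero, pow_zero, one_mul]
      exact Submodule.one_le.2 h1w
    | succ q ih =>
      calc C ^ (j * (q + 1)) = C ^ (j * q) * C ^ j := by rw [mul_add, mul_one, pow_add]
        _ ≤ (C' ^ q * w) * (C' * w) := mul_le_mul' ih hCj
        _ = C' ^ q * (w * (C' * w)) := by rw [mul_assoc]
        _ ≤ C' ^ q * (C' * w) := mul_le_mul' le_rfl hwV
        _ = C' ^ (q + 1) * w := by rw [← mul_assoc, pow_succ]
  exact (hpow q).trans (mul_le_mul' le_rfl le_top)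

/-- The descending sequence `D_i`. -/
def superD (L0 L1 : Submodule ℚ A) : ℕ → Submodule ℚ A
  | 0 => L1
  | i + 1 => Submodule.span ℚ {z | ∃ x ∈ superD L0 L1 i, ∃ y ∈ L0, z = x * y - y * x}

theorem superD_succ_mem (L0 L1 : Submodule ℚ A) (i : ℕ) {x y : A} (hx : x ∈ superD L0 L1 i)
    (hy : y ∈ L0) : x * y - y * x ∈ superD L0 L1 (i + 1) :=
  Submodule.subset_span ⟨x, hx, y, hy, rfl⟩

theorem superD_succ_le_mul (L0 L1 : Submodule ℚ A) (i : ℕ) :
    superD L0 L1 (i + 1) ≤ superD L0 L1 i * L0 ⊔ L0 * superD L0 L1 i := by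
  refine Submodule.span_le.2 ?_
  rintro z ⟨x, hx, y, hy, rfl⟩
  exact sub_mem (Submodule.mem_sup_left (Submodule.mul_mem_mul hx hy))
    (Submodule.mem_sup_right (Submodule.mul_mem_mul hy hx))

theorem superD_succ_le (L0 L1 : Submodule ℚ A)
    (h01 : ∀ x ∈ L0, ∀ y ∈ L1, x * y - y * x ∈ L1) (i : ℕ) :
    superD L0 L1 (i + 1) ≤ superD L0 L1 i := by
  induction i with
  | zero =>
    refine Submodule.span_le.2 ?_
    rintro z ⟨x, hx, y, hy, rfl⟩
    have := neg_mem (h01 y hy x hx)
    rwa [neg_sub] at this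
  | succ i ih =>
    refine Submodule.span_le.2 ?_
    rintro z ⟨x, hx, y, hy, rfl⟩
    exact superD_succ_mem L0 L1 i (ih hx) hy

theorem superD_le (L0 L1 : Submodule ℚ A)
    (h01 : ∀ x ∈ L0, ∀ y ∈ L1, x * y - y * x ∈ L1) (i : ℕ) :
    superD L0 L1 i ≤ L1 := by
  induction i with
  | zero => exact le_rfl
  | succ i ih => exact (superD_succ_le L0 L1 h01 i).trans ih

/-- Deep members of the sequence `D_i` consist of nil elements. -/
theorem superD_le_NN (L0 L1 : Submodule ℚ A) (k : ℕ) (hk : L0 ^ k ≤ superNN A) :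
    ∀ m a b : ℕ, 2 * k ≤ a + b + m + 1 → L0 ^ a * superD L0 L1 m * L0 ^ b ≤ superNN A := by
  intro m
  induction m with
  | zero =>
    intro a b hab
    have habk : k ≤ a ∨ k ≤ b := by omega
    rcases habk with h | h
    · obtain ⟨c, rfl⟩ := Nat.exists_eq_add_of_le h
      rw [pow_add, mul_assoc, mul_assoc]
      exact (mul_le_mul' hk le_top).trans superNN_right
    · obtain ⟨c, rfl⟩ := Nat.exists_eq_add_of_le h
      rw [add_comm k c, pow_add, ← mul_assoc]
      exact (mul_le_mul' le_top hk).trans superNN_left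
  | succ m ih =>
    intro a b hab
    calc L0 ^ a * superD L0 L1 (m + 1) * L0 ^ b
        ≤ L0 ^ a * (superD L0 L1 m * L0 ⊔ L0 * superD L0 L1 m) * L0 ^ b :=
          mul_le_mul' (mul_le_mul' le_rfl (superD_succ_le_mul L0 L1 m)) le_rfl
      _ = L0 ^ a * superD L0 L1 m * L0 ^ (b + 1) ⊔ L0 ^ (a + 1) * superD L0 L1 m * L0 ^ b := by
          rw [Submodule.mul_sup, Submodule.sup_mul, pow_succ' L0 b, pow_succ L0 a]
          simp only [mul_assoc]
      _ ≤ superNN A := sup_le (ih a (b + 1) (by omega)) (ih (a + 1) b (by omega))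

/-- **Superpair theorem.**  Finitely many homogeneous elements of a superpair whose even part
satisfies `E(k)` (with exponents depending on the product) generate a nilpotent algebra. -/
theorem superpair {A : Type*} [Ring A] [Algebra ℚ A] (L0 L1 : Submodule ℚ A) (j k : ℕ)
    (h00 : ∀ x ∈ L0, ∀ y ∈ L0, x * y - y * x ∈ L0)
    (h01 : ∀ x ∈ L0, ∀ y ∈ L1, x * y - y * x ∈ L1)
    (h11 : ∀ x ∈ L1, ∀ y ∈ L1, x * y + y * x ∈ L0)
    (halt : ∀ y : Fin j → A, (∀ i, y i ∈ L1) →
      ∑ σ : Equiv.Perm (Fin j), ((Equiv.Perm.sign σ : ℤ)) • (List.ofFn (y ∘ σ)).prod = 0)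
    (hk : ∀ l : Fin k → A, (∀ i, l i ∈ L0) → ∃ n, NilAt (List.ofFn l).prod n)
    (Gen : Finset A) (hGen : ∀ g ∈ Gen, g ∈ L0 ∨ g ∈ L1) :
    ∃ N, ∀ w : List A, (∀ g ∈ w, g ∈ Gen) → N ≤ w.length → w.prod = 0 := by
  have hLk : L0 ^ k ≤ superNN A := by
    rw [Submodule.pow_eq_span_pow_set, Submodule.span_le]
    intro x hx
    obtain ⟨f, rfl⟩ := Set.mem_pow.1 hx
    obtain ⟨n, hn⟩ := hk (fun i => (f i : A)) (fun i => (f i).2)
    exact superNN_of_nilAt hn
  have hDNN : superD L0 L1 (2 * k) ≤ superNN A := by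
    have := superD_le_NN L0 L1 k hLk (2 * k) 0 0 (by omega)
    simpa using this
  have hCk : (L0 ⊔ superD L0 L1 (2 * k)) ^ k ≤ superNN A := by
    calc (L0 ⊔ superD L0 L1 (2 * k)) ^ k ≤ (L0 ⊔ superNN A) ^ k :=
          pow_le_pow_left' (sup_le_sup_left hDNN _) k
      _ ≤ L0 ^ k ⊔ superNN A := super_sup_pow_le _ _ superNN_left superNN_right k
      _ ≤ superNN A := sup_le hLk le_rfl
  have hstep : ∀ i q : ℕ, (L0 ⊔ superD L0 L1 i) ^ (j * q) ≤
      (L0 ⊔ superD L0 L1 (i + 1)) ^ q * ⊤ := by
    intro i q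
    refine super_step L0 (superD L0 L1 i) (superD L0 L1 (i + 1)) j h00
      (fun x hx y hy => superD_succ_mem L0 L1 i hx hy) (superD_succ_le L0 L1 h01 i)
      (fun x hx y hy => h11 x (superD_le L0 L1 h01 i hx) y (superD_le L0 L1 h01 i hy))
      (fun y hy => halt y fun t => superD_le L0 L1 h01 i (hy t)) q
  have hdesc : ∀ m i : ℕ, i + m = 2 * k → ∃ q, (L0 ⊔ superD L0 L1 i) ^ q ≤ superNN A := by
    intro m
    induction m with
    | zero =>
      intro i hi
      obtain rfl : i = 2 * k := by omega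
      exact ⟨k, hCk⟩
    | succ m ih =>
      intro i hi
      obtain ⟨q, hq⟩ := ih (i + 1) (by omega)
      exact ⟨j * q, (hstep i q).trans ((mul_le_mul' hq le_rfl).trans superNN_right)⟩
  obtain ⟨q0, hq0⟩ := hdesc (2 * k) 0 (by omega)
  have hG : Submodule.span ℚ (Gen : Set A) ≤ L0 ⊔ superD L0 L1 0 := by
    refine Submodule.span_le.2 ?_
    intro g hg
    rcases hGen g hg with h | h
    · exact Submodule.mem_sup_left h
    · exact Submodule.mem_sup_right h
  obtain ⟨s, hs⟩ : (Submodule.span ℚ (Gen : Set A) ^ q0).FG :=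
    (Submodule.FG.pow ⟨Gen, rfl⟩ q0)
  have hsNN : ∀ a ∈ s, a ∈ superNN A := by
    intro a ha
    refine hq0 (pow_le_pow_left' hG q0 ?_)
    rw [← hs]
    exact Submodule.subset_span ha
  obtain ⟨n, hn⟩ := super_fg_nil s hsNN
  rw [hs] at hn
  have hzero : (Submodule.span ℚ (Gen : Set A)) ^ (q0 * n) = ⊥ := by
    rw [pow_mul, eq_bot_iff, ← hn]
    exact pow_le_pow_left' (le_superT _) n
  refine ⟨q0 * n, fun w hw hlen => ?_⟩
  have hmem : ∀ w : List A, (∀ g ∈ w, g ∈ Gen) →
      w.prod ∈ Submodule.span ℚ (Gen : Set A) ^ w.length := by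
    intro w
    induction w with
    | nil =>
      intro _
      rw [List.prod_nil, List.length_nil, pow_zero]
      exact Submodule.one_le.1 le_rfl
    | cons a w ih =>
      intro hw
      rw [List.prod_cons, List.length_cons, pow_succ']
      exact Submodule.mul_mem_mul (Submodule.subset_span (hw a (by simp)))
        (ih fun g hg => hw g (by simp [hg]))
  have h1 := hmem w hw
  obtain ⟨c, hc⟩ := Nat.exists_eq_add_of_le hlen
  rw [hc, pow_add, hzero, Submodule.bot_mul] at h1
  exact (Submodule.mem_bot ℚ).1 h1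

end Super

end Pool.Agent.Lib.MP_7ac902_al.Z
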