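import Pool.Agent.Lib.MP_7ac902_al.Z.Defs

set_option autoImplicit false

namespace Pool.Agent.Lib.MP_7ac902_al.Z

/-- The free associative algebra on `x₀, x₁, …`. -/
abbrev FF : Type := FreeAlgebra ℚ ℕ

/-- The generators. -/
abbrev xx (i : ℕ) : FF := FreeAlgebra.ι ℚ i

/-- The smallest subspace containing the generators and closed under commutators. -/
def LL : Submodule ℚ FF :=
  sInf {P : Submodule ℚ FF | LieClosed P ∧ ∀ i, xx i ∈ P}

/-- `T`-ideals: two-sided ideals stable under the substitutions `x_i ↦ u_i ∈ LL`. -/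
structure IsTIdeal (T : Submodule ℚ FF) : Prop where
  mul_left : ∀ a, ∀ f ∈ T, a * f ∈ T
  mul_right : ∀ a, ∀ f ∈ T, f * a ∈ T
  subst : ∀ u : ℕ → FF, (∀ i, u i ∈ LL) → ∀ f ∈ T, FreeAlgebra.lift ℚ u f ∈ T

/-- The `T`-ideals we consider. -/
structure Good (j : ℕ) (T : Submodule ℚ FF) : Prop extends IsTIdeal T where
  pow_mem : ∀ z ∈ LL, z ^ j ∈ T
  not_mem : ∀ N, (List.ofFn fun i : Fin N => xx i).prod ∉ T

theorem LL_lie : LieClosed LL := by
  intro x hx y hy
  rw [LL, Submodule.mem_sInf] at *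
  intro P hP
  exact hP.1 x (hx P hP) y (hy P hP)

theorem xx_mem (i : ℕ) : xx i ∈ LL := by
  rw [LL, Submodule.mem_sInf]
  intro P hP
  exact hP.2 i

/-- A homomorphism that sends the generators into a Lie closed subspace `L` sends `LL` into `L`. -/
theorem lift_mem {A : Type*} [Ring A] [Algebra ℚ A] {L : Submodule ℚ A} (hL : LieClosed L)
    (u : ℕ → A) (hu : ∀ i, u i ∈ L) {z : FF} (hz : z ∈ LL) : FreeAlgebra.lift ℚ u z ∈ L := by
  have : LL ≤ L.comap (FreeAlgebra.lift ℚ u).toLinearMap := by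
    apply sInf_le
    refine ⟨?_, ?_⟩
    · intro x hx y hy
      simp only [Submodule.mem_comap, AlgHom.toLinearMap_apply, map_sub, map_mul] at *
      exact hL _ hx _ hy
    · intro i
      simp only [Submodule.mem_comap, AlgHom.toLinearMap_apply, FreeAlgebra.lift_ι_apply]
      exact hu i
  exact this hz

end Pool.Agent.Lib.MP_7ac902_al.Z
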