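import Pool.Agent.Lib.MP_7ac902_al.Z.TDefs

set_option autoImplicit false

namespace Pool.Agent.Lib.MP_7ac902_al.Z

/-- The `T`-ideal generated by the `j`-th powers of the elements of `LL`. -/
def tzT0 (j : ℕ) : Submodule ℚ FF :=
  Submodule.span ℚ {y | ∃ a b z, z ∈ LL ∧ y = a * z ^ j * b}

theorem tzT0_isTIdeal (j : ℕ) : IsTIdeal (tzT0 j) where
  mul_left := by
    intro a f hf
    have h : tzT0 j ≤ (tzT0 j).comap (LinearMap.mulLeft ℚ a) := by
      refine Submodule.span_le.2 ?_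
      rintro _ ⟨c, b, z, hz, rfl⟩
      change a * (c * z ^ j * b) ∈ tzT0 j
      refine Submodule.subset_span ⟨a * c, b, z, hz, ?_⟩
      simp only [mul_assoc]
    exact h hf
  mul_right := by
    intro a f hf
    have h : tzT0 j ≤ (tzT0 j).comap (LinearMap.mulRight ℚ a) := by
      refine Submodule.span_le.2 ?_
      rintro _ ⟨c, b, z, hz, rfl⟩
      change (c * z ^ j * b) * a ∈ tzT0 j
      refine Submodule.subset_span ⟨c, b * a, z, hz, ?_⟩
      simp only [mul_assoc]
    exact h hf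
  subst := by
    intro u hu f hf
    have h : tzT0 j ≤ (tzT0 j).comap (FreeAlgebra.lift ℚ u).toLinearMap := by
      refine Submodule.span_le.2 ?_
      rintro _ ⟨c, b, z, hz, rfl⟩
      change FreeAlgebra.lift ℚ u (c * z ^ j * b) ∈ tzT0 j
      refine Submodule.subset_span ⟨FreeAlgebra.lift ℚ u c, FreeAlgebra.lift ℚ u b,
        FreeAlgebra.lift ℚ u z, lift_mem LL_lie u hu hz, ?_⟩
      simp only [map_mul, map_pow]
    exact h hf

theorem tzT0_nilPair {j N : ℕ} (h : (List.ofFn fun i : Fin N => xx i).prod ∈ tzT0 j) :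
    NilPair j N := by
  intro A _ _ L hL hidx
  rw [Submodule.pow_eq_span_pow_set, Submodule.span_eq_bot]
  intro x hx
  obtain ⟨f, rfl⟩ := Set.mem_pow.1 hx
  set u : ℕ → A := fun i => if hi : i < N then (f ⟨i, hi⟩ : A) else 0 with hu
  have huL : ∀ i, u i ∈ L := by
    intro i
    simp only [hu]
    split_ifs with hi
    · exact (f ⟨i, hi⟩).2
    · exact L.zero_mem
  have h1 : tzT0 j ≤ LinearMap.ker (FreeAlgebra.lift ℚ u).toLinearMap := by
    refine Submodule.span_le.2 ?_
    rintro _ ⟨c, b, z, hz, rfl⟩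
    change FreeAlgebra.lift ℚ u (c * z ^ j * b) = 0
    simp only [map_mul, map_pow]
    rw [hidx _ (lift_mem hL u huL hz)]
    simp
  have h2 : FreeAlgebra.lift ℚ u (List.ofFn fun i : Fin N => xx i).prod = 0 := h1 h
  rw [map_list_prod, List.map_ofFn] at h2
  rw [← h2]
  congr 1
  congr 1
  funext i
  simp [hu]

theorem tzT0_good {j : ℕ} (hno : ∀ N, ¬ NilPair j N) : Good j (tzT0 j) where
  toIsTIdeal := tzT0_isTIdeal j
  pow_mem := by
    intro z hz
    exact Submodule.subset_span ⟨1, 1, z, hz, by simp⟩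
  not_mem := fun N h => hno N (tzT0_nilPair h)

/-- If `P(j)` fails, there is a maximal good `T`-ideal. -/
theorem exists_maximal_good {j : ℕ} (hno : ∀ N, ¬ NilPair j N) :
    ∃ T, Good j T ∧ ∀ T', Good j T' → T ≤ T' → T' = T := by
  obtain ⟨m, _, hm⟩ := zorn_le_nonempty₀ {T : Submodule ℚ FF | Good j T} (by
    intro c hc hchain y hy
    have hne : c.Nonempty := ⟨y, hy⟩
    have hdir : DirectedOn (· ≤ ·) c := hchain.directedOn
    have hmem : ∀ x, x ∈ sSup c ↔ ∃ T ∈ c, x ∈ T := fun x => Submodule.mem_sSup_of_directed hne hdir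
    refine ⟨sSup c, ?_, fun z hz => le_sSup hz⟩
    refine { mul_left := ?_, mul_right := ?_, subst := ?_, pow_mem := ?_, not_mem := ?_ }
    · intro a f hf
      obtain ⟨T, hT, hfT⟩ := (hmem f).1 hf
      exact (hmem _).2 ⟨T, hT, (hc hT).mul_left a f hfT⟩
    · intro a f hf
      obtain ⟨T, hT, hfT⟩ := (hmem f).1 hf
      exact (hmem _).2 ⟨T, hT, (hc hT).mul_right a f hfT⟩
    · intro u hu f hf
      obtain ⟨T, hT, hfT⟩ := (hmem f).1 hf
      exact (hmem _).2 ⟨T, hT, (hc hT).subst u hu f hfT⟩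
    · intro z hz
      exact (hmem _).2 ⟨y, hy, (hc hy).pow_mem z hz⟩
    · intro N hN
      obtain ⟨T, hT, hfT⟩ := (hmem _).1 hN
      exact (hc hT).not_mem N hfT) (tzT0 j) (tzT0_good hno)
  exact ⟨m, hm.1, fun T' hT' hle => le_antisymm (hm.2 hT' hle) hle⟩

end Pool.Agent.Lib.MP_7ac902_al.Z
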