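import Pool.Agent.Lib.MP_7ac902_al.Z.Super
import Pool.Agent.Lib.MP_7ac902_al.Z.ExtE
import Pool.Agent.Lib.MP_7ac902_al.Z.Gen

set_option autoImplicit false

namespace Pool.Agent.Lib.MP_7ac902_al.Z

open Finset TensorProduct

variable {R : Type} [Ring R] [Algebra ℚ R]

/-- The product of a list in a product of rings, componentwise. -/
private theorem uniform_list_prod_apply {ι : Type*} {B : ι → Type*} [∀ i, Ring (B i)]
    (w : List ((i : ι) → B i)) (n : ι) : w.prod n = (w.map fun x => x n).prod :=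
  map_list_prod (Pi.evalRingHom B n) w

private theorem uniform_gen_inl {M i c : ℕ} {L : Submodule ℚ R} {l : Fin i → R}
    (hl : ∀ p, l p ∈ L) (v : Fin M → R) (χ : Fin M → Fin c) (p : Fin i) :
    gen l v χ (Sum.inl p) ∈ L0 L M :=
  Submodule.subset_span ⟨l p, hl p, 1, one_mem _, rfl⟩

private theorem uniform_gen_inr {M i c : ℕ} {L : Submodule ℚ R} (l : Fin i → R)
    {v : Fin M → R} (hv : ∀ p, v p ∈ L) (χ : Fin M → Fin c) (q : Fin c) :
    gen l v χ (Sum.inr q) ∈ L1 L M := by
  have h : ∀ p : Fin M, v p ⊗ₜ[ℚ] ExteriorAlgebra.ι ℚ (Pi.single p (1 : ℚ)) ∈ L1 L M := fun p =>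
    Submodule.subset_span ⟨v p, hv p, ExteriorAlgebra.ι ℚ (Pi.single p (1 : ℚ)),
      Submodule.subset_span ⟨1, one_mem _, Pi.single p (1 : ℚ), (one_mul _).symm⟩, rfl⟩
  rw [gen, Sum.elim_inr]
  exact Submodule.sum_mem _ fun p _ => h p

/-- Uniform nilpotency of the superalgebras generated by `i` even and `c` odd elements. -/
theorem uniform {j k n : ℕ} (L : Submodule ℚ R) (hL : LieClosed L) (hidx : Index L j)
    (hE : EProp L k n) (i c : ℕ) :
    ∃ N, ∀ (M : ℕ) (l : Fin i → R), (∀ p, l p ∈ L) → ∀ (v : Fin M → R), (∀ p, v p ∈ L) →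
      ∀ (χ : Fin M → Fin c) (w : List (Fin i ⊕ Fin c)), N ≤ w.length →
        (w.map (gen l v χ)).prod = 0 := by
  classical
  by_contra hcon
  push Not at hcon
  choose M l hl v hv χ w hw hne using hcon
  let P0 : Submodule ℚ ((N : ℕ) → R ⊗[ℚ] Lam (M N)) :=
    Submodule.pi Set.univ fun N => L0 L (M N)
  let P1 : Submodule ℚ ((N : ℕ) → R ⊗[ℚ] Lam (M N)) :=
    Submodule.pi Set.univ fun N => L1 L (M N)
  have m0 : ∀ x, x ∈ P0 ↔ ∀ N, x N ∈ L0 L (M N) := fun x => by
    simp only [P0, Submodule.mem_pi, Set.mem_univ, true_imp_iff]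
  have m1 : ∀ x, x ∈ P1 ↔ ∀ N, x N ∈ L1 L (M N) := fun x => by
    simp only [P1, Submodule.mem_pi, Set.mem_univ, true_imp_iff]
  let g : Fin i ⊕ Fin c → (N : ℕ) → R ⊗[ℚ] Lam (M N) := fun a N => gen (l N) (v N) (χ N) a
  obtain ⟨N0, hN0⟩ := superpair P0 P1 j k
    (fun x hx y hy => (m0 _).2 fun N => h00 L hL (M N) _ ((m0 _).1 hx N) _ ((m0 _).1 hy N))
    (fun x hx y hy => (m1 _).2 fun N => h01 L hL (M N) _ ((m0 _).1 hx N) _ ((m1 _).1 hy N))
    (fun x hx y hy => (m0 _).2 fun N => h11 L hL (M N) _ ((m1 _).1 hx N) _ ((m1 _).1 hy N))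
    (fun y hy => by
      funext N
      have h := halt L hidx (M N) (fun a => y a N) (fun a => (m1 _).1 (hy a) N)
      rw [Finset.sum_apply, Pi.zero_apply, ← h]
      refine Finset.sum_congr rfl fun σ _ => ?_
      rw [Pi.smul_apply, uniform_list_prod_apply, List.map_ofFn]
      rfl)
    (fun y hy => ⟨n, fun d => by
      funext N
      have h := eProp_ext L hE (M N) (fun a => y a N) (fun a => (m0 _).1 (hy a) N) (fun a => d a N)
      rw [Pi.zero_apply, ← h, uniform_list_prod_apply, List.map_ofFn]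
      congr 1
      congr 1
      funext a
      simp only [Function.comp, Pi.mul_apply]
      rw [uniform_list_prod_apply, List.map_ofFn]
      rfl⟩)
    (Finset.univ.image g)
    (fun x hx => by
      rw [Finset.mem_image] at hx
      obtain ⟨a, -, rfl⟩ := hx
      cases a with
      | inl p => exact Or.inl ((m0 _).2 fun N => uniform_gen_inl (hl N) (v N) (χ N) p)
      | inr q => exact Or.inr ((m1 _).2 fun N => uniform_gen_inr (l N) (hv N) (χ N) q))
  have h := hN0 ((w N0).map g)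
    (fun x hx => by
      rw [List.mem_map] at hx
      obtain ⟨a, -, rfl⟩ := hx
      exact Finset.mem_image_of_mem _ (Finset.mem_univ _))
    (by rw [List.length_map]; exact hw N0)
  apply hne N0
  have h2 := congrFun h N0
  rw [uniform_list_prod_apply, List.map_map] at h2
  exact h2

end Pool.Agent.Lib.MP_7ac902_al.Z
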